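import Pool.Agent.H270.QD.Defs

/-!
# Ando's theorem on the numerical radius, finite dimension

Proof: for `r < 1` the block Toeplitz forms of `r T` are positive (averages over roots of unity), so the
Schur complements `D₀ = 2`, `D_{n+1} = 2 - T' D_n⁻¹ T'*` are positive; the averages of the `D_n` converge
along a subsequence (compactness).
-/

set_option autoImplicit false

open Polynomial Filter Topology

namespace Pool.Agent.H270.QD

section ando

variable {H : Type*} [NormedAddCommGroup H] [InnerProductSpace ℂ H]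

theorem ando_self (x : H) : (inner ℂ x x : ℂ).re = ‖x‖ ^ 2 := inner_self_eq_norm_sq (𝕜 := ℂ) x

theorem ando_re_smul (r : ℝ) (x y : H) :
    (inner ℂ x ((r : ℂ) • y) : ℂ).re = r * (inner ℂ x y : ℂ).re := by
  rw [inner_smul_right, Complex.re_ofReal_mul]

theorem ando_expand (T : H →L[ℂ] H) (x : ℕ → H) (a : ℕ → ℂ) (s : Finset ℕ) :
    (inner ℂ (∑ j ∈ s, a j • x j) (T (∑ j ∈ s, a j • x j)) : ℂ) =
      ∑ i ∈ s, ∑ j ∈ s, (starRingEnd ℂ) (a i) * a j * inner ℂ (x i) (T (x j)) := by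
  rw [map_sum, sum_inner]
  refine Finset.sum_congr rfl fun i _ => ?_
  rw [inner_sum]
  refine Finset.sum_congr rfl fun j _ => ?_
  rw [map_smul, inner_smul_left, inner_smul_right]
  ring

theorem ando_root {N : ℕ} {ω : ℂ} (hω : IsPrimitiveRoot ω N) (m : ℤ) :
    ∑ k ∈ Finset.range N, (ω ^ m) ^ k = if (N : ℤ) ∣ m then (N : ℂ) else 0 := by
  split_ifs with h
  · rw [(hω.zpow_eq_one_iff_dvd m).2 h]
    simp
  · have h1 : ω ^ m ≠ 1 := fun h2 => h ((hω.zpow_eq_one_iff_dvd m).1 h2)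
    rw [geom_sum_eq h1, ← zpow_natCast, ← zpow_mul, mul_comm, zpow_mul, zpow_natCast,
      hω.pow_eq_one, one_zpow, sub_self, zero_div]

theorem ando_avg (T : H →L[ℂ] H) (x : ℕ → H) (n : ℕ) {ω : ℂ} (hω : IsPrimitiveRoot ω (n + 2))
    (hω1 : ‖ω‖ = 1) (d : ℕ) (hd : d ≤ 1) :
    ∑ k ∈ Finset.range (n + 2), (ω ^ (-(d : ℤ))) ^ k *
      inner ℂ (∑ j ∈ Finset.range (n + 1), (ω ^ (j : ℤ)) ^ k • x j)
        (T (∑ j ∈ Finset.range (n + 1), (ω ^ (j : ℤ)) ^ k • x j)) =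
      ((n + 2 : ℕ) : ℂ) * ∑ i ∈ Finset.range (n + 1), ∑ j ∈ Finset.range (n + 1),
        if j = i + d then inner ℂ (x i) (T (x j)) else 0 := by
  have hω0 : ω ≠ 0 := by
    rintro rfl
    rw [norm_zero] at hω1
    exact zero_ne_one hω1
  have hconj : (starRingEnd ℂ) ω = ω⁻¹ := (Complex.inv_eq_conj hω1).symm
  have e1 : ∀ k, (ω ^ (-(d : ℤ))) ^ k *
      inner ℂ (∑ j ∈ Finset.range (n + 1), (ω ^ (j : ℤ)) ^ k • x j)
        (T (∑ j ∈ Finset.range (n + 1), (ω ^ (j : ℤ)) ^ k • x j)) =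
      ∑ i ∈ Finset.range (n + 1), ∑ j ∈ Finset.range (n + 1),
        (ω ^ ((j : ℤ) - i - d)) ^ k * inner ℂ (x i) (T (x j)) := by
    intro k
    rw [ando_expand, Finset.mul_sum]
    refine Finset.sum_congr rfl fun i _ => ?_
    rw [Finset.mul_sum]
    refine Finset.sum_congr rfl fun j _ => ?_
    rw [map_pow, map_zpow₀, hconj, inv_zpow', ← mul_assoc, ← mul_pow, ← mul_pow,
      ← zpow_add₀ hω0, ← zpow_add₀ hω0]
    congr 3
    ring
  rw [Finset.sum_congr rfl fun k _ => e1 k, Finset.sum_comm, Finset.mul_sum]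
  refine Finset.sum_congr rfl fun i hi => ?_
  rw [Finset.sum_comm, Finset.mul_sum]
  refine Finset.sum_congr rfl fun j hj => ?_
  rw [← Finset.sum_mul, ando_root hω]
  rw [Finset.mem_range] at hi hj
  by_cases h : j = i + d
  · rw [if_pos h, if_pos (by rw [h]; push_cast; exact ⟨0, by ring⟩)]
  · rw [if_neg h, if_neg, zero_mul, mul_zero]
    intro hdvd
    have h0 : (j : ℤ) - i - d = 0 := by
      refine Int.eq_zero_of_abs_lt_dvd hdvd ?_
      rw [abs_lt]
      push_cast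
      constructor <;> omega
    exact h (by omega)

/-- positivity of the block Toeplitz forms -/
theorem ando_toep (T : H →L[ℂ] H) (hT : ∀ x : H, ‖(inner ℂ x (T x) : ℂ)‖ ≤ ‖x‖ ^ 2) (n : ℕ)
    (x : ℕ → H) :
    ‖∑ i ∈ Finset.range n, (inner ℂ (x i) (T (x (i + 1))) : ℂ)‖ ≤
      ∑ i ∈ Finset.range (n + 1), ‖x i‖ ^ 2 := by
  obtain ⟨ω, hω⟩ : ∃ ω : ℂ, IsPrimitiveRoot ω (n + 2) :=
    ⟨_, Complex.isPrimitiveRoot_exp (n + 2) (by omega)⟩
  have hω1 : ‖ω‖ = 1 := hω.norm'_eq_one (by omega)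
  have a0 := ando_avg (1 : H →L[ℂ] H) x n hω hω1 0 (by omega)
  have a1 := ando_avg T x n hω hω1 1 le_rfl
  have b0 : ∑ i ∈ Finset.range (n + 1), ∑ j ∈ Finset.range (n + 1),
      (if j = i + 0 then (inner ℂ (x i) ((1 : H →L[ℂ] H) (x j)) : ℂ) else 0) =
      ((∑ i ∈ Finset.range (n + 1), ‖x i‖ ^ 2 : ℝ) : ℂ) := by
    rw [Complex.ofReal_sum]
    refine Finset.sum_congr rfl fun i hi => ?_
    rw [Finset.sum_ite_eq', if_pos (by simpa using hi)]
    show (inner ℂ (x i) (x (i + 0)) : ℂ) = _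
    rw [add_zero, inner_self_eq_norm_sq_to_K]
    norm_cast
  have b1 : ∑ i ∈ Finset.range (n + 1), ∑ j ∈ Finset.range (n + 1),
      (if j = i + 1 then (inner ℂ (x i) (T (x j)) : ℂ) else 0) =
      ∑ i ∈ Finset.range n, (inner ℂ (x i) (T (x (i + 1))) : ℂ) := by
    rw [Finset.sum_range_succ]
    have e2 : ∑ j ∈ Finset.range (n + 1),
        (if j = n + 1 then (inner ℂ (x n) (T (x j)) : ℂ) else 0) = 0 :=
      Finset.sum_eq_zero fun j hj => by
        rw [Finset.mem_range] at hj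
        rw [if_neg (by omega)]
    rw [e2, add_zero]
    refine Finset.sum_congr rfl fun i hi => ?_
    rw [Finset.mem_range] at hi
    rw [Finset.sum_ite_eq', if_pos (by rw [Finset.mem_range]; omega)]
  rw [b0] at a0
  rw [b1] at a1
  have c0 : ∑ k ∈ Finset.range (n + 2),
      ‖∑ j ∈ Finset.range (n + 1), (ω ^ (j : ℤ)) ^ k • x j‖ ^ 2 =
      ((n + 2 : ℕ) : ℝ) * ∑ i ∈ Finset.range (n + 1), ‖x i‖ ^ 2 := by
    have c1 : ((∑ k ∈ Finset.range (n + 2),
        ‖∑ j ∈ Finset.range (n + 1), (ω ^ (j : ℤ)) ^ k • x j‖ ^ 2 : ℝ) : ℂ) =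
        (((n + 2 : ℕ) : ℝ) * ∑ i ∈ Finset.range (n + 1), ‖x i‖ ^ 2 : ℝ) := by
      rw [Complex.ofReal_mul, Complex.ofReal_natCast, ← a0, Complex.ofReal_sum]
      refine Finset.sum_congr rfl fun k _ => ?_
      show _ = (ω ^ (-((0 : ℕ) : ℤ))) ^ k *
        (inner ℂ (∑ j ∈ Finset.range (n + 1), (ω ^ (j : ℤ)) ^ k • x j)
          (∑ j ∈ Finset.range (n + 1), (ω ^ (j : ℤ)) ^ k • x j) : ℂ)
      rw [inner_self_eq_norm_sq_to_K, Nat.cast_zero, neg_zero, zpow_zero, one_pow, one_mul]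
      norm_cast
    exact_mod_cast c1
  have hN : (0 : ℝ) < ((n + 2 : ℕ) : ℝ) := by positivity
  have c2 : ((n + 2 : ℕ) : ℝ) * ‖∑ i ∈ Finset.range n, (inner ℂ (x i) (T (x (i + 1))) : ℂ)‖ ≤
      ((n + 2 : ℕ) : ℝ) * ∑ i ∈ Finset.range (n + 1), ‖x i‖ ^ 2 := by
    rw [← c0]
    calc ((n + 2 : ℕ) : ℝ) * ‖∑ i ∈ Finset.range n, (inner ℂ (x i) (T (x (i + 1))) : ℂ)‖ =
          ‖((n + 2 : ℕ) : ℂ) * ∑ i ∈ Finset.range n, (inner ℂ (x i) (T (x (i + 1))) : ℂ)‖ := by
            rw [norm_mul, Complex.norm_natCast]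
      _ ≤ _ := by
            rw [← a1]
            refine (norm_sum_le _ _).trans (Finset.sum_le_sum fun k _ => ?_)
            rw [norm_mul, norm_pow, norm_zpow, hω1, one_zpow, one_pow, one_mul]
            exact hT _
  exact le_of_mul_le_mul_left c2 hN

/-- the block Toeplitz form -/
noncomputable def ando_Th (T : H →L[ℂ] H) (n : ℕ) (y : ℕ → H) : ℝ :=
  ∑ j ∈ Finset.range (n + 1), 2 * ‖y j‖ ^ 2 +
    2 * ∑ j ∈ Finset.range n, (inner ℂ (y j) (T (y (j + 1))) : ℂ).re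

theorem ando_Th_pos (T : H →L[ℂ] H) (hT : ∀ x : H, ‖(inner ℂ x (T x) : ℂ)‖ ≤ ‖x‖ ^ 2) {r : ℝ}
    (hr0 : 0 ≤ r) (n : ℕ) (y : ℕ → H) :
    2 * (1 - r) * ∑ j ∈ Finset.range (n + 1), ‖y j‖ ^ 2 ≤ ando_Th ((r : ℂ) • T) n y := by
  have h1 := ando_toep T hT n y
  have h2 : -(∑ j ∈ Finset.range (n + 1), ‖y j‖ ^ 2) ≤
      ∑ j ∈ Finset.range n, (inner ℂ (y j) (T (y (j + 1))) : ℂ).re := by
    have h3 := Complex.abs_re_le_norm (∑ j ∈ Finset.range n, (inner ℂ (y j) (T (y (j + 1))) : ℂ))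
    rw [Complex.re_sum] at h3
    have h4 := neg_abs_le (∑ j ∈ Finset.range n, (inner ℂ (y j) (T (y (j + 1))) : ℂ).re)
    linarith
  unfold ando_Th
  have h5 : ∀ j, (inner ℂ (y j) (((r : ℂ) • T) (y (j + 1))) : ℂ).re =
      r * (inner ℂ (y j) (T (y (j + 1))) : ℂ).re := by
    intro j
    show (inner ℂ (y j) ((r : ℂ) • T (y (j + 1))) : ℂ).re = _
    rw [inner_smul_right, Complex.re_ofReal_mul]
  simp only [h5]
  rw [← Finset.mul_sum, ← Finset.mul_sum]
  have h6 := mul_le_mul_of_nonneg_left h2 hr0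
  linarith

theorem ando_sa_re {D : H →L[ℂ] H} [CompleteSpace H] (hD : IsSelfAdjoint D) (x y : H) :
    (inner ℂ (D x) y : ℂ) = inner ℂ x (D y) := by
  have h : ContinuousLinearMap.adjoint D = D := hD
  conv_lhs => rw [← h]
  exact ContinuousLinearMap.adjoint_inner_left D y x

variable [CompleteSpace H]

/-- the Schur complement -/
theorem ando_step (T D : H →L[ℂ] H) (hD : IsSelfAdjoint D) {c : ℝ} (hc : 0 < c)
    (h : ∀ x : H, c * ‖x‖ ^ 2 ≤ (inner ℂ x (D x) : ℂ).re) :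
    ∃ D' : H →L[ℂ] H, IsSelfAdjoint D' ∧
      (∀ x y : H, 0 ≤ (2 * ‖x‖ ^ 2 - (inner ℂ x (D' x) : ℂ).re) + 2 * (inner ℂ x (T y) : ℂ).re +
        (inner ℂ y (D y) : ℂ).re) ∧
      ∀ x : H, ∃ a : H, (inner ℂ x (D' x) : ℂ).re =
        2 * ‖x‖ ^ 2 + 2 * (inner ℂ x (T a) : ℂ).re + (inner ℂ a (D a) : ℂ).re := by
  have hU : IsUnit D := by
    refine ContinuousLinearMap.isUnit_of_forall_le_norm_inner_map D (c := ⟨c, hc.le⟩) hc
      fun x => ?_
    have h1 := h x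
    have h2 := Complex.re_le_norm (inner ℂ x (D x) : ℂ)
    rw [ando_sa_re hD x x]
    show ‖x‖ ^ 2 * c ≤ _
    linarith
  obtain ⟨u, hu⟩ := hU
  obtain ⟨R, hR⟩ : ∃ R : H →L[ℂ] H, R = ↑u⁻¹ := ⟨_, rfl⟩
  have hDR : D * R = 1 := by rw [hR, ← hu]; exact u.mul_inv
  have hRs : star R = R := by
    have h1 : star R * D = 1 := by
      have := congrArg star hDR
      rwa [star_mul, hD.star_eq, star_one] at this
    calc star R = star R * (D * R) := by rw [hDR, mul_one]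
      _ = R := by rw [← mul_assoc, h1, one_mul]
  refine ⟨((2 : ℝ) : ℂ) • 1 - T * R * star T, ?_, ?_, ?_⟩
  · rw [isSelfAdjoint_iff, star_sub, star_smul, star_one, star_mul, star_mul, star_star, hRs,
      mul_assoc]
    congr 2
    exact Complex.conj_ofReal _
  all_goals
    have key : ∀ x : H, (inner ℂ x ((((2 : ℝ) : ℂ) • (1 : H →L[ℂ] H) - T * R * star T) x) : ℂ).re =
        2 * ‖x‖ ^ 2 - (inner ℂ (R ((star T) x)) (D (R ((star T) x))) : ℂ).re := by
      intro x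
      have e1 : (((2 : ℝ) : ℂ) • (1 : H →L[ℂ] H) - T * R * star T) x =
          ((2 : ℝ) : ℂ) • x - T (R ((star T) x)) := rfl
      have e2 : (inner ℂ x (T (R ((star T) x))) : ℂ) = inner ℂ ((star T) x) (R ((star T) x)) := by
        rw [ContinuousLinearMap.star_eq_adjoint, ContinuousLinearMap.adjoint_inner_left]
      have e3 : D (R ((star T) x)) = (star T) x := by
        have := congrArg (fun L : H →L[ℂ] H => L ((star T) x)) hDR
        exact this
      rw [e1, inner_sub_right, Complex.sub_re, ando_re_smul, ando_self, e2, e3]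
      congr 1
      rw [← inner_conj_symm, Complex.conj_re]
    have e2 : ∀ x y : H, (inner ℂ x (T y) : ℂ) = inner ℂ (R ((star T) x)) (D y) := by
      intro x y
      have e3 : D (R ((star T) x)) = (star T) x := by
        have := congrArg (fun L : H →L[ℂ] H => L ((star T) x)) hDR
        exact this
      rw [← ando_sa_re hD, e3, ContinuousLinearMap.star_eq_adjoint,
        ContinuousLinearMap.adjoint_inner_left]
  · intro x y
    rw [key x, e2 x y]
    set b := R ((star T) x)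
    have h1 := h (b + y)
    rw [map_add, inner_add_left, inner_add_right, inner_add_right, Complex.add_re, Complex.add_re,
      Complex.add_re] at h1
    have h2 : (inner ℂ y (D b) : ℂ).re = (inner ℂ b (D y) : ℂ).re := by
      rw [← ando_sa_re hD, ← inner_conj_symm, Complex.conj_re]
    have h3 : 0 ≤ c * ‖b + y‖ ^ 2 := by positivity
    rw [h2] at h1
    linarith
  · intro x
    refine ⟨-(R ((star T) x)), ?_⟩
    rw [key x, e2 x]
    set b := R ((star T) x)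
    have h5 : (inner ℂ (-b) (D (-b)) : ℂ) = inner ℂ b (D b) := by
      rw [map_neg, inner_neg_right, inner_neg_left, neg_neg]
    rw [h5, map_neg, inner_neg_right, Complex.neg_re]
    ring

theorem ando_seq (T : H →L[ℂ] H) {c : ℝ} (hc : 0 < c)
    (ht : ∀ (n : ℕ) (y : ℕ → H), c * ∑ j ∈ Finset.range (n + 1), ‖y j‖ ^ 2 ≤ ando_Th T n y) :
    ∀ n : ℕ, ∃ D B : H →L[ℂ] H, IsSelfAdjoint D ∧ IsSelfAdjoint B ∧
      (∀ x : H, ∃ y : ℕ → H, y 0 = x ∧ (inner ℂ x (D x) : ℂ).re = ando_Th T n y) ∧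
      ∀ x y : H, 0 ≤ 2 * n * ‖x‖ ^ 2 - (inner ℂ x (B x) : ℂ).re -
        ((inner ℂ x (D x) : ℂ).re - 2 * ‖x‖ ^ 2) + 2 * n * (inner ℂ x (T y) : ℂ).re +
        (inner ℂ y (B y) : ℂ).re := by
  intro n
  induction n with
  | zero =>
    have e1 : ∀ x : H, (inner ℂ x ((((2 : ℝ) : ℂ) • (1 : H →L[ℂ] H)) x) : ℂ).re =
        2 * ‖x‖ ^ 2 := by
      intro x
      show (inner ℂ x (((2 : ℝ) : ℂ) • x) : ℂ).re = _
      rw [ando_re_smul, ando_self]
    refine ⟨((2 : ℝ) : ℂ) • 1, 0, ?_, IsSelfAdjoint.zero _, fun x => ⟨fun _ => x, rfl, ?_⟩,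
      fun x y => ?_⟩
    · rw [isSelfAdjoint_iff, star_smul, star_one]
      congr 1
      exact Complex.conj_ofReal _
    · rw [e1]
      unfold ando_Th
      simp
    · rw [e1]
      simp
  | succ n ih =>
    obtain ⟨D, B, hD, hB, hy, hi⟩ := ih
    have hDc : ∀ x : H, c * ‖x‖ ^ 2 ≤ (inner ℂ x (D x) : ℂ).re := by
      intro x
      obtain ⟨y, hy0, hyx⟩ := hy x
      rw [hyx]
      refine le_trans (mul_le_mul_of_nonneg_left ?_ hc.le) (ht n y)
      rw [← hy0]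
      exact Finset.single_le_sum (f := fun j => ‖y j‖ ^ 2) (fun j _ => sq_nonneg _)
        (Finset.mem_range.2 (Nat.succ_pos n))
    obtain ⟨D', hD', h1, h2⟩ := ando_step T D hD hc hDc
    refine ⟨D', B + D, hD', hB.add hD, fun x => ?_, fun x y => ?_⟩
    · obtain ⟨a, ha⟩ := h2 x
      obtain ⟨y, hy0, hya⟩ := hy a
      refine ⟨fun j => Nat.casesOn j x (fun i => y i), rfl, ?_⟩
      rw [ha, hya]
      unfold ando_Th
      rw [Finset.sum_range_succ' (fun j : ℕ =>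
        2 * ‖(Nat.casesOn j x (fun i => y i) : H)‖ ^ 2),
        Finset.sum_range_succ' (fun j : ℕ => (inner ℂ (Nat.casesOn j x (fun i => y i) : H)
          (T (Nat.casesOn (j + 1) x (fun i => y i) : H)) : ℂ).re)]
      show _ = (∑ k ∈ Finset.range (n + 1), 2 * ‖y k‖ ^ 2 + 2 * ‖x‖ ^ 2) +
        2 * (∑ k ∈ Finset.range n, (inner ℂ (y k) (T (y (k + 1))) : ℂ).re +
          (inner ℂ x (T (y 0)) : ℂ).re)
      rw [hy0]
      ring
    · have h3 := hi x y
      have h4 := h1 x y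
      have e1 : (inner ℂ x ((B + D) x) : ℂ).re = (inner ℂ x (B x) : ℂ).re +
          (inner ℂ x (D x) : ℂ).re := by
        show (inner ℂ x (B x + D x) : ℂ).re = _
        rw [inner_add_right, Complex.add_re]
      have e2 : (inner ℂ y ((B + D) y) : ℂ).re = (inner ℂ y (B y) : ℂ).re +
          (inner ℂ y (D y) : ℂ).re := by
        show (inner ℂ y (B y + D y) : ℂ).re = _
        rw [inner_add_right, Complex.add_re]
      rw [e1, e2]
      push_cast
      linarith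

/-- a bound of the norm of a self-adjoint operator -/
theorem ando_norm {Z : H →L[ℂ] H} (hZ : IsSelfAdjoint Z) {K : ℝ} (hK : 0 ≤ K)
    (h : ∀ x : H, |(inner ℂ x (Z x) : ℂ).re| ≤ K * ‖x‖ ^ 2) : ‖Z‖ ≤ K := by
  refine ContinuousLinearMap.opNorm_le_bound _ hK fun y => ?_
  by_cases hy : Z y = 0
  · rw [hy, norm_zero]
    positivity
  have hZy : 0 < ‖Z y‖ := norm_pos_iff.2 hy
  have hy0 : 0 < ‖y‖ := by
    rw [norm_pos_iff]
    rintro rfl
    exact hy (map_zero Z)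
  set x : H := ((‖y‖ / ‖Z y‖ : ℝ) : ℂ) • Z y with hx
  have hxn : ‖x‖ = ‖y‖ := by
    rw [hx, norm_smul, Complex.norm_real, Real.norm_of_nonneg (by positivity)]
    field_simp
  have h1 : (inner ℂ x (Z y) : ℂ).re = ‖y‖ * ‖Z y‖ := by
    rw [hx, inner_smul_left, Complex.conj_ofReal, Complex.re_ofReal_mul, ando_self]
    field_simp
  have h2 : (inner ℂ y (Z x) : ℂ).re = (inner ℂ x (Z y) : ℂ).re := by
    rw [← ando_sa_re hZ, ← inner_conj_symm, Complex.conj_re]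
  have h3 := (le_abs_self _).trans (h (x + y))
  have h4 := (neg_abs_le _).trans' (neg_le_neg (h (x - y)))
  rw [map_add, inner_add_left, inner_add_right, inner_add_right, Complex.add_re, Complex.add_re,
    Complex.add_re, h2] at h3
  rw [map_sub, inner_sub_left, inner_sub_right, inner_sub_right, Complex.sub_re, Complex.sub_re,
    Complex.sub_re, h2] at h4
  have h5 : ‖x + y‖ ^ 2 + ‖x - y‖ ^ 2 = 2 * (‖x‖ ^ 2 + ‖y‖ ^ 2) := by
    have := parallelogram_law_with_norm ℂ x y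
    nlinarith [this]
  rw [hxn] at h5
  rw [h1] at h3 h4
  have h6 : 4 * (‖y‖ * ‖Z y‖) ≤ K * (‖x + y‖ ^ 2 + ‖x - y‖ ^ 2) := by linarith
  rw [h5] at h6
  have h7 : ‖y‖ * ‖Z y‖ ≤ ‖y‖ * (K * ‖y‖) := by nlinarith
  exact le_of_mul_le_mul_left h7 hy0

/-- the approximate statement -/
theorem ando_approx (T : H →L[ℂ] H) (hT : ∀ x : H, ‖(inner ℂ x (T x) : ℂ)‖ ≤ ‖x‖ ^ 2) {r : ℝ}
    (hr0 : 0 ≤ r) (hr1 : r < 1) (n : ℕ) (hn : 0 < n) :
    ∃ Z : H →L[ℂ] H, IsSelfAdjoint Z ∧ ‖Z‖ ≤ 3 ∧ ∀ x y : H,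
      -(2 * ‖x‖ ^ 2 / n) ≤ (inner ℂ x (x + Z x) : ℂ).re + 2 * r * (inner ℂ x (T y) : ℂ).re +
        (inner ℂ y (y - Z y) : ℂ).re := by
  have hc : (0 : ℝ) < 2 * (1 - r) := by linarith
  obtain ⟨D, B, hD, hB, hy, hi⟩ := ando_seq ((r : ℂ) • T) hc
    (fun n y => ando_Th_pos T hT hr0 n y) n
  have hDc : ∀ x : H, 0 ≤ (inner ℂ x (D x) : ℂ).re := by
    intro x
    obtain ⟨y, hy0, hyx⟩ := hy x
    rw [hyx]
    refine le_trans (mul_nonneg hc.le (Finset.sum_nonneg fun j _ => sq_nonneg _))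
      (ando_Th_pos T hT hr0 n y)
  have hn0 : (0 : ℝ) < n := Nat.cast_pos.2 hn
  have hn1 : (1 : ℝ) ≤ n := by exact_mod_cast hn
  have hTr : ∀ x y : H, (inner ℂ x (((r : ℂ) • T) y) : ℂ).re = r * (inner ℂ x (T y) : ℂ).re := by
    intro x y
    show (inner ℂ x ((r : ℂ) • T y) : ℂ).re = _
    rw [inner_smul_right, Complex.re_ofReal_mul]
  have hZv : ∀ x : H, (inner ℂ x ((1 - ((1 / n : ℝ) : ℂ) • B : H →L[ℂ] H) x) : ℂ).re =
      ‖x‖ ^ 2 - (inner ℂ x (B x) : ℂ).re / n := by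
    intro x
    show (inner ℂ x (x - ((1 / n : ℝ) : ℂ) • B x) : ℂ).re = _
    rw [inner_sub_right, Complex.sub_re, ando_re_smul, ando_self]
    ring
  refine ⟨1 - ((1 / n : ℝ) : ℂ) • B, ?_, ?_, ?_⟩
  · rw [isSelfAdjoint_iff, star_sub, star_one, star_smul, hB.star_eq]
    congr 2
    exact Complex.conj_ofReal _
  · refine ando_norm ?_ (by norm_num) fun x => ?_
    · rw [isSelfAdjoint_iff, star_sub, star_one, star_smul, hB.star_eq]
      congr 2
      exact Complex.conj_ofReal _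
    · rw [hZv]
      have h1 := hi x 0
      have h2 := hi 0 x
      have h3 := hDc x
      simp only [map_zero, inner_zero_right, inner_zero_left, Complex.zero_re, norm_zero] at h1 h2
      have h4 : 0 ≤ (inner ℂ x (B x) : ℂ).re := by
        norm_num at h2
        linarith
      have h5 : (inner ℂ x (B x) : ℂ).re ≤ 4 * n * ‖x‖ ^ 2 := by
        have : 2 * ‖x‖ ^ 2 ≤ 2 * n * ‖x‖ ^ 2 := by
          nlinarith [sq_nonneg ‖x‖]
        linarith
      have h6 : (inner ℂ x (B x) : ℂ).re / n ≤ 4 * ‖x‖ ^ 2 := by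
        rw [div_le_iff₀ hn0]
        linarith
      have h7 : 0 ≤ (inner ℂ x (B x) : ℂ).re / n := div_nonneg h4 hn0.le
      rw [abs_le]
      have h8 := sq_nonneg ‖x‖
      constructor <;> linarith
  · intro x y
    have h1 := hi x y
    rw [hTr] at h1
    have h2 := hDc x
    have e1 : (inner ℂ x (x + (1 - ((1 / n : ℝ) : ℂ) • B : H →L[ℂ] H) x) : ℂ).re =
        2 * ‖x‖ ^ 2 - (inner ℂ x (B x) : ℂ).re / n := by
      rw [inner_add_right, Complex.add_re, hZv, ando_self]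
      ring
    have e2 : (inner ℂ y (y - (1 - ((1 / n : ℝ) : ℂ) • B : H →L[ℂ] H) y) : ℂ).re =
        (inner ℂ y (B y) : ℂ).re / n := by
      rw [inner_sub_right, Complex.sub_re, hZv, ando_self]
      ring
    rw [e1, e2]
    have h3 : -(2 * ‖x‖ ^ 2) ≤ 2 * n * ‖x‖ ^ 2 - (inner ℂ x (B x) : ℂ).re +
        2 * n * (r * (inner ℂ x (T y) : ℂ).re) + (inner ℂ y (B y) : ℂ).re := by linarith
    have h4 := div_le_div_of_nonneg_right h3 hn0.le
    have e3 : (2 * n * ‖x‖ ^ 2 - (inner ℂ x (B x) : ℂ).re +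
        2 * n * (r * (inner ℂ x (T y) : ℂ).re) + (inner ℂ y (B y) : ℂ).re) / n =
        2 * ‖x‖ ^ 2 - (inner ℂ x (B x) : ℂ).re / n + 2 * r * (inner ℂ x (T y) : ℂ).re +
          (inner ℂ y (B y) : ℂ).re / n := by
      field_simp
    rw [e3, neg_div] at h4
    exact h4

end ando

/-- **Ando's theorem**, finite dimension -/
theorem t_ando (H : Type*) [NormedAddCommGroup H] [InnerProductSpace ℂ H] [CompleteSpace H]
    [FiniteDimensional ℂ H] : S_ando H := by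
  intro T hT
  have hap : ∀ m : ℕ, ∃ Z : H →L[ℂ] H, IsSelfAdjoint Z ∧ ‖Z‖ ≤ 3 ∧ ∀ x y : H,
      -(2 * ‖x‖ ^ 2 / ((m + 1 : ℕ) : ℝ)) ≤ (inner ℂ x (x + Z x) : ℂ).re +
        2 * (1 - 1 / ((m + 1 : ℕ) : ℝ)) * (inner ℂ x (T y) : ℂ).re +
        (inner ℂ y (y - Z y) : ℂ).re := by
    intro m
    have hm : (0 : ℝ) < ((m + 1 : ℕ) : ℝ) := by positivity
    have hm1 : (1 : ℝ) ≤ ((m + 1 : ℕ) : ℝ) := by
      push_cast
      linarith [Nat.cast_nonneg (α := ℝ) m]
    refine ando_approx T hT ?_ ?_ (m + 1) (Nat.succ_pos m)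
    · have : 1 / ((m + 1 : ℕ) : ℝ) ≤ 1 := by
        rw [div_le_one hm]
        exact hm1
      linarith
    · have : 0 < 1 / ((m + 1 : ℕ) : ℝ) := by positivity
      linarith
  choose Z hZs hZn hZi using hap
  have : FiniteDimensional ℂ (H →L[ℂ] H) := ContinuousLinearMap.finiteDimensional
  have : ProperSpace (H →L[ℂ] H) := FiniteDimensional.proper ℂ _
  obtain ⟨Z0, hZ0, φ, hφ, hlim⟩ := (isCompact_closedBall (0 : H →L[ℂ] H) 3).tendsto_subseq
    (x := Z) (fun m => by rw [mem_closedBall_zero_iff]; exact hZn m)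
  refine ⟨Z0, ?_, fun x y => ?_⟩
  · rw [isSelfAdjoint_iff]
    have h1 : Tendsto (fun m => star (Z (φ m))) atTop (𝓝 (star Z0)) :=
      (continuous_star.tendsto Z0).comp hlim
    have h2 : (fun m => star (Z (φ m))) = fun m => Z (φ m) := funext fun m => (hZs (φ m)).star_eq
    rw [h2] at h1
    exact tendsto_nhds_unique h1 hlim
  · have hZx : ∀ v : H, Tendsto (fun m => Z (φ m) v) atTop (𝓝 (Z0 v)) := fun v =>
      ((ContinuousLinearMap.apply ℂ H v).continuous.tendsto Z0).comp hlim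
    have hinv : Tendsto (fun m : ℕ => 1 / ((φ m + 1 : ℕ) : ℝ)) atTop (𝓝 0) := by
      have h1 : Tendsto (fun m : ℕ => 1 / ((m : ℝ) + 1)) atTop (𝓝 0) :=
        tendsto_one_div_add_atTop_nhds_zero_nat
      have h2 := h1.comp hφ.tendsto_atTop
      refine h2.congr fun m => ?_
      simp
    have hl : Tendsto (fun m : ℕ => -(2 * ‖x‖ ^ 2 / ((φ m + 1 : ℕ) : ℝ))) atTop (𝓝 0) := by
      have h1 := (hinv.const_mul (2 * ‖x‖ ^ 2)).neg
      rw [mul_zero, neg_zero] at h1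
      refine h1.congr fun m => ?_
      ring
    have hr : Tendsto (fun m : ℕ => (inner ℂ x (x + Z (φ m) x) : ℂ).re +
        2 * (1 - 1 / ((φ m + 1 : ℕ) : ℝ)) * (inner ℂ x (T y) : ℂ).re +
        (inner ℂ y (y - Z (φ m) y) : ℂ).re) atTop
        (𝓝 ((inner ℂ x (x + Z0 x) : ℂ).re + 2 * (1 - 0) * (inner ℂ x (T y) : ℂ).re +
          (inner ℂ y (y - Z0 y) : ℂ).re)) := by
      have i1 : Tendsto (fun m : ℕ => (inner ℂ x (x + Z (φ m) x) : ℂ).re) atTop
          (𝓝 ((inner ℂ x (x + Z0 x) : ℂ).re)) :=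
        (Complex.continuous_re.tendsto _).comp
          (tendsto_const_nhds.inner (tendsto_const_nhds.add (hZx x)))
      have i2 : Tendsto (fun m : ℕ => (inner ℂ y (y - Z (φ m) y) : ℂ).re) atTop
          (𝓝 ((inner ℂ y (y - Z0 y) : ℂ).re)) :=
        (Complex.continuous_re.tendsto _).comp
          (tendsto_const_nhds.inner (tendsto_const_nhds.sub (hZx y)))
      exact (i1.add (((tendsto_const_nhds.sub hinv).const_mul 2).mul_const _)).add i2
    have h := le_of_tendsto_of_tendsto' hl hr fun m => hZi (φ m) x y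
    rw [sub_zero, mul_one] at h
    exact h

end Pool.Agent.H270.QD
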