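import Pool.Agent.H270.QD.Defs

/-!
# Project QD (helper270): `S_canon` (helper825)
-/

set_option autoImplicit false

namespace Pool.Agent.H270.QD

theorem canon_unit (X : ℂ) : ∃ u : ℂ, ‖u‖ = 1 ∧ X = u * (‖X‖ : ℂ) := by
  by_cases h : X = 0
  · exact ⟨1, norm_one, by rw [h, norm_zero, Complex.ofReal_zero, mul_zero]⟩
  · have h1 : (‖X‖ : ℂ) ≠ 0 := Complex.ofReal_ne_zero.2 (norm_ne_zero_iff.2 h)
    refine ⟨X / (‖X‖ : ℂ), ?_, (div_mul_cancel₀ X h1).symm⟩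
    rw [norm_div, Complex.norm_real, norm_norm, div_self (norm_ne_zero_iff.2 h)]

theorem canon_conj {w : ℂ} (hw : ‖w‖ = 1) : (starRingEnd ℂ) w * w = 1 := by
  rw [Complex.conj_mul', hw]
  norm_num

/-- a unit vector orthogonal to `(P, Q)` -/
theorem canon_orth (P Q : ℝ) : ∃ w : ℂ, ‖w‖ = 1 ∧ P * w.re + Q * w.im = 0 := by
  obtain ⟨u, hu, hX⟩ := canon_unit ⟨Q, -P⟩
  by_cases h : (⟨Q, -P⟩ : ℂ) = 0
  · have h1 : Q = 0 := congrArg Complex.re h
    have h2 : -P = 0 := congrArg Complex.im h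
    refine ⟨1, norm_one, ?_⟩
    have h3 : P = 0 := by linarith
    rw [h1, h3]
    ring
  · refine ⟨u, hu, ?_⟩
    have hn : ‖(⟨Q, -P⟩ : ℂ)‖ ≠ 0 := norm_ne_zero_iff.2 h
    have h1 : Q = u.re * ‖(⟨Q, -P⟩ : ℂ)‖ := by
      have := congrArg Complex.re hX
      rw [Complex.re_mul_ofReal] at this
      exact this
    have h2 : -P = u.im * ‖(⟨Q, -P⟩ : ℂ)‖ := by
      have := congrArg Complex.im hX
      rw [Complex.im_mul_ofReal] at this
      exact this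
    have h3 : (P * u.re + Q * u.im) * ‖(⟨Q, -P⟩ : ℂ)‖ = 0 := by
      calc (P * u.re + Q * u.im) * ‖(⟨Q, -P⟩ : ℂ)‖
          = P * (u.re * ‖(⟨Q, -P⟩ : ℂ)‖) + Q * (u.im * ‖(⟨Q, -P⟩ : ℂ)‖) := by ring
        _ = 0 := by rw [← h1, ← h2]; ring
    rcases mul_eq_zero.1 h3 with h4 | h4
    · exact h4
    · exact absurd h4 hn

theorem canon_real (γ : ℝ) : ∃ C S : ℝ, C ^ 2 + S ^ 2 = 1 ∧ C ^ 2 - S ^ 2 + γ * (C * S) = 0 := by
  obtain ⟨r, hr⟩ : ∃ r : ℝ, r ^ 2 + γ * r - 1 = 0 := by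
    refine ⟨(-γ + Real.sqrt (γ ^ 2 + 4)) / 2, ?_⟩
    have h := Real.sq_sqrt (show 0 ≤ γ ^ 2 + 4 by positivity)
    nlinarith
  have hpos : 0 < 1 + r ^ 2 := by positivity
  have hs := Real.sq_sqrt hpos.le
  have hs0 : Real.sqrt (1 + r ^ 2) ≠ 0 := (Real.sqrt_pos.2 hpos).ne'
  refine ⟨r / Real.sqrt (1 + r ^ 2), 1 / Real.sqrt (1 + r ^ 2), ?_, ?_⟩
  · rw [div_pow, div_pow, hs, ← add_div, one_pow, add_comm (r ^ 2), div_self hpos.ne']
  · have : (r / Real.sqrt (1 + r ^ 2)) ^ 2 - (1 / Real.sqrt (1 + r ^ 2)) ^ 2 +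
        γ * (r / Real.sqrt (1 + r ^ 2) * (1 / Real.sqrt (1 + r ^ 2))) =
        (r ^ 2 + γ * r - 1) / (Real.sqrt (1 + r ^ 2)) ^ 2 := by
      field_simp
      ring
    rw [this, hr, zero_div]

theorem canon_num (b d z : ℂ) : ∃ (C S : ℝ) (w : ℂ), C ^ 2 + S ^ 2 = 1 ∧ ‖w‖ = 1 ∧
    ((C : ℂ) ^ 2 - (S : ℂ) ^ 2) * z +
      (C : ℂ) * (S : ℂ) * (w * b + (starRingEnd ℂ) w * d) = 0 := by
  by_cases hz : z = 0
  · refine ⟨1, 0, 1, by norm_num, norm_one, ?_⟩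
    rw [hz]
    simp
  · obtain ⟨w, hw, hw2⟩ := canon_orth ((b / z).im + (d / z).im) ((b / z).re - (d / z).re)
    obtain ⟨γ, hγ⟩ : ∃ γ : ℝ, w * (b / z) + (starRingEnd ℂ) w * (d / z) = (γ : ℂ) := by
      refine ⟨(w * (b / z) + (starRingEnd ℂ) w * (d / z)).re, ?_⟩
      apply Complex.ext
      · rw [Complex.ofReal_re]
      · rw [Complex.ofReal_im, Complex.add_im, Complex.mul_im, Complex.mul_im, Complex.conj_re,
          Complex.conj_im]
        linarith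
    obtain ⟨C, S, h1, h2⟩ := canon_real γ
    refine ⟨C, S, w, h1, hw, ?_⟩
    have h3 : w * b + (starRingEnd ℂ) w * d = (γ : ℂ) * z := by
      rw [← hγ]
      field_simp
    rw [h3]
    have h4 : ((C ^ 2 - S ^ 2 + γ * (C * S) : ℝ) : ℂ) = 0 := by rw [h2]; norm_num
    push_cast at h4
    linear_combination z * h4

section

variable {H : Type*} [NormedAddCommGroup H] [InnerProductSpace ℂ H]

theorem canon_inner (x e Ax Ae : H) (u1 u2 v1 v2 : ℂ) :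
    (inner ℂ (u1 • x + u2 • e) (v1 • Ax + v2 • Ae) : ℂ) =
      (starRingEnd ℂ) u1 * (v1 * inner ℂ x Ax + v2 * inner ℂ x Ae) +
        (starRingEnd ℂ) u2 * (v1 * inner ℂ e Ax + v2 * inner ℂ e Ae) := by
  simp only [inner_add_left, inner_add_right, inner_smul_left, inner_smul_right]
  ring

theorem canon_norm {f : H} (h : (inner ℂ f f : ℂ) = 1) : ‖f‖ = 1 := by
  rw [inner_self_eq_norm_sq_to_K] at h
  have h1 : ‖f‖ ^ 2 = 1 := by
    have : ((‖f‖ ^ 2 : ℝ) : ℂ) = 1 := by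
      push_cast
      exact h
    exact_mod_cast this
  exact (pow_eq_one_iff_of_nonneg (norm_nonneg f) two_ne_zero).1 h1

theorem canon_one {f : H} (h : ‖f‖ = 1) : (inner ℂ f f : ℂ) = 1 := by
  rw [inner_self_eq_norm_sq_to_K, h]
  norm_num

end

theorem t_canon (H : Type*) [NormedAddCommGroup H] [InnerProductSpace ℂ H] [CompleteSpace H] :
    S_canon H := by
  intro A x e hx he hxe
  have hxx := canon_one hx
  have hee := canon_one he
  have hex : (inner ℂ e x : ℂ) = 0 := by rw [← inner_conj_symm, hxe, map_zero]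
  obtain ⟨a, ha⟩ : ∃ a : ℂ, a = inner ℂ x (A x) := ⟨_, rfl⟩
  obtain ⟨b, hb⟩ : ∃ b : ℂ, b = inner ℂ x (A e) := ⟨_, rfl⟩
  obtain ⟨d, hd⟩ : ∃ d : ℂ, d = inner ℂ e (A x) := ⟨_, rfl⟩
  obtain ⟨g, hg⟩ : ∃ g : ℂ, g = inner ℂ e (A e) := ⟨_, rfl⟩
  obtain ⟨C, S, w, hCS', hw', hE⟩ := canon_num b d ((a - g) / 2)
  have hCS : (C : ℂ) ^ 2 + (S : ℂ) ^ 2 = 1 := by exact_mod_cast congrArg Complex.ofReal hCS'
  have hw := canon_conj hw'
  obtain ⟨cw, hcw⟩ : ∃ cw : ℂ, cw = (starRingEnd ℂ) w := ⟨_, rfl⟩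
  rw [← hcw] at hw hE
  have hcw' : (starRingEnd ℂ) cw = w := by rw [hcw, Complex.conj_conj]
  obtain ⟨X, hX⟩ : ∃ X : ℂ, X = (C : ℂ) * (-(S : ℂ) * cw * a + C * b) +
    S * cw * (-(S : ℂ) * cw * d + C * g) := ⟨_, rfl⟩
  obtain ⟨Y, hY⟩ : ∃ Y : ℂ, Y = -(S : ℂ) * w * (C * a + S * w * b) + C * (C * d + S * w * g) :=
    ⟨_, rfl⟩
  obtain ⟨ux, hux, hXu⟩ := canon_unit X
  obtain ⟨uy, huy, hYu⟩ := canon_unit Y
  obtain ⟨o, ho⟩ : ∃ o : ℂ, o ^ 2 = uy * (starRingEnd ℂ) ux :=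
    IsAlgClosed.exists_pow_nat_eq _ two_pos
  have hon : ‖o‖ = 1 := by
    have h1 : ‖o‖ ^ 2 = 1 := by
      rw [← norm_pow, ho, norm_mul, huy, Complex.norm_conj, hux, one_mul]
    exact (pow_eq_one_iff_of_nonneg (norm_nonneg o) two_ne_zero).1 h1
  have ho' := canon_conj hon
  obtain ⟨co, hco⟩ : ∃ co : ℂ, co = (starRingEnd ℂ) o := ⟨_, rfl⟩
  rw [← hco] at ho'
  have hθ : co * uy = o * ux := by
    have h1 := canon_conj hux
    calc co * uy = co * (uy * (starRingEnd ℂ) ux) * ux := by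
          linear_combination (-(co * uy)) * h1
      _ = o * ux := by
          rw [← ho]
          linear_combination (o * ux) * ho'
  -- the vectors
  obtain ⟨f, hf⟩ : ∃ f : H, f = (C : ℂ) • x + ((S : ℂ) * w) • e := ⟨_, rfl⟩
  obtain ⟨f', hf'⟩ : ∃ f' : H, f' = (-(S : ℂ) * o * cw) • x + ((C : ℂ) * o) • e := ⟨_, rfl⟩
  have hAf : A f = (C : ℂ) • A x + ((S : ℂ) * w) • A e := by
    rw [hf, map_add, map_smul, map_smul]
  have hAf' : A f' = (-(S : ℂ) * o * cw) • A x + ((C : ℂ) * o) • A e := by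
    rw [hf', map_add, map_smul, map_smul]
  have i1 : (inner ℂ f f : ℂ) = 1 := by
    rw [hf, canon_inner, hxx, hxe, hex, hee, map_mul, Complex.conj_ofReal, Complex.conj_ofReal,
      ← hcw]
    linear_combination hCS + (S : ℂ) ^ 2 * hw
  have i2 : (inner ℂ f' f' : ℂ) = 1 := by
    rw [hf', canon_inner, hxx, hxe, hex, hee, map_mul, map_mul, map_mul, map_neg,
      Complex.conj_ofReal, Complex.conj_ofReal, ← hco, hcw']
    linear_combination hCS + (S : ℂ) ^ 2 * hw +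
      ((S : ℂ) ^ 2 * cw * w + (C : ℂ) ^ 2) * ho'
  have i3 : (inner ℂ f f' : ℂ) = 0 := by
    rw [hf, hf', canon_inner, hxx, hxe, hex, hee, map_mul, Complex.conj_ofReal,
      Complex.conj_ofReal, ← hcw]
    ring
  have i3' : (inner ℂ f' f : ℂ) = 0 := by rw [← inner_conj_symm, i3, map_zero]
  have i4 : (inner ℂ f (A f) : ℂ) = (a + g) / 2 := by
    rw [hAf, hf, canon_inner, ← ha, ← hb, ← hd, ← hg, map_mul, Complex.conj_ofReal,
      Complex.conj_ofReal, ← hcw]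
    linear_combination hE + (a + g) / 2 * hCS + (S : ℂ) ^ 2 * g * hw
  have i5 : (inner ℂ f' (A f') : ℂ) = (a + g) / 2 := by
    rw [hAf', hf', canon_inner, ← ha, ← hb, ← hd, ← hg, map_mul, map_mul, map_mul, map_neg,
      Complex.conj_ofReal, Complex.conj_ofReal, ← hco, hcw']
    linear_combination (-1 : ℂ) * hE + (a + g) / 2 * hCS + (S : ℂ) ^ 2 * a * hw +
      ((S : ℂ) ^ 2 * w * cw * a - S * C * w * b - S * C * cw * d + (C : ℂ) ^ 2 * g) * ho'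
  have i6 : (inner ℂ f (A f') : ℂ) = (o * ux) * (‖X‖ : ℂ) := by
    rw [hAf', hf, canon_inner, ← ha, ← hb, ← hd, ← hg, map_mul, Complex.conj_ofReal,
      Complex.conj_ofReal, ← hcw]
    have h1 : (o * ux) * (‖X‖ : ℂ) = o * X := by
      rw [mul_assoc, ← hXu]
    rw [h1, hX]
    ring
  have i7 : (inner ℂ f' (A f) : ℂ) = (o * ux) * (‖Y‖ : ℂ) := by
    rw [hAf, hf', canon_inner, ← ha, ← hb, ← hd, ← hg, map_mul, map_mul, map_mul, map_neg,
      Complex.conj_ofReal, Complex.conj_ofReal, ← hco, hcw']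
    have h1 : (o * ux) * (‖Y‖ : ℂ) = co * Y := by
      rw [← hθ, mul_assoc, ← hYu]
    rw [h1, hY]
    ring
  have sx : x = (C : ℂ) • f + (-(S : ℂ) * w * co) • f' := by
    have k1 : (C : ℂ) * C + (-(S : ℂ) * w * co) * (-(S : ℂ) * o * cw) = 1 := by
      linear_combination hCS + (S : ℂ) ^ 2 * hw + (S : ℂ) ^ 2 * w * cw * ho'
    have k2 : (C : ℂ) * (S * w) + (-(S : ℂ) * w * co) * (C * o) = 0 := by
      linear_combination (-(C : ℂ) * S * w) * ho'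
    calc x = (1 : ℂ) • x + (0 : ℂ) • e := by rw [one_smul, zero_smul, add_zero]
      _ = (C : ℂ) • f + (-(S : ℂ) * w * co) • f' := by
          rw [← k1, ← k2, hf, hf']
          module
  have se : e = ((S : ℂ) * cw) • f + ((C : ℂ) * co) • f' := by
    have k1 : ((S : ℂ) * cw) * C + ((C : ℂ) * co) * (-(S : ℂ) * o * cw) = 0 := by
      linear_combination (-(C : ℂ) * S * cw) * ho'
    have k2 : ((S : ℂ) * cw) * (S * w) + ((C : ℂ) * co) * (C * o) = 1 := by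
      linear_combination hCS + (S : ℂ) ^ 2 * hw + (C : ℂ) ^ 2 * ho'
    calc e = (0 : ℂ) • x + (1 : ℂ) • e := by rw [one_smul, zero_smul, zero_add]
      _ = ((S : ℂ) * cw) • f + ((C : ℂ) * co) • f' := by
          rw [← k1, ← k2, hf, hf']
          module
  have hθn : ‖o * ux‖ = 1 := by rw [norm_mul, hon, hux, one_mul]
  rcases le_total ‖Y‖ ‖X‖ with h | h
  · exact ⟨f, f', o * ux, (a + g) / 2, ‖X‖, ‖Y‖, canon_norm i1, canon_norm i2, i3, hθn,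
      norm_nonneg Y, h, i4, i5, i6, i7, ⟨_, _, sx⟩, ⟨_, _, se⟩⟩
  · exact ⟨f', f, o * ux, (a + g) / 2, ‖Y‖, ‖X‖, canon_norm i2, canon_norm i1, i3', hθn,
      norm_nonneg X, h, i5, i4, i7, i6, ⟨_, _, sx.trans (add_comm _ _)⟩,
      ⟨_, _, se.trans (add_comm _ _)⟩⟩

end Pool.Agent.H270.QD
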