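import Pool.Agent.H270.QD.Defs

/-! Project QD (helper270), statement `S_club` (helper44). -/

set_option autoImplicit false

namespace Pool.Agent.H270.QD

theorem club_Q {a b c : ℝ} (h : ∀ C S : ℝ, C ^ 2 + S ^ 2 = 1 → 0 ≤ 1 - a * C - b * S ∧
    c ^ 2 * C ^ 2 ≤ (1 - a * C - b * S) ^ 2) : 0 ≤ 1 - (a + c) ^ 2 - b ^ 2 := by
  by_cases hr : (a + c) ^ 2 + b ^ 2 = 0
  · linarith
  · have hpos : 0 < (a + c) ^ 2 + b ^ 2 := lt_of_le_of_ne (by positivity) (Ne.symm hr)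
    obtain ⟨r, hr0, hr2⟩ : ∃ r : ℝ, 0 < r ∧ r ^ 2 = (a + c) ^ 2 + b ^ 2 :=
      ⟨Real.sqrt ((a + c) ^ 2 + b ^ 2), Real.sqrt_pos.mpr hpos, Real.sq_sqrt hpos.le⟩
    have hr0' : r ≠ 0 := hr0.ne'
    obtain ⟨h1, h2⟩ := h ((a + c) / r) (b / r) (by
      rw [div_pow, div_pow, ← add_div, ← hr2, div_self (by positivity)])
    have h3 := abs_le_of_sq_le_sq' (a := c * ((a + c) / r)) (by rw [mul_pow]; exact h2) h1
    have h4 : (a + c) * ((a + c) / r) + b * (b / r) ≤ 1 := by linarith [h3.2]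
    have h5 : (a + c) * ((a + c) / r) + b * (b / r) = r := by
      have h6 : (a + c) * ((a + c) / r) + b * (b / r) = ((a + c) ^ 2 + b ^ 2) / r := by
        field_simp
      rw [h6, ← hr2, pow_two, mul_div_assoc, div_self hr0', mul_one]
    rw [h5] at h4
    nlinarith

theorem club_min (a b c : ℝ) : ∃ C S : ℝ, C ^ 2 + S ^ 2 = 1 ∧ ∀ x y : ℝ, x ^ 2 + y ^ 2 = 1 →
    (1 - a * C - b * S) ^ 2 - c ^ 2 * C ^ 2 ≤ (1 - a * x - b * y) ^ 2 - c ^ 2 * x ^ 2 := by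
  have hcomp : IsCompact {p : ℝ × ℝ | p.1 ^ 2 + p.2 ^ 2 = 1} := by
    refine Metric.isCompact_of_isClosed_isBounded ?_ ?_
    · exact isClosed_eq (by fun_prop) continuous_const
    · refine (Metric.isBounded_closedBall (x := (0 : ℝ × ℝ)) (r := 1)).subset ?_
      rintro ⟨x, y⟩ h
      have h' : x ^ 2 + y ^ 2 = 1 := h
      rw [Metric.mem_closedBall, dist_zero_right, Prod.norm_def]
      refine max_le ?_ ?_
      · rw [Real.norm_eq_abs, abs_le]
        constructor <;> nlinarith [sq_nonneg y]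
      · rw [Real.norm_eq_abs, abs_le]
        constructor <;> nlinarith [sq_nonneg x]
  obtain ⟨⟨C, S⟩, h1, h2⟩ := hcomp.exists_isMinOn ⟨(1, 0), by simp⟩
    (f := fun p : ℝ × ℝ => (1 - a * p.1 - b * p.2) ^ 2 - c ^ 2 * p.1 ^ 2) (by fun_prop)
  exact ⟨C, S, h1, fun x y h => h2 (show (x, y) ∈ _ from h)⟩

theorem club_lim {α β γ δ : ℝ}
    (h : ∀ t : ℝ, 0 < t → 0 ≤ α + β * t + γ * t ^ 2 + δ * t ^ 3) : 0 ≤ α := by
  have hc : Continuous (fun t : ℝ => α + β * t + γ * t ^ 2 + δ * t ^ 3) := by fun_prop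
  have h1 : Filter.Tendsto (fun t : ℝ => α + β * t + γ * t ^ 2 + δ * t ^ 3)
      (nhdsWithin 0 (Set.Ioi 0)) (nhds (α + β * 0 + γ * 0 ^ 2 + δ * 0 ^ 3)) :=
    (hc.tendsto 0).mono_left nhdsWithin_le_nhds
  have h2 : 0 ≤ α + β * 0 + γ * 0 ^ 2 + δ * 0 ^ 3 := by
    refine ge_of_tendsto h1 ?_
    filter_upwards [self_mem_nhdsWithin] with t ht
    exact h t ht
  simpa using h2

/-- the inequality along the circle -/
theorem club_F {a b c C S : ℝ} (hCS : C ^ 2 + S ^ 2 = 1)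
    (hmin : ∀ x y : ℝ, x ^ 2 + y ^ 2 = 1 →
      (1 - a * C - b * S) ^ 2 - c ^ 2 * C ^ 2 ≤ (1 - a * x - b * y) ^ 2 - c ^ 2 * x ^ 2) (t : ℝ) :
    0 ≤ ((1 - a * C - b * S) + 2 * (a * S - b * C) * t + (2 - (1 - a * C - b * S)) * t ^ 2) ^ 2
      - c ^ 2 * (C * (1 - t ^ 2) - 2 * S * t) ^ 2
      - ((1 - a * C - b * S) ^ 2 - c ^ 2 * C ^ 2) * (1 + t ^ 2) ^ 2 := by
  have ht : (0 : ℝ) < 1 + t ^ 2 := by positivity
  have ht' : (1 + t ^ 2 : ℝ) ≠ 0 := ht.ne'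
  have h1 := hmin ((C * (1 - t ^ 2) - 2 * S * t) / (1 + t ^ 2))
    ((S * (1 - t ^ 2) + 2 * C * t) / (1 + t ^ 2)) (by
      rw [div_pow, div_pow, ← add_div, div_eq_one_iff_eq (by positivity)]
      linear_combination ((1 - t ^ 2) ^ 2 + 4 * t ^ 2) * hCS)
  have h2 : 1 - a * ((C * (1 - t ^ 2) - 2 * S * t) / (1 + t ^ 2)) -
      b * ((S * (1 - t ^ 2) + 2 * C * t) / (1 + t ^ 2)) =
      ((1 - a * C - b * S) + 2 * (a * S - b * C) * t + (2 - (1 - a * C - b * S)) * t ^ 2) /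
        (1 + t ^ 2) := by
    field_simp
    ring
  rw [h2, div_pow, div_pow] at h1
  have h3 : 0 ≤ (((1 - a * C - b * S) + 2 * (a * S - b * C) * t +
      (2 - (1 - a * C - b * S)) * t ^ 2) ^ 2 / (1 + t ^ 2) ^ 2 -
      c ^ 2 * ((C * (1 - t ^ 2) - 2 * S * t) ^ 2 / (1 + t ^ 2) ^ 2) -
      ((1 - a * C - b * S) ^ 2 - c ^ 2 * C ^ 2)) * (1 + t ^ 2) ^ 2 :=
    mul_nonneg (by linarith) (by positivity)
  have h4 : (((1 - a * C - b * S) + 2 * (a * S - b * C) * t +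
      (2 - (1 - a * C - b * S)) * t ^ 2) ^ 2 / (1 + t ^ 2) ^ 2 -
      c ^ 2 * ((C * (1 - t ^ 2) - 2 * S * t) ^ 2 / (1 + t ^ 2) ^ 2) -
      ((1 - a * C - b * S) ^ 2 - c ^ 2 * C ^ 2)) * (1 + t ^ 2) ^ 2 =
      ((1 - a * C - b * S) + 2 * (a * S - b * C) * t + (2 - (1 - a * C - b * S)) * t ^ 2) ^ 2
      - c ^ 2 * (C * (1 - t ^ 2) - 2 * S * t) ^ 2
      - ((1 - a * C - b * S) ^ 2 - c ^ 2 * C ^ 2) * (1 + t ^ 2) ^ 2 := by
    field_simp
  rw [h4] at h3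
  exact h3

/-- the conditions of first and second order -/
theorem club_ord {u D c C S : ℝ}
    (hF : ∀ t : ℝ, 0 ≤ (u + 2 * D * t + (2 - u) * t ^ 2) ^ 2
      - c ^ 2 * (C * (1 - t ^ 2) - 2 * S * t) ^ 2 - (u ^ 2 - c ^ 2 * C ^ 2) * (1 + t ^ 2) ^ 2) :
    u * D + c ^ 2 * C * S = 0 ∧
      (u * D + c ^ 2 * C * S = 0 → 0 ≤ D ^ 2 + u * (1 - u) - c ^ 2 * (S ^ 2 - C ^ 2)) := by
  have key : ∀ t : ℝ, (u + 2 * D * t + (2 - u) * t ^ 2) ^ 2
      - c ^ 2 * (C * (1 - t ^ 2) - 2 * S * t) ^ 2 - (u ^ 2 - c ^ 2 * C ^ 2) * (1 + t ^ 2) ^ 2 =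
      t * (4 * (u * D + c ^ 2 * C * S) + 4 * (D ^ 2 + u * (1 - u) - c ^ 2 * (S ^ 2 - C ^ 2)) * t +
        (4 * D * (2 - u) - 4 * c ^ 2 * C * S) * t ^ 2 +
        ((2 - u) ^ 2 - u ^ 2) * t ^ 3) := by
    intro t
    ring
  refine ⟨le_antisymm ?_ ?_, fun h0 => ?_⟩
  · have h1 : 0 ≤ -(4 * (u * D + c ^ 2 * C * S)) := by
      refine club_lim (β := 4 * (D ^ 2 + u * (1 - u) - c ^ 2 * (S ^ 2 - C ^ 2)))
        (γ := -(4 * D * (2 - u) - 4 * c ^ 2 * C * S)) (δ := (2 - u) ^ 2 - u ^ 2) ?_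
      intro t ht
      have h2 := hF (-t)
      rw [key] at h2
      have h3 : 0 ≤ t * (-(4 * (u * D + c ^ 2 * C * S)) +
        4 * (D ^ 2 + u * (1 - u) - c ^ 2 * (S ^ 2 - C ^ 2)) * t +
        -(4 * D * (2 - u) - 4 * c ^ 2 * C * S) * t ^ 2 + ((2 - u) ^ 2 - u ^ 2) * t ^ 3) := by
        refine h2.trans_eq ?_
        ring
      exact nonneg_of_mul_nonneg_right h3 ht
    linarith
  · have h1 : 0 ≤ 4 * (u * D + c ^ 2 * C * S) := by
      refine club_lim (β := 4 * (D ^ 2 + u * (1 - u) - c ^ 2 * (S ^ 2 - C ^ 2)))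
        (γ := 4 * D * (2 - u) - 4 * c ^ 2 * C * S) (δ := (2 - u) ^ 2 - u ^ 2) ?_
      intro t ht
      have h2 := hF t
      rw [key] at h2
      exact nonneg_of_mul_nonneg_right h2 ht
    linarith
  · have h1 : 0 ≤ 4 * (D ^ 2 + u * (1 - u) - c ^ 2 * (S ^ 2 - C ^ 2)) := by
      refine club_lim (β := 4 * D * (2 - u) - 4 * c ^ 2 * C * S) (γ := (2 - u) ^ 2 - u ^ 2)
        (δ := 0) ?_
      intro t ht
      have h2 := hF t
      rw [key, h0] at h2
      have h3 : 0 ≤ (t * t) * (4 * (D ^ 2 + u * (1 - u) - c ^ 2 * (S ^ 2 - C ^ 2)) +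
        (4 * D * (2 - u) - 4 * c ^ 2 * C * S) * t + ((2 - u) ^ 2 - u ^ 2) * t ^ 2 +
        0 * t ^ 3) := by
        refine h2.trans_eq ?_
        ring
      exact nonneg_of_mul_nonneg_right h3 (mul_pos ht ht)
    linarith

/-- the final inequality -/
theorem club_fin {u s P A Q : ℝ} (hu : 0 < u) (hs : 0 ≤ s) (hP : 0 ≤ P) (hsu : s ≤ u)
    (hPu : P ^ 2 ≤ u) (huP : u ^ 2 ≤ P ^ 2) (hA : A * u = P * s)
    (hQ : Q = 4 * s ^ 2 - 4 * A ^ 2 * u + A ^ 4) : 2 * s ≤ P + Real.sqrt Q := by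
  have hu1 : u ≤ 1 := by
    by_contra h
    push Not at h
    nlinarith
  have hP1 : P ≤ 1 := by
    by_contra h
    push Not at h
    nlinarith
  have hA0 : 0 ≤ A := by
    by_contra h
    push Not at h
    nlinarith [mul_nonneg hP hs, mul_neg_of_neg_of_pos h hu]
  have hAP : A ≤ P := by
    by_contra h
    push Not at h
    have h1 : P * s ≤ P * u := mul_le_mul_of_nonneg_left hsu hP
    have h2 : P * u < A * u := mul_lt_mul_of_pos_right h hu
    linarith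
  have hA1 : A ≤ 1 := hAP.trans hP1
  by_cases h2 : 2 * s ≤ P
  · linarith [Real.sqrt_nonneg Q]
  · push Not at h2
    have h3 : 2 * s - P ≤ Real.sqrt Q := by
      apply Real.le_sqrt_of_sq_le
      rw [hQ]
      have h4 : 0 ≤ A ^ 4 + 4 * (A * u) * (1 - A) - P ^ 2 := by
        by_cases h5 : 1 / 2 ≤ A
        · have h6 : 0 ≤ A * (1 - A) := mul_nonneg hA0 (by linarith)
          have h7 : A * (1 - A) * P ^ 2 ≤ A * (1 - A) * u := mul_le_mul_of_nonneg_left hPu h6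
          have h8 : P ^ 2 * (2 * A - 1) ^ 2 ≤ 1 * (2 * A - 1) ^ 2 :=
            mul_le_mul_of_nonneg_right (by nlinarith) (sq_nonneg _)
          have h9 : 0 ≤ (1 - A) ^ 2 * (A ^ 2 + 2 * A - 1) :=
            mul_nonneg (sq_nonneg _) (by nlinarith)
          nlinarith
        · push Not at h5
          have h6 : P * P ≤ P * (2 * s) := mul_le_mul_of_nonneg_left h2.le hP
          have h7 : P ^ 2 ≤ 2 * (A * u) := by nlinarith
          have h8 : P ^ 2 * (1 - A) ≤ 2 * (A * u) * (1 - A) :=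
            mul_le_mul_of_nonneg_right h7 (by linarith)
          have h9 : 0 ≤ A ^ 4 := by positivity
          nlinarith [sq_nonneg P]
      rw [hA] at h4
      nlinarith [hA]
    linarith

theorem t_club : S_club := by
  intro a b c p' hc hp hyp
  refine ⟨?_, ?_, ?_⟩
  · refine club_Q (fun C S h => ?_)
    obtain ⟨h1, h2⟩ := hyp C S h
    exact ⟨h1, by nlinarith [sq_nonneg p']⟩
  · have h0 : 0 ≤ 1 - (a + -c) ^ 2 - b ^ 2 := by
      refine club_Q (fun C S h => ?_)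
      obtain ⟨h1, h2⟩ := hyp C S h
      exact ⟨h1, by nlinarith [sq_nonneg p']⟩
    have h1 : a + -c = a - c := by ring
    rwa [h1] at h0
  · obtain ⟨C, S, hCS, hmin⟩ := club_min a b c
    obtain ⟨hu0, hm⟩ := hyp C S hCS
    have hF := club_F hCS hmin
    obtain ⟨u, hu⟩ : ∃ u : ℝ, u = 1 - a * C - b * S := ⟨_, rfl⟩
    rw [← hu] at hu0 hm hF hmin
    obtain ⟨hE1, hE3⟩ := club_ord hF
    have hE3 := hE3 hE1
    rcases hu0.eq_or_lt with hu00 | hupos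
    · have h1 : p' = 0 := by
        rw [← hu00] at hm
        have h2 : 0 ≤ c ^ 2 * C ^ 2 := by positivity
        have h3 : p' ^ 2 ≤ 0 := by nlinarith
        exact pow_eq_zero_iff (two_ne_zero) |>.mp (le_antisymm h3 (sq_nonneg _))
      rw [h1, mul_zero]
      exact add_nonneg (Real.sqrt_nonneg _) (Real.sqrt_nonneg _)
    · obtain ⟨m, hmdef⟩ : ∃ m : ℝ, m = u ^ 2 - c ^ 2 * C ^ 2 := ⟨_, rfl⟩
      have hpm : p' ^ 2 ≤ m := by linarith
      have hm0 : 0 ≤ m := (sq_nonneg _).trans hpm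
      have hP2 : m + c ^ 2 = u ^ 2 + c ^ 2 * S ^ 2 := by
        rw [hmdef]
        linear_combination (-c ^ 2) * hCS
      have ha : u * a = C * (u - (m + c ^ 2)) := by
        rw [hP2]
        linear_combination S * hE1 - u * a * hCS + u * C * hu
      have hb : u * b = S * (u - m) := by
        linear_combination (-C) * hE1 - u * b * hCS + u * S * hu + S * hmdef
      have haC : 0 ≤ a * C := by
        have h1 := hyp (-C) S (by rw [neg_sq]; exact hCS)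
        have h2 := hmin (-C) S (by rw [neg_sq]; exact hCS)
        have h3 : u ^ 2 ≤ (1 - a * (-C) - b * S) ^ 2 := by
          rw [neg_sq] at h2
          linarith
        have h4 : u ≤ 1 - a * (-C) - b * S := (sq_le_sq₀ hu0 h1.1).mp h3
        rw [hu] at h4
        linarith
      have hPu : m + c ^ 2 ≤ u := by
        by_cases hC : C = 0
        · rw [hC] at hE1 hE3 hCS hmdef
          have h1 : a * S - b * 0 = 0 := by
            have h2 : u * (a * S - b * 0) = 0 := by linarith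
            exact (mul_eq_zero.mp h2).resolve_left hupos.ne'
          rw [h1] at hE3
          have h2 : S ^ 2 = 1 := by linarith
          rw [hmdef]
          rw [h2] at hE3
          nlinarith
        · have h1 : 0 < C ^ 2 := by positivity
          have h2 : 0 ≤ C ^ 2 * (u - (m + c ^ 2)) := by
            have h3 : C ^ 2 * (u - (m + c ^ 2)) = u * (a * C) := by
              linear_combination (-C) * ha
            rw [h3]
            exact mul_nonneg hu0 haC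
          have h4 := nonneg_of_mul_nonneg_right h2 h1
          linarith
      have huP : u ^ 2 ≤ m + c ^ 2 := by
        rw [hP2]
        have : 0 ≤ c ^ 2 * S ^ 2 := by positivity
        linarith
      have hmu : m ≤ u ^ 2 := by
        rw [hmdef]
        have : 0 ≤ c ^ 2 * C ^ 2 := by positivity
        linarith
      obtain ⟨s, hs0, hs2⟩ : ∃ s : ℝ, 0 ≤ s ∧ s ^ 2 = m :=
        ⟨Real.sqrt m, Real.sqrt_nonneg _, Real.sq_sqrt hm0⟩
      obtain ⟨P, hP0, hPP⟩ : ∃ P : ℝ, 0 ≤ P ∧ P ^ 2 = m + c ^ 2 :=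
        ⟨Real.sqrt (m + c ^ 2), Real.sqrt_nonneg _, Real.sq_sqrt (by positivity)⟩
      have hA : (P * s / u) * u = P * s := div_mul_cancel₀ _ hupos.ne'
      obtain ⟨A, hAdef⟩ : ∃ A : ℝ, A = P * s / u := ⟨_, rfl⟩
      rw [← hAdef] at hA
      obtain ⟨Q, hQdef⟩ : ∃ Q : ℝ, Q = (1 - (a + c) ^ 2 - b ^ 2) * (1 - (a - c) ^ 2 - b ^ 2) :=
        ⟨_, rfl⟩
      rw [← hQdef]
      have hQ4 : u ^ 4 * Q = 4 * m * u ^ 4 - 4 * (m + c ^ 2) * m * u ^ 3 +
          (m + c ^ 2) ^ 2 * m ^ 2 := by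
        have h1 : u ^ 4 * Q = (u ^ 2 * (1 - c ^ 2) - ((u * a) ^ 2 + (u * b) ^ 2)) ^ 2 -
            4 * u ^ 2 * c ^ 2 * (u * a) ^ 2 := by
          rw [hQdef]
          ring
        have h2 : S ^ 2 = 1 - C ^ 2 := by linarith
        have h3 : (S * (u - m)) ^ 2 = (1 - C ^ 2) * (u - m) ^ 2 := by
          rw [mul_pow, h2]
        rw [h1, ha, hb, h3, hmdef]
        ring
      have hQ : Q = 4 * s ^ 2 - 4 * A ^ 2 * u + A ^ 4 := by
        have h1 : u ^ 4 * Q = u ^ 4 * (4 * s ^ 2 - 4 * A ^ 2 * u + A ^ 4) := by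
          rw [hQ4, ← hPP, ← hs2]
          have h2 : u ^ 4 * (4 * s ^ 2 - 4 * A ^ 2 * u + A ^ 4) =
              4 * s ^ 2 * u ^ 4 - 4 * (A * u) ^ 2 * u ^ 3 + (A * u) ^ 4 := by ring
          rw [h2, hA]
          ring
        exact mul_left_cancel₀ (pow_ne_zero 4 hupos.ne') h1
      have hsu : s ≤ u := (sq_le_sq₀ hs0 hu0).mp (by rw [hs2]; exact hmu)
      have hfin := club_fin hupos hs0 hP0 hsu (by rw [hPP]; exact hPu) (by rw [hPP]; exact huP)
        hA hQ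
      -- comparison of `p'` and `s`
      have hps : p' ≤ s := (sq_le_sq₀ hp hs0).mp (by rw [hs2]; exact hpm)
      obtain ⟨R, hR0, hR2⟩ : ∃ R : ℝ, 0 ≤ R ∧ R ^ 2 = p' ^ 2 + c ^ 2 :=
        ⟨Real.sqrt (p' ^ 2 + c ^ 2), Real.sqrt_nonneg _, Real.sq_sqrt (by positivity)⟩
      have hR : Real.sqrt (p' ^ 2 + c ^ 2) = R := by
        rw [← hR2, Real.sqrt_sq hR0]
      rw [hR]
      have hpR : p' ≤ R := (sq_le_sq₀ hp hR0).mp (by rw [hR2]; nlinarith [sq_nonneg c])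
      have hPR : P ≤ R + (s - p') := by
        refine (sq_le_sq₀ hP0 (by linarith)).mp ?_
        rw [hPP, ← hs2]
        nlinarith [mul_nonneg (sub_nonneg.mpr hpR) (sub_nonneg.mpr hps)]
      linarith

end Pool.Agent.H270.QD
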