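import Pool.Agent.H270.QD.Defs

/-!
# Project QD (helper270): `S_cpl` from `S_vN` (helper295)
-/

set_option autoImplicit false

open Polynomial

namespace Pool.Agent.H270.QD

theorem cpl_opn_mul {ι : Type*} [Fintype ι] [DecidableEq ι] (A B : Matrix ι ι ℂ) :
    opn (A * B) ≤ opn A * opn B := by
  unfold opn
  rw [map_mul]
  exact norm_mul_le _ _

theorem cpl_opn_smul {ι : Type*} [Fintype ι] [DecidableEq ι] (c : ℂ) (A : Matrix ι ι ℂ) :
    opn (c • A) = ‖c‖ * opn A := by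
  unfold opn
  rw [map_smul, norm_smul]

theorem cpl_opn_nonneg {ι : Type*} [Fintype ι] [DecidableEq ι] (A : Matrix ι ι ℂ) : 0 ≤ opn A :=
  norm_nonneg _

theorem cpl_opn_eq_zero {ι : Type*} [Fintype ι] [DecidableEq ι] {A : Matrix ι ι ℂ}
    (h : opn A = 0) : A = 0 := by
  unfold opn at h
  rw [norm_eq_zero] at h
  exact (map_eq_zero_iff _ (Matrix.toEuclideanCLM (n := ι) (𝕜 := ℂ)).injective).1 h

/-- the matrix `1 ⊗ S` -/
def cpl_kr (m : ℕ) {n : ℕ} (S : Matrix (Fin n) (Fin n) ℂ) :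
    Matrix (Fin m × Fin n) (Fin m × Fin n) ℂ :=
  fun a b => if a.1 = b.1 then S a.2 b.2 else 0

theorem cpl_kr_same {m n : ℕ} (S : Matrix (Fin n) (Fin n) ℂ) (i : Fin m) (j k : Fin n) :
    cpl_kr m S (i, j) (i, k) = S j k := if_pos rfl

theorem cpl_kr_ne {m n : ℕ} (S : Matrix (Fin n) (Fin n) ℂ) {i i' : Fin m} (h : i ≠ i')
    (j k : Fin n) : cpl_kr m S (i, j) (i', k) = 0 := if_neg h

theorem cpl_opn_kr (m : ℕ) {n : ℕ} (S : Matrix (Fin n) (Fin n) ℂ) :
    opn (cpl_kr m S) ≤ opn S := by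
  unfold opn
  refine ContinuousLinearMap.opNorm_le_bound _ (norm_nonneg _) fun x => ?_
  refine le_of_sq_le_sq ?_ (by positivity)
  rw [mul_pow, EuclideanSpace.norm_sq_eq, EuclideanSpace.norm_sq_eq, Fintype.sum_prod_type,
    Fintype.sum_prod_type, Finset.mul_sum]
  refine Finset.sum_le_sum fun i _ => ?_
  obtain ⟨w, hw⟩ : ∃ w : EuclideanSpace ℂ (Fin n), ∀ j, w.ofLp j = x.ofLp (i, j) :=
    ⟨WithLp.toLp 2 fun j => x.ofLp (i, j), fun j => rfl⟩
  have h1 : ∀ j, (Matrix.toEuclideanCLM (n := Fin m × Fin n) (𝕜 := ℂ) (cpl_kr m S) x).ofLp (i, j) =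
      (Matrix.toEuclideanCLM (n := Fin n) (𝕜 := ℂ) S w).ofLp j := by
    intro j
    rw [Matrix.ofLp_toEuclideanCLM, Matrix.ofLp_toEuclideanCLM]
    show ∑ c, cpl_kr m S (i, j) c * x.ofLp c = ∑ k, S j k * w.ofLp k
    rw [Fintype.sum_prod_type, Finset.sum_eq_single i]
    · refine Finset.sum_congr rfl fun k _ => ?_
      rw [hw, cpl_kr_same]
    · intro i' _ hi
      refine Finset.sum_eq_zero fun k _ => ?_
      rw [cpl_kr_ne S hi.symm, zero_mul]
    · intro h
      exact absurd (Finset.mem_univ i) h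
  have h2 : ∑ j, ‖(Matrix.toEuclideanCLM (n := Fin m × Fin n) (𝕜 := ℂ) (cpl_kr m S) x).ofLp (i, j)‖ ^ 2 =
      ‖Matrix.toEuclideanCLM (n := Fin n) (𝕜 := ℂ) S w‖ ^ 2 := by
    rw [EuclideanSpace.norm_sq_eq]
    exact Finset.sum_congr rfl fun j _ => by rw [h1]
  have h3 : ∑ j, ‖x.ofLp (i, j)‖ ^ 2 = ‖w‖ ^ 2 := by
    rw [EuclideanSpace.norm_sq_eq]
    exact Finset.sum_congr rfl fun j _ => by rw [hw]
  rw [h2, h3, ← mul_pow]
  exact pow_le_pow_left₀ (norm_nonneg _) (ContinuousLinearMap.le_opNorm _ _) 2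

theorem cpl_pow {n : ℕ} {T S R : Matrix (Fin n) (Fin n) ℂ} (hRS : R * S = 1) (k : ℕ) (hSR : S * R = 1) :
    (S * T * R) ^ k = S * T ^ k * R := by
  induction k with
  | zero => rw [pow_zero, pow_zero, mul_one, hSR]
  | succ k ih =>
    rw [pow_succ, ih, pow_succ]
    calc S * T ^ k * R * (S * T * R) = S * T ^ k * (R * S) * T * R := by
          simp only [Matrix.mul_assoc]
      _ = S * (T ^ k * T) * R := by
          rw [hRS, Matrix.mul_one]
          simp only [Matrix.mul_assoc]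

theorem cpl_aeval {n : ℕ} {T S R : Matrix (Fin n) (Fin n) ℂ} (hSR : S * R = 1) (hRS : R * S = 1)
    (p : ℂ[X]) : aeval T p = R * aeval (S * T * R) p * S := by
  rw [aeval_eq_sum_range, aeval_eq_sum_range, Matrix.mul_sum, Matrix.sum_mul]
  refine Finset.sum_congr rfl fun k _ => ?_
  rw [cpl_pow hRS k hSR, Matrix.mul_smul, Matrix.smul_mul]
  congr 1
  calc T ^ k = (R * S) * T ^ k * (R * S) := by rw [hRS, Matrix.one_mul, Matrix.mul_one]
    _ = _ := by simp only [Matrix.mul_assoc]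

theorem cpl_evalMat {m n : ℕ} (P : Matrix (Fin m) (Fin m) ℂ[X]) {T S R : Matrix (Fin n) (Fin n) ℂ}
    (hSR : S * R = 1) (hRS : R * S = 1) :
    evalMat P T = cpl_kr m R * evalMat P (S * T * R) * cpl_kr m S := by
  ext a b
  have h1 : ∀ (X : Matrix (Fin m × Fin n) (Fin m × Fin n) ℂ) (c d : Fin m × Fin n),
      (X * cpl_kr m S) c d = ∑ k, X c (d.1, k) * S k d.2 := by
    rintro X c ⟨d1, d2⟩
    rw [Matrix.mul_apply, Fintype.sum_prod_type, Finset.sum_eq_single d1]
    · refine Finset.sum_congr rfl fun k _ => ?_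
      rw [cpl_kr_same]
    · intro i _ hi
      refine Finset.sum_eq_zero fun k _ => ?_
      rw [cpl_kr_ne S hi, mul_zero]
    · intro h
      exact absurd (Finset.mem_univ _) h
  have h2 : ∀ (X : Matrix (Fin m × Fin n) (Fin m × Fin n) ℂ) (c d : Fin m × Fin n),
      (cpl_kr m R * X) c d = ∑ k, R c.2 k * X (c.1, k) d := by
    rintro X ⟨c1, c2⟩ d
    rw [Matrix.mul_apply, Fintype.sum_prod_type, Finset.sum_eq_single c1]
    · refine Finset.sum_congr rfl fun k _ => ?_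
      rw [cpl_kr_same]
    · intro i _ hi
      refine Finset.sum_eq_zero fun k _ => ?_
      rw [cpl_kr_ne R hi.symm, zero_mul]
    · intro h
      exact absurd (Finset.mem_univ _) h
  rw [h1]
  show (aeval T (P a.1 b.1)) a.2 b.2 = _
  rw [cpl_aeval hSR hRS, Matrix.mul_apply]
  refine Finset.sum_congr rfl fun k _ => ?_
  rw [h2, Matrix.mul_apply]
  rfl

theorem t_cpl (h : S_vN) : S_cpl := by
  intro m n P M r t hM hr hP T S R hSR hRS hT
  -- the contraction
  obtain ⟨T', hT', hTT⟩ : ∃ T' : Matrix (Fin n) (Fin n) ℂ, opn T' ≤ 1 ∧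
      S * (T - t • 1) * R = (r : ℂ) • T' := by
    rcases hr.eq_or_lt with h0 | h0
    · refine ⟨0, ?_, ?_⟩
      · unfold opn
        rw [map_zero, norm_zero]
        exact zero_le_one
      · rw [← h0] at hT
        rw [cpl_opn_eq_zero (le_antisymm hT (cpl_opn_nonneg _)), smul_zero]
    · refine ⟨((r : ℂ)⁻¹) • (S * (T - t • 1) * R), ?_, ?_⟩
      · rw [cpl_opn_smul, norm_inv, Complex.norm_real, Real.norm_of_nonneg hr, inv_mul_le_iff₀ h0,
          mul_one]
        exact hT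
      · rw [smul_smul, mul_inv_cancel₀ (by exact_mod_cast h0.ne'), one_smul]
  have hTT' : S * T * R = (r : ℂ) • T' + t • 1 := by
    rw [← hTT, Matrix.mul_sub, Matrix.sub_mul, Matrix.mul_smul, Matrix.mul_one, Matrix.smul_mul, hSR,
      sub_add_cancel]
  -- the new polynomials
  obtain ⟨Q, hQ⟩ : ∃ Q : Matrix (Fin m) (Fin m) ℂ[X],
      ∀ i j, Q i j = (P i j).comp (C (r : ℂ) * X + C t) := ⟨fun i j => _, fun i j => rfl⟩
  have h1 : opn (evalMat Q T') ≤ M := by
    refine h m n Q M (fun z hz => ?_) hM T' hT'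
    have h2 : Q.map (fun p => p.eval z) = P.map (fun p => p.eval ((r : ℂ) * z + t)) := by
      ext i j
      rw [Matrix.map_apply, Matrix.map_apply, hQ, eval_comp, eval_add, eval_mul, eval_C, eval_X,
        eval_C]
    rw [h2]
    apply hP
    rw [add_sub_cancel_right, norm_mul, Complex.norm_real, Real.norm_of_nonneg hr]
    calc r * ‖z‖ ≤ r * 1 := mul_le_mul_of_nonneg_left hz hr
      _ = r := mul_one r
  have h2 : evalMat Q T' = evalMat P (S * T * R) := by
    ext a b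
    show (aeval T' (Q a.1 b.1)) a.2 b.2 = (aeval (S * T * R) (P a.1 b.1)) a.2 b.2
    rw [hQ, aeval_comp, hTT']
    have h3 : aeval T' (C (r : ℂ) * X + C t) = (r : ℂ) • T' + t • (1 : Matrix (Fin n) (Fin n) ℂ) := by
      rw [map_add, map_mul, aeval_C, aeval_C, aeval_X, Algebra.algebraMap_eq_smul_one,
        Algebra.algebraMap_eq_smul_one, Matrix.smul_mul, Matrix.one_mul]
    rw [h3]
  rw [h2] at h1
  rw [cpl_evalMat P hSR hRS]
  calc opn (cpl_kr m R * evalMat P (S * T * R) * cpl_kr m S)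
      ≤ opn (cpl_kr m R) * opn (evalMat P (S * T * R)) * opn (cpl_kr m S) :=
        (cpl_opn_mul _ _).trans (mul_le_mul_of_nonneg_right (cpl_opn_mul _ _) (cpl_opn_nonneg _))
    _ ≤ opn R * M * opn S := by
        apply mul_le_mul _ (cpl_opn_kr m S) (cpl_opn_nonneg _)
          (mul_nonneg (cpl_opn_nonneg _) hM)
        exact mul_le_mul (cpl_opn_kr m R) h1 (cpl_opn_nonneg _) (cpl_opn_nonneg _)
    _ = opn S * opn R * M := by ring

end Pool.Agent.H270.QD
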