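import Pool.Agent.H270.QP.Defs

/-!
# Project QD (helper270, MP_16d611_an): scaled q-numerical ranges contained in a disc

Main theorem: if `Ω_q(A)` lies in the closed unit disc then, with `ρ = c(q) = max 1 K(q) ∈ [1,2]`,
`(2-ρ)‖Ax‖² + 2(ρ-1)|⟨x,Ax⟩| ≤ ρ` for all unit x (that is, A is in the class C_ρ of Sz.-Nagy and Foias), and
`A` is similar to a contraction by `S` with `‖S‖ ‖S⁻¹‖ ≤ ρ`. Inner products are linear in the SECOND argument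
(Mathlib). `k = 2/ρ ∈ [1,2]`.
-/

set_option autoImplicit false

open Polynomial Filter Topology

namespace Pool.Agent.H270.QD

open Pool.Agent.Helper324_QNR Pool.Agent.H270.QP

/-- `S_club`: real numbers (an inequality for ellipses in the unit disc; `(a,b)` = centre, foci `(a ± c, b)`).
PROOF. `Q1, Q2 ≥ 0`: let `r = √((a+c)²+b²)`; if r > 0 take `C = (a+c)/r, S = b/r`: from
`c²C² ≤ (1-aC-bS)²` and `1-aC-bS ≥ 0` we get `cC ≤ c|C| ≤ 1-aC-bS`, so `r = (a+c)C + bS ≤ 1`. Same for Q2 with `-c`.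
Main inequality: let `f(C,S) = (1-aC-bS)² - c²C²`, let `(C,S)` be a minimiser of f on the unit circle (compact),
`m = f(C,S) ≥ p'² ≥ 0`, `u = 1-aC-bS ≥ 0`, `P = √(m+c²)`. Since `t ↦ 2t-√(t²+c²)` is increasing on t ≥ 0 it is
enough to prove `2√m ≤ P + √(Q1 Q2)`. If u = 0 then m = -c²C² ≤ 0, so m = 0, trivial. Let u > 0.
(E1) (derivative zero along the circle, i.e. of `φ ↦ f(C cos φ - S sin φ, S cos φ + C sin φ)` at 0):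
`u(aS - bC) + c²CS = 0`. (E2) `aC + bS = 1-u`. Comparing with the points `(-C,S)`, `(C,-S)` (f ≥ m there, and
`1+aC-bS ≥ 0`...) gives `aC ≥ 0`, `bS ≥ 0`. `P² = m+c² = u²+c²S²`, `m = u²-c²C²`.
From E1, E2: `a = C(1 - P²/u)`, `b = S(1 - m/u)`. Claim `P² ≤ u`: if `C ≠ 0` then `aC = C²(1-P²/u) ≥ 0`. If
`C = 0` then a = 0, `S = ±1`, put `b' = bS = 1-u ≥ 0`; minimality against the points with `S' = σS`,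
`C'² = 1-σ²`, `σ < 1`, reads `(1-b'σ)² - c²(1-σ²) ≥ (1-b')²`, i.e. after division by `1-σ`:
`b'(2 - b'(1+σ)) ≥ c²(1+σ)`; let σ → 1: `b'(1-b') ≥ c²`, i.e. `c² ≤ u(1-u)`, so `P² = u²+c² ≤ u`.
So `u² ≤ P² ≤ u`, `u ≤ 1`, `P ≤ 1`. Direct computation (use `C²+S² = 1`):
`Q1 Q2 = (1-a²-b²-c²)² - 4a²c² = 4m - 4P²m/u + P⁴m²/u⁴`.
Let `A = P√m/u`; `√m ≤ u` so `A ≤ P ≤ 1`. If `2√m ≤ P` done. Else it is enough that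
`Q1Q2 ≥ (2√m-P)²`, i.e. `A⁴ + 4Au(1-A) - P² ≥ 0` (since `4P²m/u = 4A²u`, `4√m P = 4Au`).
If `A ≥ 1/2`: `u ≥ P²`, so it is `≥ A⁴ - P²(2A-1)² ≥ A⁴ - (2A-1)² = (1-A)²(A²+2A-1) ≥ 0`.
If `A < 1/2`: `2√m > P` gives `2Au > P²`, so `4Au(1-A) ≥ 2P²(1-A) ≥ P²`. -/
def S_club : Prop :=
  ∀ a b c p' : ℝ, 0 ≤ c → 0 ≤ p' →
    (∀ C S : ℝ, C ^ 2 + S ^ 2 = 1 → 0 ≤ 1 - a * C - b * S ∧
      p' ^ 2 + c ^ 2 * C ^ 2 ≤ (1 - a * C - b * S) ^ 2) →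
    0 ≤ 1 - (a + c) ^ 2 - b ^ 2 ∧ 0 ≤ 1 - (a - c) ^ 2 - b ^ 2 ∧
      2 * p' ≤ Real.sqrt (p' ^ 2 + c ^ 2) +
        Real.sqrt ((1 - (a + c) ^ 2 - b ^ 2) * (1 - (a - c) ^ 2 - b ^ 2))

/-- `S_num`: 2×2 matrices `[[s,x],[y,s]]` (s complex, x ≥ y ≥ 0), from `S_club`.
PROOF. Let `s = a+ib`, `c = √(xy)`, `δ = (x-y)/2`, `p = (kx+y/k)/2`, `p' = (kx-y/k)/2 ≥ 0`, so `p² = p'²+c²`.
For `ζ = C - iS`, `C²+S²=1`: `Re(ζ s) = aC+bS` and `|kζx + conj ζ y/k|² = 4p'² + 4c²C²`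
(because `k²x²+y²/k² = 4p'²+2xy` and `1+Re ζ² = 2C²`). So the hypothesis gives the hypothesis of `S_club`, and we get
(♣) `2p' ≤ p + Π`, `Π = √(Q1Q2)`, `Q1 = 1-|s+c|² ≥ 0`, `Q2 = 1-|s-c|² ≥ 0`.
If k = 1 (K = 2/k = 2): the claim is `2|⟨Bu,u⟩| ≤ 2`; this follows from the hypothesis: with `h = ⟨Bu,u⟩`, choose ζ
with `ζ h = |h|`; `|h| = Re(ζ s) + Re(ζ(x conj u1 u2 + y conj u2 u1)) ≤ Re(ζ s) + |ζ x + conj ζ y| |u1||u2| ≤ 1`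
(as `|u1||u2| ≤ 1/2`, and `ζ y conj u2 u1` has the same real part as `conj ζ y u2 conj u1`).
If 1 < k ≤ 2: let `σ = (2-k)/(2(k-1)) ≥ 0`, `ϖ = 1+σ = k/(2(k-1))`. From (♣) doubled and `(k-1)p' ≤ (k-1)p`:
`(k+3)p' ≤ (k+1)p + 2Π`, which is `2δϖ ≤ Π + 2σp'` (check: multiply by `2(k-1)`, use `x-y` in terms of p, p':
`2δ = (k+1/k)p' - (k-1/k)p`). Let |ω| = 1, `g₁ = s+c+σω`, `g₂ = s-c+σω`. Then
`ϖ²-|g_i|² = Q_i + 2σ ρ_i`, `ρ_i = 1 - Re((s±c) conj ω) ≥ 0`, and `ρ₁ρ₂ = (1-Re(s conj ω))² - c²(Re ω)² ≥ p'²`.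
By `(√(Q1Q2)+2σ√(ρ₁ρ₂))² ≤ (Q1+2σρ₁)(Q2+2σρ₂)`: `(2δϖ)² ≤ (ϖ²-|g₁|²)(ϖ²-|g₂|²)`.
Let `N = B + σω`, entries `[[g,x],[y,g]]`, `g = s+σω`. `ϖ² - N*N` is a Hermitian 2×2 matrix with
determinant `ϖ⁴ - ϖ²(2|g|²+x²+y²) + |g²-xy|²` = `(ϖ²-|g₁|²)(ϖ²-|g₂|²) - ϖ²(x-y)² ≥ 0` and trace
`2ϖ²-2|g|²-x²-y² = A₁+A₂-(x-y)²` with `A_i = ϖ²-|g_i|² ∈ [0,ϖ²]`, `ϖ²(x-y)² ≤ A₁A₂ ≤ ϖ² A₁`, so trace ≥ 0. So
`‖(B+σω)u‖² ≤ ϖ²`: `‖Bu‖² + 2σ Re(conj ω ⟨u,Bu⟩) + σ² ≤ (1+σ)²`; choose ω with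
`conj ω ⟨u,Bu⟩ = |⟨u,Bu⟩|`: `‖Bu‖² + 2σ|⟨u,Bu⟩| ≤ 1+2σ`; multiply by `2-2/k = 1/ϖ`
(`2σ/ϖ = 2(2/k - 1)`, `(1+2σ)/ϖ = 2/k`). -/
def S_num : Prop :=
  ∀ (k : ℝ) (s : ℂ) (x y : ℝ), 1 ≤ k → k ≤ 2 → 0 ≤ y → y ≤ x →
    (∀ ζ : ℂ, ‖ζ‖ = 1 →
      ‖(k : ℂ) * ζ * x + (starRingEnd ℂ) ζ * y / k‖ ≤ 2 * (1 - (ζ * s).re)) →
    ∀ u1 u2 : ℂ, ‖u1‖ ^ 2 + ‖u2‖ ^ 2 = 1 →
      (2 - 2 / k) * (‖s * u1 + x * u2‖ ^ 2 + ‖y * u1 + s * u2‖ ^ 2) +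
        2 * (2 / k - 1) * ‖(starRingEnd ℂ) u1 * (s * u1 + x * u2) +
          (starRingEnd ℂ) u2 * (y * u1 + s * u2)‖ ≤ 2 / k

section

variable (H : Type*) [NormedAddCommGroup H] [InnerProductSpace ℂ H] [CompleteSpace H]

/-- `S_canon`: a plane has an orthonormal basis in which the compression of A has constant diagonal and
off-diagonal entries of equal argument.
PROOF. Let `a=⟨x,Ax⟩, b=⟨x,Ae⟩, d=⟨e,Ax⟩, g=⟨e,Ae⟩`, `z=(a-g)/2`, `s=(a+g)/2`. For `f = c1 x + c2 e`,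
`f' = -conj c2 x + conj c1 e` (|c1|²+|c2|²=1) one has `⟨f,Af⟩ + ⟨f',Af'⟩ = a+g`, so it is enough to find a unit
`(c1,c2)` with `⟨f,Af⟩ = s`, i.e. `(|c1|²-|c2|²) z + conj c1 c2 b + conj c2 c1 d = 0`. If z = 0 take (1,0).
Otherwise divide by z: with `c1 = cos t`, `c2 = e^{iφ} sin t` we need
`cos 2t + (1/2) sin 2t (b' e^{iφ} + d' e^{-iφ}) = 0`, `b'=b/z`, `d'=d/z`. Choose φ such that
`b' e^{iφ} + d' e^{-iφ}` is real (its imaginary part changes sign under φ → φ+π; IVT or explicit), = γ, then t with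
`cos 2t + (γ/2) sin 2t = 0`. Finally replace f' by `ω f'` (|ω| = 1): `X=⟨f,Af'⟩` becomes `ωX`, `Y=⟨f',Af⟩` becomes
`conj ω Y`; choose ω such that they have the same argument, and exchange f and f' if `|X| < |Y|`. -/
def S_canon : Prop :=
  ∀ (A : H →L[ℂ] H) (x e : H), ‖x‖ = 1 → ‖e‖ = 1 → inner ℂ x e = (0 : ℂ) →
    ∃ (f1 f2 : H) (θ s : ℂ) (x0 y0 : ℝ), ‖f1‖ = 1 ∧ ‖f2‖ = 1 ∧ inner ℂ f1 f2 = (0 : ℂ) ∧ ‖θ‖ = 1 ∧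
      0 ≤ y0 ∧ y0 ≤ x0 ∧ inner ℂ f1 (A f1) = s ∧ inner ℂ f2 (A f2) = s ∧
      inner ℂ f1 (A f2) = θ * x0 ∧ inner ℂ f2 (A f1) = θ * y0 ∧
      (∃ c1 c2 : ℂ, x = c1 • f1 + c2 • f2) ∧ ∃ c1 c2 : ℂ, e = c1 • f1 + c2 • f2

/-- the angle condition with constant `(k - 1/k)/2` -/
def Angle (A : H →L[ℂ] H) (k : ℝ) : Prop :=
  ∀ u : H, ‖u‖ = 1 → ‖(inner ℂ u (A u) : ℂ)‖ +
    (k - 1 / k) / 2 * Real.sqrt (‖A u‖ ^ 2 - ‖(inner ℂ u (A u) : ℂ)‖ ^ 2) ≤ 1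

/-- `S_pos`: consequence of the angle condition in an orthonormal pair.
PROOF. Let `κ = (k-1/k)/2`, `M v = v - ζ A v`. For a unit vector `u = u1 f1 + u2 f2` and `w = -conj u2 f1 + conj u1 f2`
(unit, ⟨u,w⟩ = 0): `Re⟨u,Mu⟩ = 1 - Re(ζ⟨u,Au⟩) ≥ 1-|⟨u,Au⟩| ≥ κ√(‖Au‖²-|⟨u,Au⟩|²) ≥ κ|⟨w,Au⟩| = κ|⟨w,Mu⟩|`.
Let `Pu = k u1 f1 + k⁻¹ u2 f2`; then `Pu = α u + β w` with `α = ⟨u,Pu⟩ = k|u1|²+|u2|²/k > 0`,
`|β| = |⟨w,Pu⟩| = (k-1/k)|u1||u2| ≤ κ α` (Kantorovich; `α ≥ ...`: `2|u1||u2| ≤ k|u1|²+|u2|²/k` by AM-GM).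
So `Re⟨Pu,Mu⟩ ≥ α Re⟨u,Mu⟩ - |β||⟨w,Mu⟩| ≥ 0`. This says that for all complex u1,u2 (homogeneity)
`k(1-Re ζs)|u1|² + k⁻¹(1-Re ζs)|u2|² - Re(k ζX conj u1 u2 + k⁻¹ ζY conj u2 u1) ≥ 0`, where `X=⟨f1,Af2⟩`, `Y=⟨f2,Af1⟩`;
and `Re(k⁻¹ζY conj u2 u1) = Re(k⁻¹ conj(ζY) u2 conj u1)`. Put `u1 = 1`, `u2 = k τ`, |τ| = 1 suitable:
`2k(1-Re ζs) ≥ k |kζX + conj(ζY)/k|`. -/
def S_pos : Prop :=
  ∀ (A : H →L[ℂ] H) (k : ℝ), 1 ≤ k → Angle H A k →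
    ∀ (f1 f2 : H) (s : ℂ), ‖f1‖ = 1 → ‖f2‖ = 1 → inner ℂ f1 f2 = (0 : ℂ) →
      inner ℂ f1 (A f1) = s → inner ℂ f2 (A f2) = s → ∀ ζ : ℂ, ‖ζ‖ = 1 →
        ‖(k : ℂ) * (ζ * inner ℂ f1 (A f2)) + (starRingEnd ℂ) (ζ * inner ℂ f2 (A f1)) / k‖ ≤
          2 * (1 - (ζ * s).re)

/-- `S_two`: the pointwise inequality (class C_ρ, ρ = 2/k).
PROOF (from S_num, S_canon, S_pos). Let x be a unit vector, `a = ⟨x,Ax⟩`, `v = Ax - a x`. If `v = 0` then `‖Ax‖ = |a| ≤ 1`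
(Angle) and the claim is `(2-ρ)|a|²+2(ρ-1)|a| ≤ ρ`. Otherwise `e = v/‖v‖`, apply S_canon to x, e; then
`Ax ∈ span{x,e} ⊆ span{f1,f2}`, `x = u1 f1+u2 f2`, so with `B = θ[[s',x0],[y0,s']]`, `s' = conj θ s`:
`Ax = θ((s'u1+x0u2)f1+(y0u1+s'u2)f2)` (the components of Ax are ⟨f_i,Ax⟩). The hypothesis of S_num for `(k,s',x0,y0)` at ζ is
S_pos at `ζ conj θ`. Conclude. -/
def S_two : Prop :=
  ∀ (A : H →L[ℂ] H) (k : ℝ), 1 ≤ k → k ≤ 2 → Angle H A k →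
    ∀ x : H, ‖x‖ = 1 →
      (2 - 2 / k) * ‖A x‖ ^ 2 + 2 * (2 / k - 1) * ‖(inner ℂ x (A x) : ℂ)‖ ≤ 2 / k

/-- `S_om`: from the scaled q-range to the angle condition, `k = min (kap q) 2`, `kap q = (1+√(1-|q|²))/|q|`.
PROOF. `S_ach` (proved in `Pool.Agent.H270.QP.Up`, theorem `t_ach`) with `v = A u` gives y, ‖y‖=1, ⟨y,u⟩=q and
`|⟨y,Au⟩| = |q||⟨u,Au⟩| + √(1-|q|²)√(‖Au‖²-|⟨u,Au⟩|²)` (if HasOrth fails but |q| = 1 take `y = conj q • u`-type multiple of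
u). As `⟨y,Au⟩/q ∈ Om A q`, dividing by |q|: `|⟨u,Au⟩| + (√(1-|q|²)/|q|)√(...) ≤ 1`, and
`(kap q - 1/kap q)/2 = √(1-|q|²)/|q|`; `(k-1/k)/2` is increasing in k, so it also holds for `k = min (kap q) 2`. -/
def S_om : Prop :=
  ∀ (A : H →L[ℂ] H) (q : ℂ), 0 < ‖q‖ → ‖q‖ ≤ 1 → (‖q‖ = 1 ∨ HasOrth H) →
    (∀ z ∈ Om A q, ‖z‖ ≤ 1) → Angle H A (min (kap q) 2)

/-- the inequality defining the class C_ρ, 1 ≤ ρ ≤ 2 -/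
def Crho (ρ : ℝ) (T : H →L[ℂ] H) : Prop :=
  ∀ x : H, (2 - ρ) * ‖T x‖ ^ 2 + 2 * (ρ - 1) * ‖(inner ℂ x (T x) : ℂ)‖ ≤ ρ * ‖x‖ ^ 2

/-- `S_ando`: Ando's theorem on the numerical radius (finite dimension).
PROOF. Any proof is fine. One way: for `r < 1` and `T' = rT` the Hermitian operators `Y₀ = 2`, `Y_{n+1} = 2 - T'* Y_n⁻¹ T'`
are ≥ c > 0 and decreasing (Schur complements of the positive block Toeplitz matrices with diagonal 2 and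
off-diagonal T', positive because `2 + 2Re(ζT') ≥ 2(1-r)`), the limit Y satisfies `[[2-Y, T'*],[T', Y]] ≥ 0`; put
`Z = 1-Y` (or Y-1), then let r → 1 (compactness). Another way: the library module
`Pool.Graph.R_pool_sql_team_seeded_5cf16337.K3h28.NR.Main` has `rankOne_FinDil` (matrices T with W(T) in W(B) dilate to
I⊗B if B has RankOneFace, for instance B = [[0,2],[0,0]], whose range is the unit disc), which gives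
`T = X*(I⊗B)X = 2 X₁* X₂` with `X₁*X₁ + X₂*X₂ = 1`; take `Z = X₁*X₁ - X₂*X₂`. -/
def S_ando : Prop :=
  ∀ T : H →L[ℂ] H, (∀ x : H, ‖(inner ℂ x (T x) : ℂ)‖ ≤ ‖x‖ ^ 2) →
    ∃ Z : H →L[ℂ] H, IsSelfAdjoint Z ∧ ∀ x y : H,
      0 ≤ (inner ℂ x (x + Z x)).re + 2 * (inner ℂ x (T y)).re + (inner ℂ y (y - Z y)).re

/-- `S_fact`: a factorisation for `r T`, T in C_ρ, r < 1.
PROOF (from S_ando). If ρ = 1 then T is a contraction; Y = 0 works. Let `B = ρ - (2-ρ)r²T*T ≥ ρ(1-r²) > 0`, `D = (ρ-1) r T`. Since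
`⟨x,Bx⟩ - 2|⟨x,Dx⟩| ≥ ρ‖x‖² - r[(2-ρ)‖Tx‖²+2(ρ-1)|⟨x,Tx⟩|] ≥ 0`, the operator `C = B^{-1/2}(2D)B^{-1/2}` has numerical
radius ≤ 1. Let Z be as in S_ando for C* (or C; the roles of x and y and the sign of Z may be exchanged) and
`Y = (1/2) B^{1/2}(1-Z)B^{1/2}`, `B-Y = (1/2)B^{1/2}(1+Z)B^{1/2}`. One gets
`⟨x,(B-Y)x⟩ + 2Re⟨y,Dx⟩ + ⟨y,Yy⟩ ≥ 0` for all x, y, so `Y ≥ 0`, `Y ≤ B ≤ ρ`, and replacing y by -y this is the claim. -/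
def S_fact : Prop :=
  ∀ (ρ : ℝ) (T : H →L[ℂ] H), 1 ≤ ρ → ρ ≤ 2 → Crho H ρ T → ∀ r : ℝ, 0 ≤ r → r < 1 →
    ∃ Y : H →L[ℂ] H, IsSelfAdjoint Y ∧ (∀ x : H, 0 ≤ (inner ℂ x (Y x)).re) ∧
      (∀ x : H, (inner ℂ x (Y x)).re ≤ ρ * ‖x‖ ^ 2) ∧
      ∀ x y : H, (2 - ρ) * ‖(r : ℂ) • T x‖ ^ 2 + 2 * (ρ - 1) * (inner ℂ y ((r : ℂ) • T x)).re
          - (inner ℂ y (Y y)).re ≤ ρ * ‖x‖ ^ 2 - (inner ℂ x (Y x)).re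

/-- `S_sim0`: a new quadratic form for `r T`.
PROOF (from S_fact). If ρ = 1 take G = 1 (T is a contraction). Let ρ > 1, Y as in S_fact, `h(t) = (ρ-1)/max t (ρ-1)`,
`G = cfc (fun t => max (ρ-t) (1/ρ)) Y`, `y = h(Y) z` with `z = r T x`: the left side of S_fact is `⟨z, g(Y) z⟩` with
`g(t) = (2-ρ) + 2(ρ-1)h(t) - t h(t)²`. For `t ≤ ρ-1`: h = 1, `g = ρ-t ≥ 1 ≥ 1/ρ`. For `ρ-1 ≤ t ≤ ρ`:
`g = (2-ρ)+(ρ-1)²/t ≥ ρ-t` (as `(t-(ρ-1))² ≥ 0`) and `≥ (2-ρ)+(ρ-1)²/ρ = 1/ρ`. So `g(t) ≥ max(ρ-t,1/ρ)` on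
`[0,ρ] ⊇ spectrum Y`, hence `⟨z,Gz⟩ ≤ ⟨z,g(Y)z⟩ ≤ ⟨x,(ρ-Y)x⟩ ≤ ⟨x,Gx⟩`. In finite dimension one may use an orthonormal
eigenbasis of Y instead of cfc. -/
def S_sim0 : Prop :=
  ∀ (ρ : ℝ) (T : H →L[ℂ] H), 1 ≤ ρ → ρ ≤ 2 → Crho H ρ T → ∀ r : ℝ, 0 ≤ r → r < 1 →
    ∃ G : H →L[ℂ] H, IsSelfAdjoint G ∧ (∀ x : H, 1 / ρ * ‖x‖ ^ 2 ≤ (inner ℂ x (G x)).re) ∧
      (∀ x : H, (inner ℂ x (G x)).re ≤ ρ * ‖x‖ ^ 2) ∧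
      ∀ x : H, (inner ℂ ((r : ℂ) • T x) (G ((r : ℂ) • T x))).re ≤ (inner ℂ x (G x)).re

/-- `S_sim`: similarity to a contraction (Okubo-Ando for C_ρ), finite dimension.
PROOF (from S_sim0). The operators G of S_sim0 for `r_n = 1-1/(n+1)` satisfy `‖G‖ ≤ ρ` (self-adjoint with
`0 ≤ G ≤ ρ`); by compactness of the closed ball of radius ρ in `H →L[ℂ] H` (finite-dimensional) a subsequence converges to G with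
`1/ρ ≤ G ≤ ρ` and `⟨Tx,GTx⟩ ≤ ⟨x,Gx⟩`. Let `S = √G` (CFC.sqrt or the spectral theorem): `‖Sx‖² = ⟨x,Gx⟩`, so
`‖S‖ ≤ √ρ`, S is invertible with `‖S⁻¹‖ ≤ √ρ`, and `‖S T S⁻¹‖ ≤ 1`. -/
def S_sim : Prop :=
  ∀ (ρ : ℝ) (T : H →L[ℂ] H), 1 ≤ ρ → ρ ≤ 2 → Crho H ρ T →
    ∃ S R : H →L[ℂ] H, S * R = 1 ∧ R * S = 1 ∧ ‖S‖ ^ 2 ≤ ρ ∧ ‖R‖ ^ 2 ≤ ρ ∧ ‖S * T * R‖ ≤ 1

end

/-- operator norm (Euclidean) of a matrix with any finite index type -/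
noncomputable def opn {ι : Type*} [Fintype ι] [DecidableEq ι] (A : Matrix ι ι ℂ) : ℝ :=
  ‖Matrix.toEuclideanCLM (n := ι) (𝕜 := ℂ) A‖

/-- the block matrix `P(T)`, `P` a matrix of polynomials -/
noncomputable def evalMat {m n : ℕ} (P : Matrix (Fin m) (Fin m) ℂ[X]) (T : Matrix (Fin n) (Fin n) ℂ) :
    Matrix (Fin m × Fin n) (Fin m × Fin n) ℂ :=
  fun a b => (aeval T (P a.1 b.1)) a.2 b.2

/-- `S_vN`: von Neumann's inequality for matrices of polynomials.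
PROOF. Any proof. (a) unitary dilation: for `d` larger than all degrees there is a unitary U on `(ℂ^n)^(d+1)` whose compression to
the first summand of `U^j` is `T^j` for j ≤ d (Egervary: first column `(T, D_T,0,..)`, ...), so `P(T)` is a compression
of `P(U)`, and U is unitarily diagonalisable, so `P(U)` is unitarily equivalent to the direct sum of the `P(λ)`, |λ| = 1.
(b) maximum principle: write `T = W diag(s) V` (singular values s_i in [0,1]); as a function of each s_i the matrix is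
a polynomial, so the norm (maximum modulus) is largest when all |s_i| = 1, where T is unitary. (c) or `‖T‖ < 1` first and the
Poisson kernel `Σ_j` over the N-th roots of unity, N → ∞. -/
def S_vN : Prop :=
  ∀ (m n : ℕ) (P : Matrix (Fin m) (Fin m) ℂ[X]) (M : ℝ),
    (∀ z : ℂ, ‖z‖ ≤ 1 → opn (P.map (fun p => p.eval z)) ≤ M) → 0 ≤ M →
      ∀ T : Matrix (Fin n) (Fin n) ℂ, opn T ≤ 1 → opn (evalMat P T) ≤ M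

/-- `S_cpl`: similar matrices and matrices of polynomials, with a translation and a dilation.
PROOF (from S_vN). If r > 0 let `Q i j = (P i j).comp (C (r:ℂ) * X + C t)`, `T' = S * (r⁻¹ (T - t)) * R`, `opn T' ≤ 1`;
`evalMat P T = evalMat Q (r⁻¹(T-t))` (aeval_comp) and `(1⊗S) (evalMat Q (r⁻¹(T-t))) (1⊗R) = evalMat Q T'`
(block diagonal matrices; `opn (1⊗S) = opn S` or ≤). By S_vN `opn (evalMat Q T') ≤ M`, so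
`opn (evalMat P T) ≤ opn R * M * opn S`. If r = 0 then `S(T-t)R = 0`, T = t, and `evalMat P T = P(t) ⊗ 1`, whose norm is
`opn (P(t)) ≤ M` and `1 ≤ opn S * opn R` if n > 0 (trivial if n = 0). -/
def S_cpl : Prop :=
  ∀ (m n : ℕ) (P : Matrix (Fin m) (Fin m) ℂ[X]) (M r : ℝ) (t : ℂ), 0 ≤ M → 0 ≤ r →
    (∀ z : ℂ, ‖z - t‖ ≤ r → opn (P.map (fun p => p.eval z)) ≤ M) →
      ∀ T S R : Matrix (Fin n) (Fin n) ℂ, S * R = 1 → R * S = 1 → opn (S * (T - t • 1) * R) ≤ r →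
        opn (evalMat P T) ≤ opn S * opn R * M

end Pool.Agent.H270.QD
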