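import Pool.Agent.H270.QD.Defs

/-!
# Project QD (helper270): `S_fact` (helper236)
-/

set_option autoImplicit false

open Polynomial Filter Topology

namespace Pool.Agent.H270.QD

open Pool.Agent.Helper324_QNR Pool.Agent.H270.QP

section

variable {H : Type*} [NormedAddCommGroup H] [InnerProductSpace ℂ H] [CompleteSpace H]

theorem fact_sa {A : H →L[ℂ] H} (hA : IsSelfAdjoint A) (x y : H) :
    (inner ℂ (A x) y : ℂ) = inner ℂ x (A y) :=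
  (ContinuousLinearMap.isSelfAdjoint_iff_isSymmetric.1 hA) x y

/-- the operator `ρ - c T* T` -/
noncomputable def factB (ρ c : ℝ) (T : H →L[ℂ] H) : H →L[ℂ] H :=
  (ρ : ℂ) • (1 : H →L[ℂ] H) - (c : ℂ) • (ContinuousLinearMap.adjoint T * T)

theorem factB_inner (ρ c : ℝ) (T : H →L[ℂ] H) (x : H) :
    (inner ℂ x (factB ρ c T x) : ℂ) = ((ρ * ‖x‖ ^ 2 - c * ‖T x‖ ^ 2 : ℝ) : ℂ) := by
  have h1 : factB ρ c T x = (ρ : ℂ) • x - (c : ℂ) • (ContinuousLinearMap.adjoint T (T x)) := rfl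
  rw [h1, inner_sub_right, inner_smul_right, inner_smul_right,
    ContinuousLinearMap.adjoint_inner_right, inner_self_eq_norm_sq_to_K,
    inner_self_eq_norm_sq_to_K]
  push_cast
  rfl

theorem factB_sa (ρ c : ℝ) (T : H →L[ℂ] H) : IsSelfAdjoint (factB ρ c T) := by
  have h1 : IsSelfAdjoint (ContinuousLinearMap.adjoint T * T) := IsSelfAdjoint.star_mul_self T
  have h2 : ∀ a : ℝ, IsSelfAdjoint (a : ℂ) := fun a => Complex.conj_ofReal a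
  exact ((h2 ρ).smul (IsSelfAdjoint.one _)).sub ((h2 c).smul h1)

theorem factB_nonneg (ρ c : ℝ) (T : H →L[ℂ] H) (h : ∀ x, c * ‖T x‖ ^ 2 ≤ ρ * ‖x‖ ^ 2) :
    0 ≤ factB ρ c T := by
  rw [ContinuousLinearMap.nonneg_iff_isPositive]
  refine ⟨ContinuousLinearMap.isSelfAdjoint_iff_isSymmetric.1 (factB_sa ρ c T), fun x => ?_⟩
  have h1 : (inner ℂ (factB ρ c T x) x : ℂ) = ((ρ * ‖x‖ ^ 2 - c * ‖T x‖ ^ 2 : ℝ) : ℂ) := by
    rw [fact_sa (factB_sa ρ c T), factB_inner]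
  unfold ContinuousLinearMap.reApplyInnerSelf
  rw [h1]
  have h2 := h x
  have h3 : RCLike.re (((ρ * ‖x‖ ^ 2 - c * ‖T x‖ ^ 2 : ℝ) : ℂ)) =
      ρ * ‖x‖ ^ 2 - c * ‖T x‖ ^ 2 := Complex.ofReal_re _
  rw [h3]
  linarith

theorem factB_unit (ρ c a : ℝ) (T : H →L[ℂ] H) (ha : 0 < a)
    (h : ∀ x, a * ‖x‖ ^ 2 ≤ ρ * ‖x‖ ^ 2 - c * ‖T x‖ ^ 2) : IsUnit (factB ρ c T) := by
  refine ContinuousLinearMap.isUnit_of_forall_le_norm_inner_map _ (c := ⟨a, ha.le⟩) ha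
    fun x => ?_
  rw [fact_sa (factB_sa ρ c T), factB_inner, Complex.norm_real]
  have h1 := h x
  have h2 : ‖x‖ ^ 2 * ((⟨a, ha.le⟩ : NNReal) : ℝ) = a * ‖x‖ ^ 2 := mul_comm _ _
  exact (le_of_eq h2).trans (h1.trans (le_abs_self _))

end

theorem t_fact (H : Type*) [NormedAddCommGroup H] [InnerProductSpace ℂ H] [CompleteSpace H]
    [FiniteDimensional ℂ H] (h : S_ando H) : S_fact H := by
  intro ρ T hρ1 hρ2 hC r hr0 hr1
  have hT1 : ∀ x, (2 - ρ) * ‖T x‖ ^ 2 ≤ ρ * ‖x‖ ^ 2 := by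
    intro x
    have h1 := hC x
    have h2 : 0 ≤ 2 * (ρ - 1) * ‖(inner ℂ x (T x) : ℂ)‖ :=
      mul_nonneg (by linarith) (norm_nonneg _)
    linarith
  have hr2 : r ^ 2 ≤ r := by nlinarith
  have hr3 : r ^ 2 < 1 := by nlinarith
  have ha : 0 < ρ * (1 - r ^ 2) := mul_pos (by linarith) (by linarith)
  have hlow : ∀ x, ρ * (1 - r ^ 2) * ‖x‖ ^ 2 ≤ ρ * ‖x‖ ^ 2 - (2 - ρ) * r ^ 2 * ‖T x‖ ^ 2 := by
    intro x
    have h1 := mul_le_mul_of_nonneg_left (hT1 x) (sq_nonneg r)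
    nlinarith
  have hnn : ∀ x, (2 - ρ) * r ^ 2 * ‖T x‖ ^ 2 ≤ ρ * ‖x‖ ^ 2 := by
    intro x
    have h1 := hlow x
    have h2 : 0 ≤ ρ * (1 - r ^ 2) * ‖x‖ ^ 2 := mul_nonneg ha.le (sq_nonneg _)
    linarith
  have hB0 := factB_nonneg ρ ((2 - ρ) * r ^ 2) T hnn
  have hBu := factB_unit ρ ((2 - ρ) * r ^ 2) _ T ha hlow
  have hBi := factB_inner ρ ((2 - ρ) * r ^ 2) T
  obtain ⟨B, hBdef⟩ : ∃ B, B = factB ρ ((2 - ρ) * r ^ 2) T := ⟨_, rfl⟩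
  rw [← hBdef] at hB0 hBu hBi
  obtain ⟨u, hu⟩ := (CFC.isUnit_sqrt_iff B hB0).2 hBu
  obtain ⟨S, hS⟩ : ∃ S, S = CFC.sqrt B := ⟨_, rfl⟩
  have hSS : S * S = B := by rw [hS]; exact CFC.sqrt_mul_sqrt_self B hB0
  have hSsa : IsSelfAdjoint S := by rw [hS]; exact (CFC.sqrt_nonneg B).isSelfAdjoint
  obtain ⟨R, hR⟩ : ∃ R : H →L[ℂ] H, R = ((u⁻¹ : (H →L[ℂ] H)ˣ) : H →L[ℂ] H) := ⟨_, rfl⟩
  have hSR : S * R = 1 := by rw [hR, hS, ← hu]; exact u.mul_inv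
  have hRS : R * S = 1 := by rw [hR, hS, ← hu]; exact u.inv_mul
  have hRsa : IsSelfAdjoint R := by
    have h1 : star R * S = 1 := by
      have h2 := congrArg star hSR
      rw [star_mul, hSsa.star_eq, star_one] at h2
      exact h2
    calc star R = star R * (S * R) := by rw [hSR, mul_one]
      _ = R := by rw [← mul_assoc, h1, one_mul]
  have hRSx : ∀ x, R (S x) = x := fun x => congrArg (fun A : H →L[ℂ] H => A x) hRS
  have hSRx : ∀ x, S (R x) = x := fun x => congrArg (fun A : H →L[ℂ] H => A x) hSR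
  have hSx : ∀ x, (inner ℂ (S x) (S x) : ℂ) =
      ((ρ * ‖x‖ ^ 2 - (2 - ρ) * r ^ 2 * ‖T x‖ ^ 2 : ℝ) : ℂ) := by
    intro x
    rw [fact_sa hSsa, ← hBi x]
    congr 1
    exact congrArg (fun A : H →L[ℂ] H => A x) hSS
  obtain ⟨c, hc⟩ : ∃ c : ℝ, c = 2 * (ρ - 1) * r := ⟨_, rfl⟩
  have hc0 : 0 ≤ c := by rw [hc]; exact mul_nonneg (by linarith) hr0
  have hCi : ∀ x y, (inner ℂ x ((R * ((c : ℂ) • T) * R) y) : ℂ) =
      (c : ℂ) * inner ℂ (R x) (T (R y)) := by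
    intro x y
    have h1 : (R * ((c : ℂ) • T) * R) y = R ((c : ℂ) • T (R y)) := rfl
    rw [h1, ← fact_sa hRsa, inner_smul_right]
  have hnum : ∀ x, ‖(inner ℂ x ((R * ((c : ℂ) • T) * R) x) : ℂ)‖ ≤ ‖x‖ ^ 2 := by
    intro x
    rw [hCi, norm_mul, Complex.norm_real, Real.norm_eq_abs, abs_of_nonneg hc0]
    have h1 : ‖x‖ ^ 2 = ρ * ‖R x‖ ^ 2 - (2 - ρ) * r ^ 2 * ‖T (R x)‖ ^ 2 := by
      have h2 := congrArg Complex.re (hSx (R x))
      rw [hSRx, Complex.ofReal_re] at h2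
      rw [← h2]
      exact (inner_self_eq_norm_sq (𝕜 := ℂ) x).symm
    have h2 := mul_le_mul_of_nonneg_left (hC (R x)) hr0
    have h3 : 0 ≤ (2 - ρ) * ‖T (R x)‖ ^ 2 := mul_nonneg (by linarith) (sq_nonneg _)
    have h4 : r ^ 2 * ((2 - ρ) * ‖T (R x)‖ ^ 2) ≤ r * ((2 - ρ) * ‖T (R x)‖ ^ 2) :=
      mul_le_mul_of_nonneg_right hr2 h3
    have h5 : r * (ρ * ‖R x‖ ^ 2) ≤ 1 * (ρ * ‖R x‖ ^ 2) :=
      mul_le_mul_of_nonneg_right hr1.le (mul_nonneg (by linarith) (sq_nonneg _))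
    rw [h1, hc]
    nlinarith
  obtain ⟨Z, hZ, hZi⟩ := h _ hnum
  obtain ⟨Y, hY⟩ : ∃ Y : H →L[ℂ] H, Y = ((1 / 2 : ℝ) : ℂ) • (S * (1 + Z) * S) := ⟨_, rfl⟩
  have hYi : ∀ x, (inner ℂ x (Y x)).re = 1 / 2 * (inner ℂ (S x) (S x + Z (S x)) : ℂ).re := by
    intro x
    have h1 : Y x = ((1 / 2 : ℝ) : ℂ) • S (S x + Z (S x)) := by rw [hY]; rfl
    rw [h1, inner_smul_right, ← fact_sa hSsa, Complex.re_ofReal_mul]
  have hYm : ∀ x, (inner ℂ (S x) (S x - Z (S x)) : ℂ).re =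
      2 * (ρ * ‖x‖ ^ 2 - (2 - ρ) * r ^ 2 * ‖T x‖ ^ 2) - 2 * (inner ℂ x (Y x)).re := by
    intro x
    rw [hYi, inner_add_right, inner_sub_right, hSx, Complex.add_re, Complex.sub_re,
      Complex.ofReal_re]
    ring
  have hYsa : IsSelfAdjoint Y := by
    have h1 : IsSelfAdjoint (S * (1 + Z) * S) := by
      have h2 : IsSelfAdjoint (1 + Z) := (IsSelfAdjoint.one _).add hZ
      show star (S * (1 + Z) * S) = S * (1 + Z) * S
      rw [star_mul, star_mul, hSsa.star_eq, h2.star_eq, mul_assoc]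
    have h2 : IsSelfAdjoint ((1 / 2 : ℝ) : ℂ) := Complex.conj_ofReal _
    rw [hY]
    exact h2.smul h1
  refine ⟨Y, hYsa, ?_, ?_, ?_⟩
  · intro x
    have h1 := hZi (S x) 0
    rw [hYi]
    have h2 : (inner ℂ (S x) ((R * ((c : ℂ) • T) * R) 0) : ℂ) = 0 := by
      rw [map_zero, inner_zero_right]
    rw [h2, inner_zero_left, Complex.zero_re] at h1
    linarith
  · intro x
    have h1 := hZi 0 (S x)
    rw [inner_zero_left, inner_zero_left, Complex.zero_re, hYm] at h1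
    have h2 : 0 ≤ (2 - ρ) * r ^ 2 * ‖T x‖ ^ 2 :=
      mul_nonneg (mul_nonneg (by linarith) (sq_nonneg _)) (sq_nonneg _)
    linarith
  · intro x y
    have h1 := hZi (-(S y)) (S x)
    have h2 : (inner ℂ (-(S y)) (-(S y) + Z (-(S y))) : ℂ) = inner ℂ (S y) (S y + Z (S y)) := by
      rw [map_neg, ← neg_add, inner_neg_neg]
    have h3 : (inner ℂ (-(S y)) ((R * ((c : ℂ) • T) * R) (S x)) : ℂ).re =
        - (c * (inner ℂ y (T x) : ℂ).re) := by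
      rw [inner_neg_left, hCi, hRSx, hRSx, Complex.neg_re, Complex.re_ofReal_mul]
    rw [h2, h3, hYm] at h1
    have h4 := hYi y
    have h5 : ‖(r : ℂ) • T x‖ ^ 2 = r ^ 2 * ‖T x‖ ^ 2 := by
      rw [norm_smul, mul_pow, Complex.norm_real, Real.norm_eq_abs, sq_abs]
    have h6 : (inner ℂ y ((r : ℂ) • T x) : ℂ).re = r * (inner ℂ y (T x) : ℂ).re := by
      rw [inner_smul_right, Complex.re_ofReal_mul]
    rw [h5, h6]
    rw [hc] at h1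
    nlinarith

end Pool.Agent.H270.QD
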