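import Pool.Agent.H270.QD.Defs
import Pool.Agent.H270.QP.Main

/-!
# QD: assembly on a Hilbert space
-/

set_option autoImplicit false

open Polynomial Filter Topology

namespace Pool.Agent.H270.QD

open Pool.Agent.Helper324_QNR Pool.Agent.H270.QP

theorem kap_pos' (q : ℂ) (hq0 : 0 < ‖q‖) (hq1 : ‖q‖ ≤ 1) : 1 ≤ kap q := kap_ge q hq0 hq1

theorem rho_eq (q : ℂ) (hq0 : 0 < ‖q‖) (hq1 : ‖q‖ ≤ 1) :
    2 / min (kap q) 2 = max 1 (Kc q) := by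
  have h1 := kap_pos' q hq0 hq1
  have h2 := Kc_eq q hq0
  rcases le_total (kap q) 2 with h | h
  · rw [min_eq_left h, h2, max_eq_right]
    rw [← h2, le_div_iff₀ (by linarith)]
    linarith
  · rw [min_eq_right h, max_eq_left, div_self (by norm_num)]
    rw [← h2, div_le_iff₀ (by linarith)]
    linarith

theorem rho_ge (q : ℂ) : 1 ≤ max 1 (Kc q) := le_max_left _ _

theorem rho_le (q : ℂ) (hq0 : 0 < ‖q‖) (hq1 : ‖q‖ ≤ 1) : max 1 (Kc q) ≤ 2 := by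
  refine max_le (by norm_num) ((Kc_one_le q hq0).trans (by linarith))

section

variable {H : Type*} [NormedAddCommGroup H] [InnerProductSpace ℂ H] [CompleteSpace H]

theorem crho_of (h2 : S_two H) (ho : S_om H) (A : H →L[ℂ] H) (q : ℂ) (hq0 : 0 < ‖q‖)
    (hq1 : ‖q‖ ≤ 1) (hd : ‖q‖ = 1 ∨ HasOrth H) (h : ∀ z ∈ Om A q, ‖z‖ ≤ 1) :
    Crho H (max 1 (Kc q)) A := by
  intro x
  have hk := h2 A (min (kap q) 2) (le_min (kap_pos' q hq0 hq1) (by norm_num)) (min_le_right _ _)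
    (ho A q hq0 hq1 hd h)
  rw [rho_eq q hq0 hq1] at hk
  rcases eq_or_ne x 0 with rfl | hx
  · simp
  · have hn : 0 < ‖x‖ := norm_pos_iff.mpr hx
    have hu : ‖((‖x‖⁻¹ : ℝ) : ℂ) • x‖ = 1 := by
      rw [norm_smul, Complex.norm_real, Real.norm_of_nonneg (by positivity)]
      field_simp
    have h3 := hk _ hu
    rw [map_smul, norm_smul, Complex.norm_real, Real.norm_of_nonneg (by positivity : (0:ℝ) ≤ ‖x‖⁻¹),
      inner_smul_left, inner_smul_right, Complex.conj_ofReal, norm_mul, norm_mul, Complex.norm_real,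
      Real.norm_of_nonneg (by positivity : (0:ℝ) ≤ ‖x‖⁻¹)] at h3
    have h4 := mul_le_mul_of_nonneg_right h3 (by positivity : (0:ℝ) ≤ ‖x‖ ^ 2)
    have e1 : ((2 - max 1 (Kc q)) * (‖x‖⁻¹ * ‖A x‖) ^ 2 + 2 * (max 1 (Kc q) - 1) *
        (‖x‖⁻¹ * (‖x‖⁻¹ * ‖(inner ℂ x (A x) : ℂ)‖))) * ‖x‖ ^ 2 =
        (2 - max 1 (Kc q)) * ‖A x‖ ^ 2 + 2 * (max 1 (Kc q) - 1) * ‖(inner ℂ x (A x) : ℂ)‖ := by
      field_simp
    rw [e1] at h4
    exact h4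

/-- the normalised operator `r⁻¹ (A - t)` -/
noncomputable def nrm (A : H →L[ℂ] H) (t : ℂ) (r : ℝ) : H →L[ℂ] H :=
  ((r⁻¹ : ℝ) : ℂ) • (A - t • (1 : H →L[ℂ] H))

theorem Om_nrm (A : H →L[ℂ] H) (q t : ℂ) (r : ℝ) (hq0 : 0 < ‖q‖) (hr : 0 < r)
    (h : ∀ z ∈ Om A q, ‖z - t‖ ≤ r) : ∀ z ∈ Om (nrm A t r) q, ‖z‖ ≤ 1 := by
  rintro z ⟨x, y, hx, hy, hxy, rfl⟩
  have hq : q ≠ 0 := norm_pos_iff.mp hq0
  have h1 := h _ ⟨x, y, hx, hy, hxy, rfl⟩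
  have e1 : inner ℂ y (nrm A t r x) / q = ((r⁻¹ : ℝ) : ℂ) * (inner ℂ y (A x) / q - t) := by
    rw [nrm, ContinuousLinearMap.smul_apply, ContinuousLinearMap.sub_apply,
      ContinuousLinearMap.smul_apply, ContinuousLinearMap.one_apply, inner_smul_right,
      inner_sub_right, inner_smul_right, hxy]
    field_simp
  rw [e1, norm_mul, Complex.norm_real, Real.norm_of_nonneg (by positivity), inv_mul_le_iff₀ hr]
  linarith

theorem zero_radius (ho : S_om H) (A : H →L[ℂ] H) (q t : ℂ) (hq0 : 0 < ‖q‖)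
    (hq1 : ‖q‖ ≤ 1) (hd : ‖q‖ = 1 ∨ HasOrth H) (h : ∀ z ∈ Om A q, ‖z - t‖ ≤ 0) :
    A - t • (1 : H →L[ℂ] H) = 0 := by
  have key : ∀ u : H, ‖u‖ = 1 → (inner ℂ u ((A - t • (1 : H →L[ℂ] H)) u) : ℂ) = 0 := by
    intro u hu
    by_contra hne
    have hpos : 0 < ‖(inner ℂ u ((A - t • (1 : H →L[ℂ] H)) u) : ℂ)‖ := norm_pos_iff.mpr hne
    set w := ‖(inner ℂ u ((A - t • (1 : H →L[ℂ] H)) u) : ℂ)‖ with hw
    have h1 := ho (nrm A t (w / 2)) q hq0 hq1 hd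
      (Om_nrm A q t (w / 2) hq0 (by positivity) (fun z hz => (h z hz).trans (by positivity))) u hu
    have h2 : ‖(inner ℂ u (nrm A t (w / 2) u) : ℂ)‖ = 2 := by
      rw [nrm, ContinuousLinearMap.smul_apply, inner_smul_right, norm_mul, Complex.norm_real,
        Real.norm_of_nonneg (by positivity), ← hw]
      field_simp
    have h3 : 0 ≤ (min (kap q) 2 - 1 / min (kap q) 2) / 2 *
        Real.sqrt (‖nrm A t (w / 2) u‖ ^ 2 - ‖(inner ℂ u (nrm A t (w / 2) u) : ℂ)‖ ^ 2) := by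
      have h4 : 1 ≤ min (kap q) 2 := le_min (kap_pos' q hq0 hq1) (by norm_num)
      have h5 : 1 / min (kap q) 2 ≤ 1 := by
        rw [div_le_iff₀ (by linarith)]
        linarith
      have := Real.sqrt_nonneg
        (‖nrm A t (w / 2) u‖ ^ 2 - ‖(inner ℂ u (nrm A t (w / 2) u) : ℂ)‖ ^ 2)
      exact mul_nonneg (by linarith) this
    linarith
  have key2 : ∀ u : H, (inner ℂ ((A - t • (1 : H →L[ℂ] H)).toLinearMap u) u : ℂ) = 0 := by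
    intro u
    rcases eq_or_ne u 0 with rfl | hu
    · simp
    · have hn : 0 < ‖u‖ := norm_pos_iff.mpr hu
      have h1 := key (((‖u‖⁻¹ : ℝ) : ℂ) • u) (by
        rw [norm_smul, Complex.norm_real, Real.norm_of_nonneg (by positivity)]
        field_simp)
      rw [map_smul, inner_smul_left, inner_smul_right, mul_eq_zero, mul_eq_zero] at h1
      have h2 : ((‖u‖⁻¹ : ℝ) : ℂ) ≠ 0 := by
        exact_mod_cast (inv_pos.mpr hn).ne'
      rcases h1 with h1 | h1 | h1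
      · rw [Complex.conj_ofReal] at h1
        exact absurd h1 h2
      · exact absurd h1 h2
      · rw [← inner_conj_symm]
        exact (congrArg (starRingEnd ℂ) h1).trans (map_zero _)
  have h3 := (inner_map_self_eq_zero (A - t • (1 : H →L[ℂ] H)).toLinearMap).mp key2
  ext u
  have := LinearMap.congr_fun h3 u
  simpa using this

theorem crho_main (h2 : S_two H) (ho : S_om H) (A : H →L[ℂ] H) (q : ℂ) (hq0 : 0 < ‖q‖)
    (hq1 : ‖q‖ ≤ 1) (hd : ‖q‖ = 1 ∨ HasOrth H) (t : ℂ) (r : ℝ) (hr : 0 ≤ r)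
    (h : ∀ z ∈ Om A q, ‖z - t‖ ≤ r) (x : H) (hx : ‖x‖ = 1) :
    (2 - max 1 (Kc q)) * ‖A x - t • x‖ ^ 2 +
      2 * (max 1 (Kc q) - 1) * r * ‖(inner ℂ x (A x - t • x) : ℂ)‖ ≤ max 1 (Kc q) * r ^ 2 := by
  rcases hr.eq_or_lt with rfl | hr
  · have h0 := zero_radius ho A q t hq0 hq1 hd h
    have h1 : A x - t • x = 0 := by
      have := congrArg (fun T : H →L[ℂ] H => T x) h0
      simpa using this
    rw [h1]
    simp
  · have h1 := crho_of h2 ho (nrm A t r) q hq0 hq1 hd (Om_nrm A q t r hq0 hr h) x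
    have e1 : nrm A t r x = ((r⁻¹ : ℝ) : ℂ) • (A x - t • x) := by
      simp [nrm]
    rw [e1, norm_smul, inner_smul_right, norm_mul, Complex.norm_real,
      Real.norm_of_nonneg (by positivity), hx] at h1
    have h4 := mul_le_mul_of_nonneg_right h1 (by positivity : (0:ℝ) ≤ r ^ 2)
    have e2 : ((2 - max 1 (Kc q)) * (r⁻¹ * ‖A x - t • x‖) ^ 2 + 2 * (max 1 (Kc q) - 1) *
        (r⁻¹ * ‖(inner ℂ x (A x - t • x) : ℂ)‖)) * r ^ 2 =
        (2 - max 1 (Kc q)) * ‖A x - t • x‖ ^ 2 +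
          2 * (max 1 (Kc q) - 1) * r * ‖(inner ℂ x (A x - t • x) : ℂ)‖ := by
      field_simp
    rw [e2] at h4
    linarith

theorem sim_main [Nontrivial H] (h2 : S_two H) (ho : S_om H) (hs : S_sim H) (A : H →L[ℂ] H) (q : ℂ)
    (hq0 : 0 < ‖q‖) (hq1 : ‖q‖ ≤ 1) (hd : ‖q‖ = 1 ∨ HasOrth H) (t : ℂ) (r : ℝ) (hr : 0 ≤ r)
    (h : ∀ z ∈ Om A q, ‖z - t‖ ≤ r) :
    ∃ S R : H →L[ℂ] H, S * R = 1 ∧ R * S = 1 ∧ ‖S‖ * ‖R‖ ≤ max 1 (Kc q) ∧
      ‖S * (A - t • (1 : H →L[ℂ] H)) * R‖ ≤ r := by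
  rcases hr.eq_or_lt with rfl | hr
  · have h0 := zero_radius ho A q t hq0 hq1 hd h
    refine ⟨1, 1, by simp, by simp, ?_, ?_⟩
    · rw [norm_one, mul_one]
      exact rho_ge q
    · rw [h0]
      simp
  · have h1 := crho_of h2 ho (nrm A t r) q hq0 hq1 hd (Om_nrm A q t r hq0 hr h)
    obtain ⟨S, R, hSR, hRS, hS, hR, hT⟩ := hs (max 1 (Kc q)) (nrm A t r) (rho_ge q)
      (rho_le q hq0 hq1) h1
    refine ⟨S, R, hSR, hRS, ?_, ?_⟩
    · nlinarith [sq_nonneg (‖S‖ - ‖R‖)]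
    · have e1 : S * (A - t • (1 : H →L[ℂ] H)) * R = (r : ℂ) • (S * nrm A t r * R) := by
        rw [nrm, mul_smul_comm, smul_mul_assoc, smul_smul]
        have : (r : ℂ) * ((r⁻¹ : ℝ) : ℂ) = 1 := by
          rw [← Complex.ofReal_mul, mul_inv_cancel₀ hr.ne', Complex.ofReal_one]
        rw [this, one_smul]
      rw [e1, norm_smul, Complex.norm_real, Real.norm_of_nonneg hr.le]
      nlinarith

theorem KJ_om (hnil : S_nil H) (e f : H) (he : ‖e‖ = 1) (hf : ‖f‖ = 1)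
    (hfe : inner ℂ f e = (0 : ℂ)) (q : ℂ) (hq0 : 0 < ‖q‖) (hq1 : ‖q‖ ≤ 1) :
    ∀ z ∈ Om ((Kc q : ℂ) • J H e f) q, ‖z‖ ≤ 1 := by
  rintro z ⟨x, y, hx, hy, hxy, rfl⟩
  have h1 := hnil e f he hf hfe q hq0 hq1 _ ⟨x, y, hx, hy, hxy, rfl⟩
  rw [ContinuousLinearMap.smul_apply, inner_smul_right, mul_div_assoc, norm_mul,
    Complex.norm_real, Real.norm_of_nonneg (Kc_pos q hq0).le]
  exact h1

theorem KJ_norm (e f : H) (he : ‖e‖ = 1) (hf : ‖f‖ = 1) (q : ℂ) (hq0 : 0 < ‖q‖) :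
    Kc q ≤ ‖(Kc q : ℂ) • J H e f‖ := by
  have h3 : ‖((Kc q : ℂ) • J H e f) f‖ = Kc q := by
    rw [ContinuousLinearMap.smul_apply, norm_smul, Complex.norm_real,
      Real.norm_of_nonneg (Kc_pos q hq0).le, J, ContinuousLinearMap.smulRight_apply,
      innerSL_apply_apply, norm_smul, inner_self_eq_norm_sq_to_K, hf, he]
    simp
  have h4 := ((Kc q : ℂ) • J H e f).le_opNorm f
  rw [h3, hf, mul_one] at h4
  exact h4

theorem sharp_sim [Nontrivial H] (hnil : S_nil H) (e f : H) (he : ‖e‖ = 1) (hf : ‖f‖ = 1)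
    (hfe : inner ℂ f e = (0 : ℂ)) (q : ℂ) (hq0 : 0 < ‖q‖) (hq1 : ‖q‖ ≤ 1) (c : ℝ)
    (h : ∀ A : H →L[ℂ] H, (∀ z ∈ Om A q, ‖z‖ ≤ 1) → ∃ S R : H →L[ℂ] H, S * R = 1 ∧ R * S = 1 ∧
      ‖S‖ * ‖R‖ ≤ c ∧ ‖S * A * R‖ ≤ 1) : max 1 (Kc q) ≤ c := by
  have hgen : ∀ A : H →L[ℂ] H, (∀ z ∈ Om A q, ‖z‖ ≤ 1) → 1 ≤ c ∧ ‖A‖ ≤ c := by
    intro A hA
    obtain ⟨S, R, hSR, hRS, hc, hT⟩ := h A hA
    constructor
    · have h1 : ‖S * R‖ ≤ ‖S‖ * ‖R‖ := norm_mul_le S R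
      rw [hSR, norm_one] at h1
      linarith
    · have e1 : A = R * (S * A * R) * S := by
        calc A = (R * S) * A * (R * S) := by rw [hRS]; simp
          _ = R * (S * A * R) * S := by simp only [mul_assoc]
      calc ‖A‖ = ‖R * (S * A * R) * S‖ := by rw [← e1]
        _ ≤ ‖R * (S * A * R)‖ * ‖S‖ := norm_mul_le _ _
        _ ≤ (‖R‖ * ‖S * A * R‖) * ‖S‖ := by gcongr; exact norm_mul_le _ _
        _ ≤ (‖R‖ * 1) * ‖S‖ := by gcongr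
        _ ≤ c := by linarith
  obtain ⟨h1, h2⟩ := hgen _ (KJ_om hnil e f he hf hfe q hq0 hq1)
  exact max_le h1 ((KJ_norm e f he hf q hq0).trans h2)

theorem sharp_rho [Nontrivial H] (hs : S_sim H) (hnil : S_nil H) (e f : H) (he : ‖e‖ = 1)
    (hf : ‖f‖ = 1) (hfe : inner ℂ f e = (0 : ℂ)) (q : ℂ) (hq0 : 0 < ‖q‖) (hq1 : ‖q‖ ≤ 1) (ρ : ℝ)
    (h1 : 1 ≤ ρ) (h2 : ρ ≤ 2) (h : ∀ A : H →L[ℂ] H, (∀ z ∈ Om A q, ‖z‖ ≤ 1) → Crho H ρ A) :
    max 1 (Kc q) ≤ ρ := by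
  refine sharp_sim hnil e f he hf hfe q hq0 hq1 ρ (fun A hA => ?_)
  obtain ⟨S, R, hSR, hRS, hS, hR, hT⟩ := hs ρ A h1 h2 (h A hA)
  exact ⟨S, R, hSR, hRS, by nlinarith [sq_nonneg (‖S‖ - ‖R‖)], hT⟩

end

end Pool.Agent.H270.QD
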