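import Pool.Agent.H270.QD.Defs

/-! `S_num` from `S_club`. -/

set_option autoImplicit false

namespace Pool.Agent.H270.QD

open scoped ComplexConjugate

theorem num_le_of_sq {a b : ℝ} (h : a ^ 2 ≤ b ^ 2) (hb : 0 ≤ b) : a ≤ b :=
  le_of_abs_le (abs_le_of_sq_le_sq h hb)

theorem num_herm (α γ : ℝ) (β u1 u2 : ℂ) (h1 : 0 ≤ α + γ) (h2 : ‖β‖ ^ 2 ≤ α * γ) :
    0 ≤ α * ‖u1‖ ^ 2 + γ * ‖u2‖ ^ 2 - 2 * (β * conj u1 * u2).re := by
  have h3 : 0 ≤ α * γ := le_trans (sq_nonneg _) h2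
  have hα : 0 ≤ α := by
    by_contra hc
    push Not at hc
    have : 0 < γ := by linarith
    nlinarith
  have hγ : 0 ≤ γ := by
    by_contra hc
    push Not at hc
    have : 0 < α := by linarith
    nlinarith
  have h4 : (β * conj u1 * u2).re ≤ ‖β‖ * ‖u1‖ * ‖u2‖ := by
    refine (Complex.re_le_norm _).trans ?_
    rw [norm_mul, norm_mul, Complex.norm_conj]
  have h5 : 2 * (‖β‖ * ‖u1‖ * ‖u2‖) ≤ α * ‖u1‖ ^ 2 + γ * ‖u2‖ ^ 2 := by
    apply num_le_of_sq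
    · have h6 : (2 * (‖β‖ * ‖u1‖ * ‖u2‖)) ^ 2 = 4 * (‖β‖ ^ 2 * (‖u1‖ ^ 2 * ‖u2‖ ^ 2)) := by ring
      have h7 : ‖β‖ ^ 2 * (‖u1‖ ^ 2 * ‖u2‖ ^ 2) ≤ α * γ * (‖u1‖ ^ 2 * ‖u2‖ ^ 2) :=
        mul_le_mul_of_nonneg_right h2 (by positivity)
      have h8 : 0 ≤ (α * ‖u1‖ ^ 2 - γ * ‖u2‖ ^ 2) ^ 2 := sq_nonneg _
      rw [h6]
      nlinarith
    · positivity
  linarith

theorem num_id (g u1 u2 : ℂ) (x y w : ℝ) :
    w ^ 2 * (‖u1‖ ^ 2 + ‖u2‖ ^ 2) - (‖g * u1 + x * u2‖ ^ 2 + ‖y * u1 + g * u2‖ ^ 2) =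
      (w ^ 2 - ‖g‖ ^ 2 - y ^ 2) * ‖u1‖ ^ 2 + (w ^ 2 - ‖g‖ ^ 2 - x ^ 2) * ‖u2‖ ^ 2 -
        2 * ((conj g * x + g * y) * conj u1 * u2).re := by
  simp only [Complex.sq_norm, Complex.normSq_apply, Complex.add_re, Complex.add_im,
    Complex.mul_re, Complex.mul_im, Complex.ofReal_re, Complex.ofReal_im, Complex.conj_re,
    Complex.conj_im]
  ring

theorem num_pos (g u1 u2 : ℂ) (x y w c : ℝ) (hw : 0 < w) (hc : c ^ 2 = x * y)
    (hA1 : 0 ≤ w ^ 2 - ‖g + c‖ ^ 2) (hA2 : 0 ≤ w ^ 2 - ‖g - c‖ ^ 2)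
    (h : (w * (x - y)) ^ 2 ≤ (w ^ 2 - ‖g + c‖ ^ 2) * (w ^ 2 - ‖g - c‖ ^ 2)) :
    ‖g * u1 + x * u2‖ ^ 2 + ‖y * u1 + g * u2‖ ^ 2 ≤ w ^ 2 * (‖u1‖ ^ 2 + ‖u2‖ ^ 2) := by
  have e1 : ‖g + c‖ ^ 2 = ‖g‖ ^ 2 + c ^ 2 + 2 * c * g.re := by
    simp only [Complex.sq_norm, Complex.normSq_apply, Complex.add_re, Complex.add_im,
      Complex.ofReal_re, Complex.ofReal_im]
    ring
  have e2 : ‖g - c‖ ^ 2 = ‖g‖ ^ 2 + c ^ 2 - 2 * c * g.re := by
    simp only [Complex.sq_norm, Complex.normSq_apply, Complex.sub_re, Complex.sub_im,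
      Complex.ofReal_re, Complex.ofReal_im]
    ring
  have e3 : ‖g‖ ^ 2 = g.re ^ 2 + g.im ^ 2 := by
    simp only [Complex.sq_norm, Complex.normSq_apply]
    ring
  have e4 : ‖conj g * x + g * y‖ ^ 2 = (g.re ^ 2 + g.im ^ 2) * (x ^ 2 + y ^ 2) +
      2 * (x * y) * (g.re ^ 2 - g.im ^ 2) := by
    simp only [Complex.sq_norm, Complex.normSq_apply, Complex.add_re, Complex.add_im,
      Complex.mul_re, Complex.mul_im, Complex.ofReal_re, Complex.ofReal_im, Complex.conj_re,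
      Complex.conj_im]
    ring
  have hA2' : w ^ 2 - ‖g - c‖ ^ 2 ≤ w ^ 2 := by
    have := sq_nonneg ‖g - c‖
    linarith
  have h5 : (x - y) ^ 2 ≤ w ^ 2 - ‖g + c‖ ^ 2 := by
    have h6 : (w ^ 2 - ‖g + c‖ ^ 2) * (w ^ 2 - ‖g - c‖ ^ 2) ≤ (w ^ 2 - ‖g + c‖ ^ 2) * w ^ 2 :=
      mul_le_mul_of_nonneg_left hA2' hA1
    have h7 : w ^ 2 * (x - y) ^ 2 ≤ w ^ 2 * (w ^ 2 - ‖g + c‖ ^ 2) := by
      have h8 : (w * (x - y)) ^ 2 = w ^ 2 * (x - y) ^ 2 := by ring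
      linarith
    exact le_of_mul_le_mul_left h7 (by positivity)
  have hH := num_herm (w ^ 2 - ‖g‖ ^ 2 - y ^ 2) (w ^ 2 - ‖g‖ ^ 2 - x ^ 2) (conj g * x + g * y) u1 u2
    (by
      rw [e1] at h5
      rw [e2] at hA2
      nlinarith) (by
      rw [e4]
      rw [e1, e2, hc, e3] at h
      rw [e3]
      have h9 : (w ^ 2 - (g.re ^ 2 + g.im ^ 2 + x * y + 2 * c * g.re)) *
          (w ^ 2 - (g.re ^ 2 + g.im ^ 2 + x * y - 2 * c * g.re)) =
          (w ^ 2 - (g.re ^ 2 + g.im ^ 2 + x * y)) ^ 2 - 4 * (x * y) * g.re ^ 2 := by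
        linear_combination -4 * g.re ^ 2 * hc
      rw [h9] at h
      nlinarith)
  rw [← num_id] at hH
  linarith

theorem num_cs (Q1 Q2 r1 r2 σ p' P D : ℝ) (hQ1 : 0 ≤ Q1) (hQ2 : 0 ≤ Q2) (hr1 : 0 ≤ r1)
    (hr2 : 0 ≤ r2) (hσ : 0 ≤ σ) (_hp : 0 ≤ p') (_hP : 0 ≤ P) (hPQ : P ^ 2 = Q1 * Q2)
    (hpr : p' ^ 2 ≤ r1 * r2) (hD : 0 ≤ D) (hDP : D ≤ P + 2 * σ * p') :
    D ^ 2 ≤ (Q1 + 2 * σ * r1) * (Q2 + 2 * σ * r2) := by
  have key : 2 * (P * p') ≤ Q1 * r2 + Q2 * r1 := by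
    apply num_le_of_sq
    · have h1 : (2 * (P * p')) ^ 2 = 4 * ((Q1 * Q2) * p' ^ 2) := by rw [← hPQ]; ring
      have h2 : (Q1 * Q2) * p' ^ 2 ≤ (Q1 * Q2) * (r1 * r2) :=
        mul_le_mul_of_nonneg_left hpr (mul_nonneg hQ1 hQ2)
      have h3 : 0 ≤ (Q1 * r2 - Q2 * r1) ^ 2 := sq_nonneg _
      rw [h1]
      nlinarith
    · positivity
  have h4 : D ^ 2 ≤ (P + 2 * σ * p') ^ 2 := pow_le_pow_left₀ hD hDP 2
  have h5 : 2 * σ * (2 * (P * p')) ≤ 2 * σ * (Q1 * r2 + Q2 * r1) :=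
    mul_le_mul_of_nonneg_left key (by positivity)
  have h6 : 4 * σ ^ 2 * p' ^ 2 ≤ 4 * σ ^ 2 * (r1 * r2) :=
    mul_le_mul_of_nonneg_left hpr (by positivity)
  nlinarith

theorem num_dir (h0 : ℂ) : ∃ ω : ℂ, ‖ω‖ = 1 ∧ (conj ω * h0).re = ‖h0‖ := by
  by_cases h : h0 = 0
  · exact ⟨1, by simp, by simp [h]⟩
  · have hn : ‖h0‖ ≠ 0 := norm_ne_zero_iff.2 h
    have hnc : ((‖h0‖ : ℝ) : ℂ) ≠ 0 := by exact_mod_cast hn
    refine ⟨h0 / ‖h0‖, ?_, ?_⟩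
    · rw [norm_div, Complex.norm_real, norm_norm, div_self hn]
    · have h1 : conj (h0 / (‖h0‖ : ℂ)) * h0 = ((‖h0‖ : ℝ) : ℂ) := by
        rw [map_div₀, Complex.conj_ofReal, div_mul_eq_mul_div, div_eq_iff hnc, mul_comm,
          Complex.mul_conj, Complex.normSq_eq_norm_sq]
        push_cast
        ring
      rw [h1, Complex.ofReal_re]

theorem num_club (k : ℝ) (s : ℂ) (x y : ℝ) (hk : 1 ≤ k) (hy : 0 ≤ y) (hxy : y ≤ x)
    (hyp : ∀ ζ : ℂ, ‖ζ‖ = 1 → ‖(k : ℂ) * ζ * x + conj ζ * y / k‖ ≤ 2 * (1 - (ζ * s).re))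
    (C S : ℝ) (hCS : C ^ 2 + S ^ 2 = 1) : 0 ≤ 1 - s.re * C - s.im * S ∧
      ((k * x - y / k) / 2) ^ 2 + Real.sqrt (x * y) ^ 2 * C ^ 2 ≤
        (1 - s.re * C - s.im * S) ^ 2 := by
  have hk0 : k ≠ 0 := by linarith
  have hx : 0 ≤ x := hy.trans hxy
  have hζ : ‖(⟨C, -S⟩ : ℂ)‖ = 1 := by
    have h1 : ‖(⟨C, -S⟩ : ℂ)‖ ^ 2 = 1 := by
      rw [Complex.sq_norm, Complex.normSq_mk]
      linarith
    have h2 : 0 ≤ ‖(⟨C, -S⟩ : ℂ)‖ := norm_nonneg _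
    nlinarith
  have h := hyp ⟨C, -S⟩ hζ
  have e1 : ((⟨C, -S⟩ : ℂ) * s).re = s.re * C + s.im * S := by
    simp only [Complex.mul_re]
    ring
  rw [e1] at h
  have e2 : ‖(k : ℂ) * ⟨C, -S⟩ * x + conj (⟨C, -S⟩ : ℂ) * y / k‖ ^ 2 =
      4 * (((k * x - y / k) / 2) ^ 2 + x * y * C ^ 2) := by
    have e3 : conj (⟨C, -S⟩ : ℂ) * y / k = conj (⟨C, -S⟩ : ℂ) * y * ((k⁻¹ : ℝ) : ℂ) := by
      push_cast
      rw [div_eq_mul_inv]
    rw [e3]
    simp only [Complex.sq_norm, Complex.normSq_apply, Complex.add_re, Complex.add_im,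
      Complex.mul_re, Complex.mul_im, Complex.ofReal_re, Complex.ofReal_im, Complex.conj_re,
      Complex.conj_im]
    have hS : S ^ 2 = 1 - C ^ 2 := by linarith
    have hkk : k * k⁻¹ = 1 := mul_inv_cancel₀ hk0
    have e4 : (4 : ℝ) * (((k * x - y / k) / 2) ^ 2 + x * y * C ^ 2) =
        (k * x - y * k⁻¹) ^ 2 + 4 * (x * y * C ^ 2) := by
      rw [div_eq_mul_inv y k]
      ring
    rw [e4]
    linear_combination (k * x - y * k⁻¹) ^ 2 * hS + 4 * x * y * C ^ 2 * hkk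
  have h0 : 0 ≤ 2 * (1 - (s.re * C + s.im * S)) := (norm_nonneg _).trans h
  refine ⟨by linarith, ?_⟩
  have h5 := pow_le_pow_left₀ (norm_nonneg _) h 2
  rw [e2] at h5
  rw [Real.sq_sqrt (mul_nonneg hx hy)]
  nlinarith

theorem num_one (s : ℂ) (x y : ℝ)
    (hyp : ∀ ζ : ℂ, ‖ζ‖ = 1 → ‖ζ * x + conj ζ * y‖ ≤ 2 * (1 - (ζ * s).re))
    (u1 u2 : ℂ) (hu : ‖u1‖ ^ 2 + ‖u2‖ ^ 2 = 1) :
    ‖conj u1 * (s * u1 + x * u2) + conj u2 * (y * u1 + s * u2)‖ ≤ 1 := by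
  obtain ⟨ω, hω, hωh⟩ := num_dir (conj u1 * (s * u1 + x * u2) + conj u2 * (y * u1 + s * u2))
  rw [← hωh]
  have e1 : (conj ω * (conj u1 * (s * u1 + x * u2) + conj u2 * (y * u1 + s * u2))).re =
      (conj ω * s).re * (‖u1‖ ^ 2 + ‖u2‖ ^ 2) +
        ((conj ω * x + conj (conj ω) * y) * (conj u1 * u2)).re := by
    simp only [Complex.sq_norm, Complex.normSq_apply, Complex.add_re, Complex.add_im,
      Complex.mul_re, Complex.mul_im, Complex.ofReal_re, Complex.ofReal_im, Complex.conj_re,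
      Complex.conj_im]
    ring
  rw [e1, hu, mul_one]
  have h1 := hyp (conj ω) (by rw [Complex.norm_conj]; exact hω)
  have h2 : ((conj ω * x + conj (conj ω) * y) * (conj u1 * u2)).re ≤
      ‖conj ω * x + conj (conj ω) * y‖ * (‖u1‖ * ‖u2‖) := by
    refine (Complex.re_le_norm _).trans ?_
    rw [norm_mul, norm_mul (conj u1), Complex.norm_conj]
  have h3 : ‖u1‖ * ‖u2‖ ≤ 1 / 2 := by nlinarith [sq_nonneg (‖u1‖ - ‖u2‖)]
  have h4 : ‖conj ω * x + conj (conj ω) * y‖ * (‖u1‖ * ‖u2‖) ≤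
      ‖conj ω * x + conj (conj ω) * y‖ * (1 / 2) :=
    mul_le_mul_of_nonneg_left h3 (norm_nonneg _)
  linarith

theorem t_num (h : S_club) : S_num := by
  intro k s x y hk hk2 hy hxy hyp u1 u2 hu
  have hk0 : 0 < k := by linarith
  have hx : 0 ≤ x := hy.trans hxy
  set c : ℝ := Real.sqrt (x * y) with hc
  have hcsq : c ^ 2 = x * y := Real.sq_sqrt (mul_nonneg hx hy)
  set p' : ℝ := (k * x - y / k) / 2 with hp'
  have hp0 : 0 ≤ p' := by
    have h1 : y / k ≤ y := div_le_self hy hk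
    have h2 : x ≤ k * x := le_mul_of_one_le_left hx hk
    rw [hp']
    linarith
  have hclub : ∀ C S : ℝ, C ^ 2 + S ^ 2 = 1 → 0 ≤ 1 - s.re * C - s.im * S ∧
      p' ^ 2 + c ^ 2 * C ^ 2 ≤ (1 - s.re * C - s.im * S) ^ 2 :=
    fun C S hCS => num_club k s x y hk hy hxy hyp C S hCS
  obtain ⟨hQ1, hQ2, hmain⟩ := h s.re s.im c p' (Real.sqrt_nonneg _) hp0 hclub
  rcases eq_or_lt_of_le hk with h1 | h1
  · have h2 := num_one s x y (fun ζ hζ => by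
      have := hyp ζ hζ
      rw [← h1] at this
      simpa using this) u1 u2 hu
    rw [← h1]
    have h3 : (2 - 2 / (1 : ℝ)) = 0 := by norm_num
    have h4 : (2 / (1 : ℝ) - 1) = 1 := by norm_num
    rw [h3, h4]
    linarith
  · obtain ⟨ω, hω, hωh⟩ := num_dir (conj u1 * (s * u1 + x * u2) + conj u2 * (y * u1 + s * u2))
    set σ : ℝ := (2 - k) / (2 * (k - 1)) with hσ
    have hk1 : 0 < k - 1 := by linarith
    have hσ0 : 0 ≤ σ := div_nonneg (by linarith) (by linarith)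
    have hw : 1 + σ = k / (2 * (k - 1)) := by
      rw [hσ]
      field_simp
      ring
    have hω2 : ω.re ^ 2 + ω.im ^ 2 = 1 := by
      have h2 : ‖ω‖ ^ 2 = ω.re ^ 2 + ω.im ^ 2 := by
        rw [Complex.sq_norm, Complex.normSq_apply]
        ring
      rw [← h2, hω]
      norm_num
    obtain ⟨hr0, hr⟩ := hclub ω.re ω.im hω2
    -- the two factors
    have hA1 : (1 + σ) ^ 2 - ‖s + σ * ω + c‖ ^ 2 = (1 - (s.re + c) ^ 2 - s.im ^ 2) +
        2 * σ * (1 - s.re * ω.re - s.im * ω.im - c * ω.re) := by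
      simp only [Complex.sq_norm, Complex.normSq_apply, Complex.add_re, Complex.add_im,
        Complex.mul_re, Complex.mul_im, Complex.ofReal_re, Complex.ofReal_im]
      linear_combination -σ ^ 2 * hω2
    have hA2 : (1 + σ) ^ 2 - ‖s + σ * ω - c‖ ^ 2 = (1 - (s.re - c) ^ 2 - s.im ^ 2) +
        2 * σ * (1 - s.re * ω.re - s.im * ω.im + c * ω.re) := by
      simp only [Complex.sq_norm, Complex.normSq_apply, Complex.add_re, Complex.add_im,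
        Complex.sub_re, Complex.sub_im, Complex.mul_re, Complex.mul_im, Complex.ofReal_re,
        Complex.ofReal_im]
      linear_combination -σ ^ 2 * hω2
    have hr1 : 0 ≤ 1 - s.re * ω.re - s.im * ω.im - c * ω.re := by
      nlinarith [sq_nonneg (s.re + c - ω.re), sq_nonneg (s.im - ω.im)]
    have hr2 : 0 ≤ 1 - s.re * ω.re - s.im * ω.im + c * ω.re := by
      nlinarith [sq_nonneg (s.re - c - ω.re), sq_nonneg (s.im - ω.im)]
    set P : ℝ := Real.sqrt ((1 - (s.re + c) ^ 2 - s.im ^ 2) * (1 - (s.re - c) ^ 2 - s.im ^ 2))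
      with hP
    have hPsq : P ^ 2 = (1 - (s.re + c) ^ 2 - s.im ^ 2) * (1 - (s.re - c) ^ 2 - s.im ^ 2) :=
      Real.sq_sqrt (mul_nonneg hQ1 hQ2)
    set p : ℝ := (k * x + y / k) / 2 with hp
    have hpp : Real.sqrt (p' ^ 2 + c ^ 2) = p := by
      have h2 : p' ^ 2 + c ^ 2 = p ^ 2 := by
        rw [hcsq, hp, hp']
        field_simp
        ring
      rw [h2]
      exact Real.sqrt_sq (by positivity)
    rw [hpp] at hmain
    have hpp' : p' ≤ p := by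
      rw [hp, hp']
      have : 0 ≤ y / k := div_nonneg hy hk0.le
      linarith
    have hx' : k * x = p + p' := by rw [hp, hp']; ring
    have hy' : y = k * (p - p') := by
      rw [hp, hp']
      field_simp
      ring
    have hD : (1 + σ) * (x - y) ≤ P + 2 * σ * p' := by
      have h3 : 2 * (k - 1) * ((1 + σ) * (x - y)) ≤ 2 * (k - 1) * (P + 2 * σ * p') := by
        have h4 : 2 * (k - 1) * ((1 + σ) * (x - y)) = k * x - k * y := by
          rw [hw]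
          field_simp
        have h5 : 2 * (k - 1) * (P + 2 * σ * p') = 2 * (k - 1) * P + 2 * (2 - k) * p' := by
          rw [hσ]
          field_simp
        rw [h4, h5, hx']
        have h6 : k * y = k ^ 2 * (p - p') := by
          rw [hy']
          ring
        rw [h6]
        have h7 : (k - 1) * (2 * (2 * p')) ≤ (k - 1) * (2 * (p + P)) :=
          mul_le_mul_of_nonneg_left (by linarith) hk1.le
        have h8 : (k - 1) * ((k - 1) * p') ≤ (k - 1) * ((k - 1) * p) :=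
          mul_le_mul_of_nonneg_left (mul_le_mul_of_nonneg_left hpp' hk1.le) hk1.le
        nlinarith
      exact le_of_mul_le_mul_left h3 (by positivity)
    have hcs := num_cs _ _ _ _ σ p' P ((1 + σ) * (x - y)) hQ1 hQ2 hr1 hr2 hσ0 hp0
      (Real.sqrt_nonneg _) hPsq (by nlinarith) (mul_nonneg (by linarith) (by linarith)) hD
    rw [← hA1, ← hA2] at hcs
    have hfin := num_pos (s + σ * ω) u1 u2 x y (1 + σ) c (by linarith) hcsq (by
      rw [hA1]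
      positivity) (by
      rw [hA2]
      positivity) hcs
    rw [hu, mul_one] at hfin
    have hexp : ‖(s + σ * ω) * u1 + x * u2‖ ^ 2 + ‖y * u1 + (s + σ * ω) * u2‖ ^ 2 =
        (‖s * u1 + x * u2‖ ^ 2 + ‖y * u1 + s * u2‖ ^ 2) +
          2 * σ * (conj ω * (conj u1 * (s * u1 + x * u2) + conj u2 * (y * u1 + s * u2))).re +
            σ ^ 2 * ((ω.re ^ 2 + ω.im ^ 2) * (‖u1‖ ^ 2 + ‖u2‖ ^ 2)) := by
      simp only [Complex.sq_norm, Complex.normSq_apply, Complex.add_re, Complex.add_im,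
        Complex.mul_re, Complex.mul_im, Complex.ofReal_re, Complex.ofReal_im, Complex.conj_re,
        Complex.conj_im]
      ring
    rw [hexp, hωh, hω2, hu] at hfin
    have hkk : 0 ≤ 2 - 2 / k := by
      have : 2 / k ≤ 2 := div_le_self (by norm_num) hk
      linarith
    have hfin' : (‖s * u1 + x * u2‖ ^ 2 + ‖y * u1 + s * u2‖ ^ 2) +
        2 * σ * ‖conj u1 * (s * u1 + x * u2) + conj u2 * (y * u1 + s * u2)‖ ≤ 1 + 2 * σ := by
      linarith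
    have h9 := mul_le_mul_of_nonneg_left hfin' hkk
    have e5 : (2 - 2 / k) * (2 * σ) = 2 * (2 / k - 1) := by
      rw [hσ]
      field_simp
    have e6 : (2 - 2 / k) * (1 + 2 * σ) = 2 / k := by
      rw [hσ]
      field_simp
      ring
    rw [e6, mul_add, ← mul_assoc, e5] at h9
    exact h9

end Pool.Agent.H270.QD
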