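import Pool.Agent.H270.QD.Defs
import Pool.Agent.H270.QP.Up

/-!
# Project QD, leaf om: the scaled q-range in the disc implies the angle condition (helper268)
-/

set_option autoImplicit false

namespace Pool.Agent.H270.QD

open Pool.Agent.Helper324_QNR Pool.Agent.H270.QP

theorem om_kap (q : ℂ) (hq0 : 0 < ‖q‖) (hq1 : ‖q‖ ≤ 1) :
    (kap q - 1 / kap q) / 2 = Real.sqrt (1 - ‖q‖ ^ 2) / ‖q‖ := by
  have hs := Real.sq_sqrt (show (0 : ℝ) ≤ 1 - ‖q‖ ^ 2 by nlinarith)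
  have hs0 := Real.sqrt_nonneg (1 - ‖q‖ ^ 2)
  set s := Real.sqrt (1 - ‖q‖ ^ 2) with hsd
  have h1 : 1 / kap q = (1 - s) / ‖q‖ := by
    rw [kap, ← hsd, one_div_div, div_eq_div_iff (by positivity) (by positivity)]
    nlinarith
  rw [h1, kap, ← hsd]
  field_simp
  ring

theorem om_self {H : Type*} [NormedAddCommGroup H] [InnerProductSpace ℂ H] {x : H} (hx : ‖x‖ = 1) :
    inner ℂ x x = (1 : ℂ) := by
  rw [inner_self_eq_norm_sq_to_K, hx]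
  simp

theorem t_om (H : Type*) [NormedAddCommGroup H] [InnerProductSpace ℂ H] [CompleteSpace H] : S_om H := by
  intro A q hq0 hq1 hd hOm u hu
  have hs0 := Real.sqrt_nonneg (1 - ‖q‖ ^ 2)
  have hR0 := Real.sqrt_nonneg (‖A u‖ ^ 2 - ‖(inner ℂ u (A u) : ℂ)‖ ^ 2)
  have hqne : q ≠ 0 := norm_pos_iff.1 hq0
  have key : ‖q‖ * ‖(inner ℂ u (A u) : ℂ)‖
      + Real.sqrt (1 - ‖q‖ ^ 2) * Real.sqrt (‖A u‖ ^ 2 - ‖(inner ℂ u (A u) : ℂ)‖ ^ 2) ≤ ‖q‖ := by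
    rcases hd with hd | hd
    · have h1 : ‖(inner ℂ u (A u) : ℂ)‖ ≤ 1 := by
        apply hOm
        refine ⟨u, (starRingEnd ℂ) q • u, hu, ?_, ?_, ?_⟩
        · rw [norm_smul, RCLike.norm_conj, hd, hu, mul_one]
        · rw [inner_smul_left, Complex.conj_conj, om_self hu, mul_one]
        · rw [inner_smul_left, Complex.conj_conj, mul_div_cancel_left₀ _ hqne]
      rw [hd, one_pow, sub_self, Real.sqrt_zero, zero_mul, add_zero, one_mul]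
      exact h1
    · obtain ⟨y, hy, hyu, hyA⟩ := t_ach H hd u (A u) hu q hq1
      rw [← hyA]
      have h1 : ‖(inner ℂ y (A u) / q : ℂ)‖ ≤ 1 := hOm _ ⟨u, y, hu, hy, hyu, rfl⟩
      rw [norm_div, div_le_one hq0] at h1
      exact h1
  have hk1 := kap_ge q hq0 hq1
  have hk : min (kap q) 2 ≤ kap q := min_le_left _ _
  have hk0 : 1 ≤ min (kap q) 2 := le_min hk1 (by norm_num)
  have hmono : (min (kap q) 2 - 1 / min (kap q) 2) / 2 ≤ (kap q - 1 / kap q) / 2 := by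
    have h1 : 1 / kap q ≤ 1 / min (kap q) 2 := one_div_le_one_div_of_le (by linarith) hk
    linarith
  rw [om_kap q hq0 hq1] at hmono
  have h2 : (min (kap q) 2 - 1 / min (kap q) 2) / 2 * Real.sqrt (‖A u‖ ^ 2 - ‖(inner ℂ u (A u) : ℂ)‖ ^ 2) ≤
      Real.sqrt (1 - ‖q‖ ^ 2) / ‖q‖ * Real.sqrt (‖A u‖ ^ 2 - ‖(inner ℂ u (A u) : ℂ)‖ ^ 2) :=
    mul_le_mul_of_nonneg_right hmono hR0
  have h3 : ‖(inner ℂ u (A u) : ℂ)‖ + Real.sqrt (1 - ‖q‖ ^ 2) / ‖q‖ *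
      Real.sqrt (‖A u‖ ^ 2 - ‖(inner ℂ u (A u) : ℂ)‖ ^ 2) ≤ 1 := by
    rw [← mul_le_mul_iff_right₀ hq0]
    refine le_trans (le_of_eq ?_) (key.trans (le_of_eq (mul_one _).symm))
    field_simp
  linarith

end Pool.Agent.H270.QD
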