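import Pool.Agent.H270.QD.Defs

/-!
# Project QD, part Pos (helper703): consequence of the angle condition in an orthonormal pair
-/

set_option autoImplicit false

open Filter Topology ComplexConjugate

namespace Pool.Agent.H270.QD

/-- homogeneous form of the angle condition -/
theorem pos_angle {H : Type*} [NormedAddCommGroup H] [InnerProductSpace ℂ H] [CompleteSpace H]
    {A : H →L[ℂ] H} {k : ℝ} (hk : 1 ≤ k) (hA : Angle H A k) {v : H} (hv : 0 < ‖v‖) {b : ℝ}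
    (hb : b ^ 2 ≤ ‖v‖ ^ 2 * ‖A v‖ ^ 2 - ‖(inner ℂ v (A v) : ℂ)‖ ^ 2) :
    ‖(inner ℂ v (A v) : ℂ)‖ + (k - 1 / k) / 2 * b ≤ ‖v‖ ^ 2 := by
  set n := ‖v‖ with hn
  have hκ : 0 ≤ (k - 1 / k) / 2 := by
    have h1 : 1 / k ≤ 1 := by
      rw [div_le_one (by linarith)]
      exact hk
    linarith
  have hu : ‖((n⁻¹ : ℝ) : ℂ) • v‖ = 1 := by
    rw [norm_smul, Complex.norm_real, Real.norm_eq_abs, abs_of_pos (inv_pos.2 hv), ← hn]
    exact inv_mul_cancel₀ hv.ne'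
  have h1 := hA _ hu
  have h2 : ‖(inner ℂ (((n⁻¹ : ℝ) : ℂ) • v) (A (((n⁻¹ : ℝ) : ℂ) • v)) : ℂ)‖ =
      ‖(inner ℂ v (A v) : ℂ)‖ / n ^ 2 := by
    rw [map_smul, inner_smul_left, inner_smul_right, norm_mul, norm_mul, RCLike.norm_conj,
      Complex.norm_real, Real.norm_eq_abs, abs_of_pos (inv_pos.2 hv)]
    field_simp
  have h3 : ‖A (((n⁻¹ : ℝ) : ℂ) • v)‖ ^ 2 = ‖A v‖ ^ 2 / n ^ 2 := by
    rw [map_smul, norm_smul, Complex.norm_real, Real.norm_eq_abs, abs_of_pos (inv_pos.2 hv)]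
    field_simp
  rw [h2, h3] at h1
  have h4 : b / n ^ 2 ≤
      Real.sqrt (‖A v‖ ^ 2 / n ^ 2 - (‖(inner ℂ v (A v) : ℂ)‖ / n ^ 2) ^ 2) := by
    apply Real.le_sqrt_of_sq_le
    have hn2 : 0 < n ^ 2 := by positivity
    have h5 : ‖A v‖ ^ 2 / n ^ 2 - (‖(inner ℂ v (A v) : ℂ)‖ / n ^ 2) ^ 2 =
        (n ^ 2 * ‖A v‖ ^ 2 - ‖(inner ℂ v (A v) : ℂ)‖ ^ 2) / (n ^ 2) ^ 2 := by
      field_simp
    rw [h5, div_pow]
    exact div_le_div_of_nonneg_right hb (by positivity)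
  have h6 : ‖(inner ℂ v (A v) : ℂ)‖ / n ^ 2 + (k - 1 / k) / 2 * (b / n ^ 2) ≤ 1 :=
    (add_le_add_right (mul_le_mul_of_nonneg_left h4 hκ) _).trans h1
  have h7 : (‖(inner ℂ v (A v) : ℂ)‖ + (k - 1 / k) / 2 * b) / n ^ 2 ≤ 1 := by
    refine le_trans (le_of_eq ?_) h6
    ring
  rwa [div_le_one (by positivity)] at h7

/-- Bessel's inequality for two vectors -/
theorem pos_bessel {H : Type*} [NormedAddCommGroup H] [InnerProductSpace ℂ H]
    {f1 f2 : H} (h1 : ‖f1‖ = 1) (h2 : ‖f2‖ = 1) (h12 : inner ℂ f1 f2 = (0 : ℂ)) (z : H) :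
    ‖(inner ℂ f1 z : ℂ)‖ ^ 2 + ‖(inner ℂ f2 z : ℂ)‖ ^ 2 ≤ ‖z‖ ^ 2 := by
  have ho : Orthonormal ℂ ![f1, f2] := by
    refine ⟨fun i => ?_, fun i j hij => ?_⟩
    · fin_cases i
      · exact h1
      · exact h2
    · fin_cases i <;> fin_cases j
      · exact absurd rfl hij
      · exact h12
      · show inner ℂ f2 f1 = (0 : ℂ)
        rw [← inner_conj_symm, h12, map_zero]
      · exact absurd rfl hij
  have h := ho.sum_inner_products_le z (s := Finset.univ)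
  rw [Fin.sum_univ_two] at h
  exact h

/-- a unit number turning `Z` to the positive axis -/
theorem pos_turn (Z : ℂ) : ∃ τ : ℂ, ‖τ‖ = 1 ∧ τ * Z = (‖Z‖ : ℂ) := by
  by_cases hZ : Z = 0
  · exact ⟨1, norm_one, by rw [hZ]; simp⟩
  · have hZ' : (‖Z‖ : ℂ) ≠ 0 := by exact_mod_cast norm_ne_zero_iff.2 hZ
    refine ⟨conj Z / (‖Z‖ : ℂ), ?_, ?_⟩
    · rw [norm_div, RCLike.norm_conj, Complex.norm_real, norm_norm,
        div_self (norm_ne_zero_iff.2 hZ)]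
    · rw [div_mul_eq_mul_div, div_eq_iff hZ', mul_comm, Complex.mul_conj, Complex.normSq_eq_norm_sq]
      push_cast
      ring

/-- a rotation preserves the sum of squares -/
theorem pos_rot (k : ℝ) (τ p r : ℂ) (hτ : ‖τ‖ = 1) :
    ‖p + (k : ℂ) * conj τ * r‖ ^ 2 + ‖r - (k : ℂ) * τ * p‖ ^ 2 =
      (1 + k ^ 2) * (‖p‖ ^ 2 + ‖r‖ ^ 2) := by
  have h : τ.re ^ 2 + τ.im ^ 2 = 1 := by
    have h1 : ‖τ‖ ^ 2 = 1 := by rw [hτ, one_pow]
    rw [Complex.sq_norm, Complex.normSq_apply] at h1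
    linarith
  rw [Complex.sq_norm, Complex.sq_norm, Complex.sq_norm, Complex.sq_norm, Complex.normSq_apply,
    Complex.normSq_apply, Complex.normSq_apply, Complex.normSq_apply]
  simp only [Complex.add_re, Complex.add_im, Complex.sub_re, Complex.sub_im, Complex.mul_re,
    Complex.mul_im, Complex.ofReal_re, Complex.ofReal_im, Complex.conj_re, Complex.conj_im]
  linear_combination (k ^ 2 * (p.re ^ 2 + p.im ^ 2 + r.re ^ 2 + r.im ^ 2)) * h

theorem t_pos (H : Type*) [NormedAddCommGroup H] [InnerProductSpace ℂ H] [CompleteSpace H] :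
    S_pos H := by
  intro A k hk hA f1 f2 s h1 h2 h12 hs1 hs2 ζ hζ
  have hk0 : 0 < k := by linarith
  set X : ℂ := inner ℂ f1 (A f2) with hX
  set Y : ℂ := inner ℂ f2 (A f1) with hY
  set Z : ℂ := (k : ℂ) * (ζ * X) + conj (ζ * Y) / k with hZ
  obtain ⟨τ, hτ, hτZ⟩ := pos_turn Z
  have hττ : conj τ * τ = 1 := by
    rw [mul_comm, Complex.mul_conj, Complex.normSq_eq_norm_sq, hτ]
    simp
  set v : H := f1 + ((k : ℂ) * τ) • f2 with hv
  have hvn : ‖v‖ ^ 2 = 1 + k ^ 2 := by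
    rw [hv, norm_add_sq (𝕜 := ℂ), inner_smul_right, h12, mul_zero, h1, norm_smul, norm_mul, hτ,
      h2, Complex.norm_real, Real.norm_eq_abs, mul_one, mul_one, sq_abs]
    simp
  have hv0 : 0 < ‖v‖ := by
    by_contra hcon
    have h0 : ‖v‖ = 0 := le_antisymm (not_lt.1 hcon) (norm_nonneg _)
    rw [h0] at hvn
    nlinarith [sq_nonneg k]
  set p : ℂ := inner ℂ f1 (A v) with hp
  set r : ℂ := inner ℂ f2 (A v) with hr
  have hp' : p = s + k * τ * X := by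
    rw [hp, hv, map_add, map_smul, inner_add_right, inner_smul_right, hs1]
  have hr' : r = Y + k * τ * s := by
    rw [hr, hv, map_add, map_smul, inner_add_right, inner_smul_right, hs2]
  have ha : (inner ℂ v (A v) : ℂ) = p + (k : ℂ) * conj τ * r := by
    have e : (inner ℂ v (A v) : ℂ) = inner ℂ f1 (A v) + inner ℂ (((k : ℂ) * τ) • f2) (A v) := by
      rw [← inner_add_left]
    rw [e, inner_smul_left, map_mul, Complex.conj_ofReal]
  set a : ℂ := p + (k : ℂ) * conj τ * r with hadef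
  set b : ℂ := r - (k : ℂ) * τ * p with hbdef
  have hrot := pos_rot k τ p r hτ
  have hbes := pos_bessel h1 h2 h12 (A v)
  have hb : ‖b‖ ^ 2 ≤ ‖v‖ ^ 2 * ‖A v‖ ^ 2 - ‖(inner ℂ v (A v) : ℂ)‖ ^ 2 := by
    rw [ha, hvn]
    have h3 : (1 + k ^ 2) * (‖p‖ ^ 2 + ‖r‖ ^ 2) ≤ (1 + k ^ 2) * ‖A v‖ ^ 2 :=
      mul_le_mul_of_nonneg_left hbes (by positivity)
    linarith
  have hang := pos_angle hk hA hv0 hb
  rw [ha, hvn] at hang
  -- the combination
  have hc : ((1 + k ^ 2 : ℝ) : ℂ) * (ζ * ((k : ℂ) * p + conj τ * r)) =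
      ((2 * k : ℝ) : ℂ) * (ζ * a) + ((1 - k ^ 2 : ℝ) : ℂ) * (ζ * (conj τ * b)) := by
    rw [hadef, hbdef]
    push_cast
    linear_combination ((1 - (k : ℂ) ^ 2) * k * ζ * p) * hττ
  have hre : (1 + k ^ 2) * (ζ * ((k : ℂ) * p + conj τ * r)).re ≤
      2 * k * ‖a‖ + (k ^ 2 - 1) * ‖b‖ := by
    have h3 := congrArg Complex.re hc
    rw [Complex.re_ofReal_mul] at h3
    rw [h3]
    refine (Complex.re_le_norm _).trans ((norm_add_le _ _).trans (le_of_eq ?_))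
    rw [norm_mul, norm_mul, norm_mul, norm_mul, norm_mul, RCLike.norm_conj, hζ, hτ,
      Complex.norm_real, Complex.norm_real, Real.norm_eq_abs, Real.norm_eq_abs,
      abs_of_pos (by linarith : (0 : ℝ) < 2 * k),
      abs_of_nonpos (by nlinarith : (1 : ℝ) - k ^ 2 ≤ 0)]
    ring
  have hfin : (ζ * ((k : ℂ) * p + conj τ * r)).re ≤ 2 * k := by
    have h3 : 2 * k * ‖a‖ + (k ^ 2 - 1) * ‖b‖ = 2 * k * (‖a‖ + (k - 1 / k) / 2 * ‖b‖) := by
      field_simp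
    rw [h3] at hre
    have h4 : 2 * k * (‖a‖ + (k - 1 / k) / 2 * ‖b‖) ≤ 2 * k * (1 + k ^ 2) :=
      mul_le_mul_of_nonneg_left hang (by linarith)
    have h5 : (1 + k ^ 2) * (ζ * ((k : ℂ) * p + conj τ * r)).re ≤ (1 + k ^ 2) * (2 * k) := by
      linarith
    exact le_of_mul_le_mul_left h5 (by positivity)
  have hkc : (k : ℂ) ≠ 0 := by exact_mod_cast hk0.ne'
  have hkZ : k * ‖Z‖ + 2 * k * (ζ * s).re = (ζ * ((k : ℂ) * p + conj τ * r)).re := by
    have e1 : ζ * ((k : ℂ) * p + conj τ * r) =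
        ((2 * k : ℝ) : ℂ) * (ζ * s) + (k : ℂ) * (τ * ((k : ℂ) * (ζ * X))) + conj τ * (ζ * Y) := by
      rw [hp', hr']
      push_cast
      linear_combination (ζ * k * s) * hττ
    have e2 : (conj τ * (ζ * Y)).re = (τ * conj (ζ * Y)).re := by
      rw [← Complex.conj_re (conj τ * (ζ * Y)), map_mul, Complex.conj_conj]
    have e3 : (k : ℂ) * (τ * Z) = (k : ℂ) * (τ * ((k : ℂ) * (ζ * X))) + τ * conj (ζ * Y) := by
      rw [hZ]
      field_simp
    have e4 : ((k : ℂ) * (τ * Z)).re = k * ‖Z‖ := by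
      rw [hτZ, ← Complex.ofReal_mul, Complex.ofReal_re]
    rw [e1, Complex.add_re, Complex.add_re, e2, Complex.re_ofReal_mul, ← e4, e3, Complex.add_re]
    ring
  have h6 : k * ‖Z‖ ≤ k * (2 * (1 - (ζ * s).re)) := by
    rw [← hkZ] at hfin
    linarith
  exact le_of_mul_le_mul_left h6 hk0

end Pool.Agent.H270.QD
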