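import Pool.Agent.H270.QD.Defs

set_option autoImplicit false

open Polynomial Filter Topology

namespace Pool.Agent.H270.QD

open Pool.Agent.Helper324_QNR Pool.Agent.H270.QP

section
variable {H : Type*} [NormedAddCommGroup H] [InnerProductSpace ℂ H] [CompleteSpace H]

/-- a self-adjoint operator with nonnegative quadratic form has a self-adjoint square root -/
theorem sim_sqrt (G : H →L[ℂ] H) (hG : IsSelfAdjoint G)
    (h0 : ∀ x : H, 0 ≤ (inner ℂ x (G x)).re) :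
    ∃ S : H →L[ℂ] H, IsSelfAdjoint S ∧ S * S = G ∧ ∀ x : H, ‖S x‖ ^ 2 = (inner ℂ x (G x)).re := by
  have hpos : G.IsPositive := by
    rw [ContinuousLinearMap.isPositive_def']
    refine ⟨hG, fun x => ?_⟩
    rw [ContinuousLinearMap.reApplyInnerSelf_apply]
    have h1 := h0 x
    have h2 : RCLike.re (inner ℂ (G x) x) = (inner ℂ x (G x)).re := by
      rw [inner_re_symm]; rfl
    rw [h2]; exact h1
  have hnn : 0 ≤ G := (ContinuousLinearMap.nonneg_iff_isPositive G).mpr hpos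
  have hS0 : 0 ≤ CFC.sqrt G := CFC.sqrt_nonneg G
  have hSsa : IsSelfAdjoint (CFC.sqrt G) := IsSelfAdjoint.of_nonneg hS0
  have hSS : CFC.sqrt G * CFC.sqrt G = G := CFC.sqrt_mul_sqrt_self G hnn
  refine ⟨CFC.sqrt G, hSsa, hSS, fun x => ?_⟩
  have h3 : inner ℂ x (G x) = (inner ℂ (CFC.sqrt G x) (CFC.sqrt G x) : ℂ) := by
    conv_lhs => rw [← hSS]
    rw [ContinuousLinearMap.mul_apply]
    have h4 := ContinuousLinearMap.adjoint_inner_left (CFC.sqrt G) (CFC.sqrt G x) x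
    rw [← ContinuousLinearMap.star_eq_adjoint, hSsa.star_eq] at h4
    exact h4.symm
  rw [h3, inner_self_eq_norm_sq_to_K]
  norm_cast

/-- norm bound from the quadratic form of `S` -/
theorem sim_norm (S : H →L[ℂ] H) (ρ : ℝ) (hρ : 0 ≤ ρ) (h : ∀ x : H, ‖S x‖ ^ 2 ≤ ρ * ‖x‖ ^ 2) :
    ‖S‖ ^ 2 ≤ ρ := by
  have h1 : ‖S‖ ≤ Real.sqrt ρ := by
    apply ContinuousLinearMap.opNorm_le_bound _ (Real.sqrt_nonneg _)
    intro x
    apply le_of_sq_le_sq _ (by positivity)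
    rw [mul_pow, Real.sq_sqrt hρ]
    exact h x
  calc ‖S‖ ^ 2 ≤ (Real.sqrt ρ) ^ 2 := by gcongr
    _ = ρ := Real.sq_sqrt hρ

/-- the norm of `G` -/
theorem sim_normG (G : H →L[ℂ] H) (ρ : ℝ) (hρ : 0 ≤ ρ) (hG : IsSelfAdjoint G)
    (h0 : ∀ x : H, 0 ≤ (inner ℂ x (G x)).re) (h1 : ∀ x : H, (inner ℂ x (G x)).re ≤ ρ * ‖x‖ ^ 2) :
    ‖G‖ ≤ ρ := by
  obtain ⟨S, -, hSS, hS⟩ := sim_sqrt G hG h0
  have h2 := sim_norm S ρ hρ (fun x => by rw [hS x]; exact h1 x)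
  calc ‖G‖ = ‖S * S‖ := by rw [hSS]
    _ ≤ ‖S‖ * ‖S‖ := norm_mul_le _ _
    _ = ‖S‖ ^ 2 := by ring
    _ ≤ ρ := h2

/-- the limit operator -/
theorem sim_limit [FiniteDimensional ℂ H] (h : S_sim0 H) (ρ : ℝ) (T : H →L[ℂ] H) (hρ1 : 1 ≤ ρ)
    (hρ2 : ρ ≤ 2) (hT : Crho H ρ T) :
    ∃ G : H →L[ℂ] H, IsSelfAdjoint G ∧ (∀ x : H, 1 / ρ * ‖x‖ ^ 2 ≤ (inner ℂ x (G x)).re) ∧
      (∀ x : H, (inner ℂ x (G x)).re ≤ ρ * ‖x‖ ^ 2) ∧
      ∀ x : H, (inner ℂ (T x) (G (T x))).re ≤ (inner ℂ x (G x)).re := by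
  have hρ0 : (0 : ℝ) < ρ := by linarith
  have hr : ∀ n : ℕ, 0 ≤ (n : ℝ) / (n + 1) ∧ (n : ℝ) / (n + 1) < 1 := by
    intro n
    constructor
    · positivity
    · rw [div_lt_one (by positivity)]; linarith
  choose G hGsa hG1 hG2 hG3 using fun n : ℕ => h ρ T hρ1 hρ2 hT ((n : ℝ) / (n + 1)) (hr n).1 (hr n).2
  have hGn : ∀ n, ‖G n‖ ≤ ρ := by
    intro n
    refine sim_normG (G n) ρ hρ0.le (hGsa n) (fun x => le_trans (by positivity) (hG1 n x)) (hG2 n)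
  haveI : ProperSpace (H →L[ℂ] H) := FiniteDimensional.proper ℂ (H →L[ℂ] H)
  have hcomp : IsCompact (Metric.closedBall (0 : H →L[ℂ] H) ρ) := isCompact_closedBall _ _
  obtain ⟨G', -, φ, hφ, hlim⟩ := hcomp.tendsto_subseq (x := G) (fun n => by
    rw [mem_closedBall_zero_iff]; exact hGn n)
  have happ : ∀ x : H, Tendsto (fun n => (G (φ n)) x) atTop (𝓝 (G' x)) := by
    intro x
    have h1 : Continuous (fun L : H →L[ℂ] H => L x) := (ContinuousLinearMap.apply ℂ H x).continuous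
    exact (h1.tendsto G').comp hlim
  have hin : ∀ x : H, Tendsto (fun n => (inner ℂ x (G (φ n) x)).re) atTop
      (𝓝 (inner ℂ x (G' x)).re) := by
    intro x
    have h1 : Continuous (fun y : H => (inner ℂ x y : ℂ).re) := by fun_prop
    exact (h1.tendsto (G' x)).comp (happ x)
  have hrlim : Tendsto (fun n : ℕ => ((φ n : ℝ)) / ((φ n : ℝ) + 1)) atTop (𝓝 1) := by
    have h1 : Tendsto (fun n : ℕ => (n : ℝ) / ((n : ℝ) + 1)) atTop (𝓝 1) :=
      tendsto_natCast_div_add_atTop 1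
    exact h1.comp hφ.tendsto_atTop
  refine ⟨G', ?_, ?_, ?_, ?_⟩
  · have h1 : Tendsto (fun n => star (G (φ n))) atTop (𝓝 (star G')) := by
      have h2 : Continuous (fun L : H →L[ℂ] H => star L) := continuous_star
      exact (h2.tendsto G').comp hlim
    have h3 : (fun n => star (G (φ n))) = fun n => G (φ n) := by
      funext n; exact (hGsa (φ n)).star_eq
    rw [h3] at h1
    exact tendsto_nhds_unique h1 hlim
  · intro x
    exact ge_of_tendsto' (hin x) (fun n => hG1 (φ n) x)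
  · intro x
    exact le_of_tendsto' (hin x) (fun n => hG2 (φ n) x)
  · intro x
    have h1 : Tendsto (fun n => (((φ n : ℝ)) / ((φ n : ℝ) + 1)) ^ 2 *
        (inner ℂ (T x) (G (φ n) (T x))).re) atTop (𝓝 (1 ^ 2 * (inner ℂ (T x) (G' (T x))).re)) :=
      (hrlim.pow 2).mul (hin (T x))
    rw [one_pow, one_mul] at h1
    refine le_of_tendsto_of_tendsto' h1 (hin x) (fun n => ?_)
    have h2 := hG3 (φ n) x
    have h3 : (inner ℂ (((((φ n : ℝ)) / ((φ n : ℝ) + 1) : ℝ) : ℂ) • T x)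
        (G (φ n) (((((φ n : ℝ)) / ((φ n : ℝ) + 1) : ℝ) : ℂ) • T x))).re =
        (((φ n : ℝ)) / ((φ n : ℝ) + 1)) ^ 2 * (inner ℂ (T x) (G (φ n) (T x))).re := by
      rw [map_smul, inner_smul_left, inner_smul_right, Complex.conj_ofReal, ← mul_assoc,
        ← Complex.ofReal_mul, Complex.re_ofReal_mul]
      ring
    rw [h3] at h2
    exact h2

end

theorem t_sim (H : Type*) [NormedAddCommGroup H] [InnerProductSpace ℂ H] [CompleteSpace H]
    [FiniteDimensional ℂ H] (h : S_sim0 H) : S_sim H := by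
  intro ρ T hρ1 hρ2 hT
  have hρ0 : (0 : ℝ) < ρ := by linarith
  obtain ⟨G, hGsa, hG1, hG2, hG3⟩ := sim_limit h ρ T hρ1 hρ2 hT
  obtain ⟨S, hSsa, hSS, hS⟩ := sim_sqrt G hGsa (fun x => le_trans (by positivity) (hG1 x))
  have hSn : ‖S‖ ^ 2 ≤ ρ := sim_norm S ρ hρ0.le (fun x => by rw [hS x]; exact hG2 x)
  have hlow : ∀ x : H, ‖x‖ ^ 2 ≤ ρ * ‖S x‖ ^ 2 := by
    intro x
    have h1 := hG1 x
    rw [← hS x] at h1
    have h2 : ρ * (1 / ρ * ‖x‖ ^ 2) ≤ ρ * ‖S x‖ ^ 2 := by gcongr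
    have h3 : ρ * (1 / ρ * ‖x‖ ^ 2) = ‖x‖ ^ 2 := by field_simp
    linarith
  have hinj : Function.Injective (S : H →ₗ[ℂ] H) := by
    rw [← LinearMap.ker_eq_bot, LinearMap.ker_eq_bot']
    intro x hx
    have hx' : S x = 0 := hx
    have h1 := hlow x
    rw [hx', norm_zero] at h1
    have h2 : ‖x‖ ^ 2 ≤ 0 := by simpa using h1
    have h3 : ‖x‖ = 0 := by nlinarith [norm_nonneg x]
    exact norm_eq_zero.mp h3
  let e : H ≃ₗ[ℂ] H := LinearEquiv.ofInjectiveEndo (S : H →ₗ[ℂ] H) hinj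
  let R : H →L[ℂ] H := LinearMap.toContinuousLinearMap (e.symm : H →ₗ[ℂ] H)
  have he : ∀ x, e x = S x := fun x => rfl
  have hR : ∀ x, R x = e.symm x := fun x => rfl
  have hSR : ∀ x, S (R x) = x := by
    intro x; rw [hR, ← he]; exact e.apply_symm_apply x
  have hRS : ∀ x, R (S x) = x := by
    intro x; rw [hR, ← he]; exact e.symm_apply_apply x
  refine ⟨S, R, ?_, ?_, hSn, ?_, ?_⟩
  · ext x
    rw [ContinuousLinearMap.mul_apply, hSR]; rfl
  · ext x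
    rw [ContinuousLinearMap.mul_apply, hRS]; rfl
  · refine sim_norm R ρ hρ0.le (fun x => ?_)
    have h1 := hlow (R x)
    rwa [hSR] at h1
  · apply ContinuousLinearMap.opNorm_le_bound _ zero_le_one
    intro x
    rw [one_mul, ContinuousLinearMap.mul_apply, ContinuousLinearMap.mul_apply]
    apply le_of_sq_le_sq _ (norm_nonneg _)
    rw [hS]
    refine le_trans (hG3 (R x)) ?_
    rw [← hS, hSR]

end Pool.Agent.H270.QD
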