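import Pool.Agent.H270.QD.Defs

/-!
# QD/Sim0 (helper333 for helper270): a new quadratic form for `r T`
-/

set_option autoImplicit false

namespace Pool.Agent.H270.QD

section basis

variable {H : Type*} [NormedAddCommGroup H] [InnerProductSpace ℂ H]
  {ι : Type*} [Fintype ι]

/-- the quadratic form of a diagonal operator -/
theorem sim0_in (b : OrthonormalBasis ι ℂ H) (x y : H) (c : ι → ℝ)
    (h : ∀ i, inner ℂ (b i) y = (c i : ℂ) * inner ℂ (b i) x) :
    (inner ℂ x y : ℂ).re = ∑ i, c i * ‖(inner ℂ (b i) x : ℂ)‖ ^ 2 := by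
  rw [← b.sum_inner_mul_inner x y, Complex.re_sum]
  refine Finset.sum_congr rfl fun i _ => ?_
  rw [h i, ← inner_conj_symm x (b i)]
  have e : (starRingEnd ℂ) (inner ℂ (b i) x) * ((c i : ℂ) * inner ℂ (b i) x) =
      (c i : ℂ) * (inner ℂ (b i) x * (starRingEnd ℂ) (inner ℂ (b i) x)) := by ring
  rw [e, Complex.mul_conj, Complex.normSq_eq_norm_sq, ← Complex.ofReal_mul, Complex.ofReal_re]

theorem sim0_norm (b : OrthonormalBasis ι ℂ H) (x : H) :
    ‖x‖ ^ 2 = ∑ i, ‖(inner ℂ (b i) x : ℂ)‖ ^ 2 := by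
  have h := sim0_in b x x (fun _ => 1) (fun i => by simp)
  have h2 : (inner ℂ x x : ℂ).re = ‖x‖ ^ 2 := by
    rw [inner_self_eq_norm_sq_to_K]
    norm_cast
  rw [h2] at h
  simpa using h

/-- diagonal operators -/
theorem sim0_op [CompleteSpace H] (b : OrthonormalBasis ι ℂ H) (g : ι → ℝ) :
    ∃ G : H →L[ℂ] H, IsSelfAdjoint G ∧
      ∀ x i, inner ℂ (b i) (G x) = (g i : ℂ) * inner ℂ (b i) x := by
  classical
  have key : ∀ x i, inner ℂ (b i)
      ((∑ j, (g j : ℂ) • (innerSL ℂ (b j)).smulRight (b j) : H →L[ℂ] H) x) =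
      (g i : ℂ) * inner ℂ (b i) x := by
    intro x i
    rw [ContinuousLinearMap.sum_apply, inner_sum, Finset.sum_eq_single i]
    · rw [ContinuousLinearMap.smul_apply, ContinuousLinearMap.smulRight_apply, innerSL_apply_apply,
        inner_smul_right, inner_smul_right, (orthonormal_iff_ite.1 b.orthonormal) i i, if_pos rfl,
        mul_one]
    · intro j _ hj
      rw [ContinuousLinearMap.smul_apply, ContinuousLinearMap.smulRight_apply,
        inner_smul_right, inner_smul_right, (orthonormal_iff_ite.1 b.orthonormal) i j,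
        if_neg (Ne.symm hj), mul_zero, mul_zero]
    · intro hi
      exact absurd (Finset.mem_univ i) hi
  refine ⟨_, ?_, key⟩
  rw [ContinuousLinearMap.isSelfAdjoint_iff_isSymmetric]
  intro x y
  show inner ℂ ((∑ j, (g j : ℂ) • (innerSL ℂ (b j)).smulRight (b j) : H →L[ℂ] H) x) y =
    inner ℂ x ((∑ j, (g j : ℂ) • (innerSL ℂ (b j)).smulRight (b j) : H →L[ℂ] H) y)
  rw [← b.sum_inner_mul_inner _ y, ← b.sum_inner_mul_inner x _]
  refine Finset.sum_congr rfl fun i _ => ?_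
  rw [key y i, ← inner_conj_symm _ (b i), key x i, map_mul, Complex.conj_ofReal, inner_conj_symm]
  ring

end basis

/-- the inequality for the eigenvalues -/
theorem sim0_real {ρ t : ℝ} (h1 : 1 ≤ ρ) (h2 : ρ ≤ 2) (t0 : 0 ≤ t) (t1 : t ≤ ρ) :
    max (ρ - t) (1 / ρ) ≤ (2 - ρ) + 2 * (ρ - 1) * ((ρ - 1) / max t (ρ - 1)) -
      t * ((ρ - 1) / max t (ρ - 1)) ^ 2 := by
  have hρ : 0 < ρ := by linarith
  have hinv : 1 / ρ ≤ 1 := by
    rw [div_le_one hρ]
    exact h1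
  rcases le_or_gt t (ρ - 1) with ht | ht
  · rw [max_eq_right ht]
    rcases eq_or_lt_of_le h1 with h3 | h3
    · subst h3
      have : t = 0 := by linarith
      subst this
      norm_num
    · have h4 : (ρ - 1) / (ρ - 1) = 1 := div_self (by linarith)
      rw [h4]
      refine max_le (by linarith) (hinv.trans (by linarith))
  · have ht0 : 0 < t := by linarith
    rw [max_eq_left ht.le]
    have e : 2 - ρ + 2 * (ρ - 1) * ((ρ - 1) / t) - t * ((ρ - 1) / t) ^ 2 =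
        2 - ρ + (ρ - 1) ^ 2 / t := by
      field_simp
      ring
    rw [e]
    refine max_le ?_ ?_
    · have h3 : 2 * (ρ - 1) - t ≤ (ρ - 1) ^ 2 / t := by
        rw [le_div_iff₀ ht0]
        nlinarith [sq_nonneg (t - (ρ - 1))]
      linarith
    · have h3 : (ρ - 1) ^ 2 / ρ ≤ (ρ - 1) ^ 2 / t :=
        div_le_div_of_nonneg_left (sq_nonneg _) ht0 t1
      have h4 : 1 / ρ = 2 - ρ + (ρ - 1) ^ 2 / ρ := by
        field_simp
        ring
      linarith

/-- **QD/Sim0** -/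
theorem t_sim0 (H : Type*) [NormedAddCommGroup H] [InnerProductSpace ℂ H] [CompleteSpace H]
    [FiniteDimensional ℂ H] (h : S_fact H) : S_sim0 H := by
  intro ρ T h1 h2 hT r hr0 hr1
  obtain ⟨Y, hY, hY0, hY1, hYT⟩ := h ρ T h1 h2 hT r hr0 hr1
  have hρ : 0 < ρ := by linarith
  have hsym : (Y : H →ₗ[ℂ] H).IsSymmetric := ContinuousLinearMap.isSelfAdjoint_iff_isSymmetric.1 hY
  obtain ⟨b, hb⟩ : ∃ b, b = hsym.eigenvectorBasis (n := Module.finrank ℂ H) rfl := ⟨_, rfl⟩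
  obtain ⟨l, hl⟩ : ∃ l, l = hsym.eigenvalues (n := Module.finrank ℂ H) rfl := ⟨_, rfl⟩
  have hYb : ∀ i, Y (b i) = (l i : ℂ) • b i := by
    intro i
    rw [hb, hl]
    exact hsym.apply_eigenvectorBasis rfl i
  have hYc : ∀ x i, inner ℂ (b i) (Y x) = (l i : ℂ) * inner ℂ (b i) x := by
    intro x i
    have h3 : inner ℂ (Y (b i)) x = inner ℂ (b i) (Y x) := hsym (b i) x
    rw [← h3, hYb i, inner_smul_left, Complex.conj_ofReal]
  have hn : ∀ i, ‖b i‖ = 1 := fun i => b.orthonormal.1 i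
  have hYi : ∀ i, (inner ℂ (b i) (Y (b i)) : ℂ).re = l i := by
    intro i
    rw [hYb i, inner_smul_right, inner_self_eq_norm_sq_to_K, hn i]
    simp
  have hl0 : ∀ i, 0 ≤ l i := fun i => by
    have := hY0 (b i)
    rwa [hYi i] at this
  have hl1 : ∀ i, l i ≤ ρ := fun i => by
    have := hY1 (b i)
    rwa [hYi i, hn i, one_pow, mul_one] at this
  obtain ⟨G, hG, hGc⟩ := sim0_op b (fun i => max (ρ - l i) (1 / ρ))
  obtain ⟨F, _, hFc⟩ := sim0_op b (fun i => (ρ - 1) / max (l i) (ρ - 1))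
  have hGq : ∀ x, (inner ℂ x (G x) : ℂ).re =
      ∑ i, max (ρ - l i) (1 / ρ) * ‖(inner ℂ (b i) x : ℂ)‖ ^ 2 :=
    fun x => sim0_in b x (G x) _ fun i => hGc x i
  refine ⟨G, hG, fun x => ?_, fun x => ?_, fun x => ?_⟩
  · rw [hGq, sim0_norm b x, Finset.mul_sum]
    exact Finset.sum_le_sum fun i _ => mul_le_mul_of_nonneg_right (le_max_right _ _) (sq_nonneg _)
  · rw [hGq, sim0_norm b x, Finset.mul_sum]
    refine Finset.sum_le_sum fun i _ => mul_le_mul_of_nonneg_right (max_le ?_ ?_) (sq_nonneg _)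
    · have := hl0 i
      linarith
    · have : 1 / ρ ≤ 1 := by
        rw [div_le_one hρ]
        exact h1
      linarith
  · obtain ⟨z, hz⟩ : ∃ z, z = (r : ℂ) • T x := ⟨_, rfl⟩
    have h3 := hYT x (F z)
    rw [← hz] at h3 ⊢
    have e1 : (inner ℂ (F z) z : ℂ).re =
        ∑ i, (ρ - 1) / max (l i) (ρ - 1) * ‖(inner ℂ (b i) z : ℂ)‖ ^ 2 := by
      rw [← sim0_in b z (F z) _ fun i => hFc z i]
      exact inner_re_symm (𝕜 := ℂ) _ _
    have e2 : (inner ℂ (F z) (Y (F z)) : ℂ).re =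
        ∑ i, l i * ((ρ - 1) / max (l i) (ρ - 1)) ^ 2 * ‖(inner ℂ (b i) z : ℂ)‖ ^ 2 := by
      rw [sim0_in b (F z) (Y (F z)) _ fun i => hYc (F z) i]
      refine Finset.sum_congr rfl fun i _ => ?_
      rw [hFc z i, norm_mul, mul_pow, Complex.norm_real, Real.norm_eq_abs, sq_abs, mul_assoc]
    have e3 : (inner ℂ x (Y x) : ℂ).re = ∑ i, l i * ‖(inner ℂ (b i) x : ℂ)‖ ^ 2 :=
      sim0_in b x (Y x) _ fun i => hYc x i
    rw [e1, e2, e3, sim0_norm b z, sim0_norm b x] at h3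
    rw [hGq, hGq]
    have h4 : ∑ i, max (ρ - l i) (1 / ρ) * ‖(inner ℂ (b i) z : ℂ)‖ ^ 2 ≤
        (2 - ρ) * ∑ i, ‖(inner ℂ (b i) z : ℂ)‖ ^ 2 +
          2 * (ρ - 1) * ∑ i, (ρ - 1) / max (l i) (ρ - 1) * ‖(inner ℂ (b i) z : ℂ)‖ ^ 2 -
          ∑ i, l i * ((ρ - 1) / max (l i) (ρ - 1)) ^ 2 * ‖(inner ℂ (b i) z : ℂ)‖ ^ 2 := by
      rw [Finset.mul_sum, Finset.mul_sum, ← Finset.sum_add_distrib, ← Finset.sum_sub_distrib]
      refine Finset.sum_le_sum fun i _ => ?_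
      have h5 := mul_le_mul_of_nonneg_right (sim0_real h1 h2 (hl0 i) (hl1 i))
        (sq_nonneg ‖(inner ℂ (b i) z : ℂ)‖)
      refine h5.trans (le_of_eq ?_)
      ring
    have h6 : ρ * ∑ i, ‖(inner ℂ (b i) x : ℂ)‖ ^ 2 - ∑ i, l i * ‖(inner ℂ (b i) x : ℂ)‖ ^ 2 ≤
        ∑ i, max (ρ - l i) (1 / ρ) * ‖(inner ℂ (b i) x : ℂ)‖ ^ 2 := by
      rw [Finset.mul_sum, ← Finset.sum_sub_distrib]
      refine Finset.sum_le_sum fun i _ => ?_
      have h5 := mul_le_mul_of_nonneg_right (le_max_left (ρ - l i) (1 / ρ))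
        (sq_nonneg ‖(inner ℂ (b i) x : ℂ)‖)
      refine le_trans (le_of_eq ?_) h5
      ring
    exact h4.trans (h3.trans h6)

end Pool.Agent.H270.QD
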