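import Pool.Agent.H270.QD.Defs

/-!
# Project QD: `S_two` from `S_num`, `S_canon` and `S_pos`
-/

set_option autoImplicit false

open Polynomial Filter Topology

namespace Pool.Agent.H270.QD

open Pool.Agent.Helper324_QNR Pool.Agent.H270.QP

section

variable {H : Type*} [NormedAddCommGroup H] [InnerProductSpace ℂ H]

theorem two_sc (k t : ℝ) (hk1 : 1 ≤ k) (hk2 : k ≤ 2) (ht0 : 0 ≤ t) (ht : t ≤ 1) :
    (2 - 2 / k) * t ^ 2 + 2 * (2 / k - 1) * t ≤ 2 / k := by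
  have hk : 0 < k := by linarith
  have h1 : 0 ≤ 2 - 2 / k := by
    have : 2 / k ≤ 2 := by
      rw [div_le_iff₀ hk]
      linarith
    linarith
  have h2 : 0 ≤ 2 / k - 1 := by
    have : 1 ≤ 2 / k := by
      rw [le_div_iff₀ hk]
      linarith
    linarith
  have h3 : t ^ 2 ≤ 1 := by nlinarith
  nlinarith [mul_le_mul_of_nonneg_left h3 h1, mul_le_mul_of_nonneg_left ht h2]

theorem two_inner (f1 f2 : H) (h1 : ‖f1‖ = 1) (h2 : ‖f2‖ = 1) (h12 : inner ℂ f1 f2 = (0 : ℂ))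
    (c1 c2 d1 d2 : ℂ) : inner ℂ (c1 • f1 + c2 • f2) (d1 • f1 + d2 • f2) =
      (starRingEnd ℂ) c1 * d1 + (starRingEnd ℂ) c2 * d2 := by
  have h21 : inner ℂ f2 f1 = (0 : ℂ) := by rw [← inner_conj_symm, h12, map_zero]
  have h11 : inner ℂ f1 f1 = (1 : ℂ) := by
    rw [inner_self_eq_norm_sq_to_K, h1]
    simp
  have h22 : inner ℂ f2 f2 = (1 : ℂ) := by
    rw [inner_self_eq_norm_sq_to_K, h2]
    simp
  rw [inner_add_left, inner_add_right, inner_add_right, inner_smul_left, inner_smul_left,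
    inner_smul_left, inner_smul_left, inner_smul_right, inner_smul_right, inner_smul_right,
    inner_smul_right, h11, h22, h12, h21]
  ring

theorem two_norm (f1 f2 : H) (h1 : ‖f1‖ = 1) (h2 : ‖f2‖ = 1) (h12 : inner ℂ f1 f2 = (0 : ℂ))
    (c1 c2 : ℂ) : ‖c1 • f1 + c2 • f2‖ ^ 2 = ‖c1‖ ^ 2 + ‖c2‖ ^ 2 := by
  have h := two_inner f1 f2 h1 h2 h12 c1 c2 c1 c2
  rw [inner_self_eq_norm_sq_to_K] at h
  have h3 : ∀ c : ℂ, (starRingEnd ℂ) c * c = ((‖c‖ ^ 2 : ℝ) : ℂ) := by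
    intro c
    rw [mul_comm, Complex.mul_conj, Complex.normSq_eq_norm_sq]
  rw [h3, h3] at h
  apply Complex.ofReal_injective
  rw [Complex.ofReal_add, ← h, Complex.ofReal_pow]
  rfl

end

theorem t_two (H : Type*) [NormedAddCommGroup H] [InnerProductSpace ℂ H] [CompleteSpace H]
    (h1 : S_num) (h2 : S_canon H) (h3 : S_pos H) : S_two H := by
  intro A k hk1 hk2 hA x hx
  have hk : 0 < k := by linarith
  have hAx := hA x hx
  have hxx : inner ℂ x x = (1 : ℂ) := by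
    rw [inner_self_eq_norm_sq_to_K, hx]
    simp
  have hle : ‖(inner ℂ x (A x) : ℂ)‖ ≤ 1 := by
    have h4 : 0 ≤ (k - 1 / k) / 2 := by
      have : 1 / k ≤ 1 := by
        rw [div_le_iff₀ hk]
        linarith
      linarith
    have h5 := mul_nonneg h4 (Real.sqrt_nonneg (‖A x‖ ^ 2 - ‖(inner ℂ x (A x) : ℂ)‖ ^ 2))
    linarith
  obtain ⟨a, ha⟩ : ∃ a : ℂ, a = inner ℂ x (A x) := ⟨_, rfl⟩
  rcases eq_or_ne (A x - a • x) 0 with hv | hv
  · have h4 : A x = a • x := sub_eq_zero.mp hv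
    have h5 : ‖A x‖ = ‖a‖ := by rw [h4, norm_smul, hx, mul_one]
    rw [← ha] at hle ⊢
    rw [h5]
    exact two_sc k ‖a‖ hk1 hk2 (norm_nonneg _) hle
  · obtain ⟨v, hvd⟩ : ∃ v : H, v = A x - a • x := ⟨_, rfl⟩
    rw [← hvd] at hv
    have hn : ‖v‖ ≠ 0 := norm_ne_zero_iff.mpr hv
    have hnC : ((‖v‖ : ℝ) : ℂ) ≠ 0 := by exact_mod_cast hn
    have hxv : inner ℂ x v = (0 : ℂ) := by
      rw [hvd, inner_sub_right, inner_smul_right, hxx, ha, mul_one, sub_self]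
    have he1 : ‖((‖v‖ : ℝ) : ℂ)⁻¹ • v‖ = 1 := by
      rw [norm_smul, norm_inv, Complex.norm_real, norm_norm, inv_mul_cancel₀ hn]
    have he2 : inner ℂ x (((‖v‖ : ℝ) : ℂ)⁻¹ • v) = (0 : ℂ) := by
      rw [inner_smul_right, hxv, mul_zero]
    obtain ⟨f1, f2, θ, s, x0, y0, hf1, hf2, hf12, hθ, hy0, hyx, hs1, hs2, hX, hY,
      ⟨c1, c2, hc⟩, ⟨d1, d2, hd⟩⟩ := h2 A x _ hx he1 he2
    have hθθ : (starRingEnd ℂ) θ * θ = 1 := by
      rw [mul_comm, Complex.mul_conj, Complex.normSq_eq_norm_sq, hθ]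
      norm_num
    -- the image of x
    have hvs : v = ((‖v‖ : ℝ) : ℂ) • (d1 • f1 + d2 • f2) := by
      rw [← hd, smul_smul, mul_inv_cancel₀ hnC, one_smul]
    have hAx1 : A x = (((‖v‖ : ℝ) : ℂ) * d1 + a * c1) • f1 +
        (((‖v‖ : ℝ) : ℂ) * d2 + a * c2) • f2 := by
      have h4 : A x = v + a • x := by rw [hvd, sub_add_cancel]
      calc A x = v + a • x := h4
        _ = ((‖v‖ : ℝ) : ℂ) • (d1 • f1 + d2 • f2) + a • (c1 • f1 + c2 • f2) := by
          rw [← hvs, ← hc]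
        _ = (((‖v‖ : ℝ) : ℂ) * d1 + a * c1) • f1 + (((‖v‖ : ℝ) : ℂ) * d2 + a * c2) • f2 := by
          module
    have hp : ((‖v‖ : ℝ) : ℂ) * d1 + a * c1 = c1 * s + c2 * (θ * x0) := by
      have h4 := two_inner f1 f2 hf1 hf2 hf12 1 0 (((‖v‖ : ℝ) : ℂ) * d1 + a * c1)
        (((‖v‖ : ℝ) : ℂ) * d2 + a * c2)
      rw [← hAx1, one_smul, zero_smul, add_zero, map_one, map_zero, one_mul, zero_mul,
        add_zero] at h4
      rw [← h4, hc, map_add, map_smul, map_smul, inner_add_right, inner_smul_right,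
        inner_smul_right, hs1, hX]
    have hr : ((‖v‖ : ℝ) : ℂ) * d2 + a * c2 = c1 * (θ * y0) + c2 * s := by
      have h4 := two_inner f1 f2 hf1 hf2 hf12 0 1 (((‖v‖ : ℝ) : ℂ) * d1 + a * c1)
        (((‖v‖ : ℝ) : ℂ) * d2 + a * c2)
      rw [← hAx1, one_smul, zero_smul, zero_add, map_one, map_zero, one_mul, zero_mul,
        zero_add] at h4
      rw [← h4, hc, map_add, map_smul, map_smul, inner_add_right, inner_smul_right,
        inner_smul_right, hs2, hY]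
    rw [hp, hr] at hAx1
    have hss : θ * ((starRingEnd ℂ) θ * s) = s := by
      rw [← mul_assoc, mul_comm θ, hθθ, one_mul]
    have hp2 : c1 * s + c2 * (θ * x0) = θ * (((starRingEnd ℂ) θ * s) * c1 + x0 * c2) := by
      linear_combination (-c1) * hss
    have hr2 : c1 * (θ * y0) + c2 * s = θ * (y0 * c1 + ((starRingEnd ℂ) θ * s) * c2) := by
      linear_combination (-c2) * hss
    rw [hp2, hr2] at hAx1
    -- the hypothesis of S_num
    have h5 := h1 k ((starRingEnd ℂ) θ * s) x0 y0 hk1 hk2 hy0 hyx (by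
      intro ζ hζ
      have h6 := h3 A k hk1 hA f1 f2 s hf1 hf2 hf12 hs1 hs2 (ζ * (starRingEnd ℂ) θ) (by
        rw [norm_mul, RCLike.norm_conj, hζ, hθ, mul_one])
      rw [hX, hY] at h6
      have e1 : ζ * (starRingEnd ℂ) θ * (θ * (x0 : ℂ)) = ζ * x0 := by
        linear_combination (ζ * x0) * hθθ
      have e2 : ζ * (starRingEnd ℂ) θ * (θ * (y0 : ℂ)) = ζ * y0 := by
        linear_combination (ζ * y0) * hθθ
      rw [e1, e2, map_mul, Complex.conj_ofReal, mul_assoc ζ, ← mul_assoc (k : ℂ)] at h6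
      exact h6)
    have hcc : ‖c1‖ ^ 2 + ‖c2‖ ^ 2 = 1 := by
      rw [← two_norm f1 f2 hf1 hf2 hf12 c1 c2, ← hc, hx, one_pow]
    have h7 := h5 c1 c2 hcc
    have hN : ‖A x‖ ^ 2 = ‖(starRingEnd ℂ) θ * s * c1 + x0 * c2‖ ^ 2 +
        ‖y0 * c1 + (starRingEnd ℂ) θ * s * c2‖ ^ 2 := by
      rw [hAx1, two_norm f1 f2 hf1 hf2 hf12, norm_mul, norm_mul, hθ, one_mul, one_mul]
    have hI : ‖(inner ℂ x (A x) : ℂ)‖ =
        ‖(starRingEnd ℂ) c1 * ((starRingEnd ℂ) θ * s * c1 + x0 * c2) +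
          (starRingEnd ℂ) c2 * (y0 * c1 + (starRingEnd ℂ) θ * s * c2)‖ := by
      rw [hAx1]
      nth_rewrite 1 [hc]
      rw [two_inner f1 f2 hf1 hf2 hf12]
      have e3 : (starRingEnd ℂ) c1 * (θ * ((starRingEnd ℂ) θ * s * c1 + x0 * c2)) +
          (starRingEnd ℂ) c2 * (θ * (y0 * c1 + (starRingEnd ℂ) θ * s * c2)) =
          θ * ((starRingEnd ℂ) c1 * ((starRingEnd ℂ) θ * s * c1 + x0 * c2) +
          (starRingEnd ℂ) c2 * (y0 * c1 + (starRingEnd ℂ) θ * s * c2)) := by ring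
      rw [e3, norm_mul, hθ, one_mul]
    rw [hN, hI]
    exact h7

end Pool.Agent.H270.QD
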