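import Pool.Agent.H270.QD.Defs

set_option autoImplicit false

open Polynomial Filter Topology

namespace Pool.Agent.H270.QD

/-- squared Euclidean norm -/
noncomputable def vN_nsq {ι : Type*} [Fintype ι] (v : ι → ℂ) : ℝ := ∑ i, ‖v i‖ ^ 2

theorem vN_nsq_nonneg {ι : Type*} [Fintype ι] (v : ι → ℂ) : 0 ≤ vN_nsq v :=
  Finset.sum_nonneg fun _ _ => by positivity

theorem vN_le {ι : Type*} [Fintype ι] [DecidableEq ι] {A : Matrix ι ι ℂ} {M : ℝ} (h : opn A ≤ M)
    (v : ι → ℂ) : vN_nsq (A.mulVec v) ≤ M ^ 2 * vN_nsq v := by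
  have h1 := (Matrix.toEuclideanCLM (n := ι) (𝕜 := ℂ) A).le_of_opNorm_le h (WithLp.toLp 2 v)
  have h2 := pow_le_pow_left₀ (norm_nonneg _) h1 2
  rw [mul_pow, EuclideanSpace.norm_sq_eq, EuclideanSpace.norm_sq_eq] at h2
  exact h2

theorem vN_ge {ι : Type*} [Fintype ι] [DecidableEq ι] {A : Matrix ι ι ℂ} {M : ℝ} (hM : 0 ≤ M)
    (h : ∀ v : ι → ℂ, vN_nsq (A.mulVec v) ≤ M ^ 2 * vN_nsq v) : opn A ≤ M := by
  apply ContinuousLinearMap.opNorm_le_bound _ hM
  intro x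
  have h1 := h (WithLp.ofLp x)
  rw [← pow_le_pow_iff_left₀ (norm_nonneg _) (by positivity) two_ne_zero, mul_pow,
    EuclideanSpace.norm_sq_eq, EuclideanSpace.norm_sq_eq]
  exact h1

/-! ### the discrete Fourier transform -/

theorem vN_parseval (L : ℕ) [NeZero L] (u : ZMod L → ℂ) :
    ∑ χ, ‖ZMod.dft u χ‖ ^ 2 = L * ∑ κ, ‖u κ‖ ^ 2 := by
  have key : ((∑ χ, ‖ZMod.dft u χ‖ ^ 2 : ℝ) : ℂ) = ((L * ∑ κ, ‖u κ‖ ^ 2 : ℝ) : ℂ) := by
    have h1 : ∀ z : ℂ, ((‖z‖ ^ 2 : ℝ) : ℂ) = (starRingEnd ℂ) z * z := by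
      intro z
      rw [Complex.conj_mul']
      push_cast
      rfl
    rw [Complex.ofReal_sum, Complex.ofReal_mul, Complex.ofReal_sum]
    rw [Finset.sum_congr rfl (fun χ _ => h1 (ZMod.dft u χ)),
      Finset.sum_congr rfl (fun κ _ => h1 (u κ))]
    have h2 : ∀ χ, (starRingEnd ℂ) (ZMod.dft u χ) =
        ∑ κ, ZMod.stdAddChar (κ * χ) * (starRingEnd ℂ) (u κ) := by
      intro χ
      rw [ZMod.dft_apply, map_sum]
      refine Finset.sum_congr rfl (fun κ _ => ?_)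
      rw [smul_eq_mul, map_mul, AddChar.map_neg_eq_conj, Complex.conj_conj]
    have h3 : ∀ κ : ZMod L, ∑ χ, ZMod.stdAddChar (κ * χ) * ZMod.dft u χ = L * u κ := by
      intro κ
      have h4 := congrFun (ZMod.dft_dft u) (-κ)
      rw [ZMod.dft_apply, neg_neg] at h4
      rw [← smul_eq_mul (L : ℂ), ← h4]
      refine Finset.sum_congr rfl (fun χ _ => ?_)
      rw [smul_eq_mul, mul_neg, neg_neg, mul_comm κ χ]
    calc ∑ χ, (starRingEnd ℂ) (ZMod.dft u χ) * ZMod.dft u χ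
        = ∑ χ, ∑ κ, (starRingEnd ℂ) (u κ) * (ZMod.stdAddChar (κ * χ) * ZMod.dft u χ) := by
          refine Finset.sum_congr rfl (fun χ _ => ?_)
          rw [h2, Finset.sum_mul]
          refine Finset.sum_congr rfl (fun κ _ => ?_)
          ring
      _ = ∑ κ, (starRingEnd ℂ) (u κ) * (L * u κ) := by
          rw [Finset.sum_comm]
          refine Finset.sum_congr rfl (fun κ _ => ?_)
          rw [← Finset.mul_sum, h3]
      _ = ((L : ℝ) : ℂ) * ∑ κ, (starRingEnd ℂ) (u κ) * u κ := by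
          rw [Finset.mul_sum]
          refine Finset.sum_congr rfl (fun κ _ => ?_)
          rw [Complex.ofReal_natCast]
          ring
  exact_mod_cast key

theorem vN_shift (L : ℕ) [NeZero L] (u : ZMod L → ℂ) (l : ℕ) (χ : ZMod L) :
    ZMod.dft (fun κ => u (κ + (l : ZMod L))) χ = (ZMod.stdAddChar χ : ℂ) ^ l * ZMod.dft u χ := by
  rw [ZMod.dft_apply, ZMod.dft_apply, Finset.mul_sum]
  rw [← Equiv.sum_comp (Equiv.addRight (l : ZMod L))
    (fun κ => (ZMod.stdAddChar χ : ℂ) ^ l * (ZMod.stdAddChar (-(κ * χ)) • u κ))]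
  refine Finset.sum_congr rfl (fun κ _ => ?_)
  rw [Equiv.coe_addRight, smul_eq_mul, smul_eq_mul, ← mul_assoc]
  congr 1
  have h1 : (ZMod.stdAddChar χ : ℂ) ^ l = ZMod.stdAddChar ((l : ZMod L) * χ) := by
    rw [← nsmul_eq_mul, AddChar.map_nsmul_eq_pow]
  rw [h1, ← AddChar.map_add_eq_mul]
  congr 1
  ring

/-- the norm of a matrix of polynomials of the cyclic shift -/
theorem vN_cyc {m : ℕ} (L : ℕ) [NeZero L] (P : Matrix (Fin m) (Fin m) ℂ[X]) (M : ℝ)
    (hP : ∀ z : ℂ, ‖z‖ ≤ 1 → opn (P.map (fun p => p.eval z)) ≤ M) (d : ℕ)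
    (hd : ∀ i j, (P i j).natDegree < d) (u : Fin m → ZMod L → ℂ) :
    ∑ i, ∑ κ : ZMod L, ‖∑ j, ∑ l ∈ Finset.range d, (P i j).coeff l * u j (κ + (l : ZMod L))‖ ^ 2 ≤
      M ^ 2 * ∑ j, ∑ κ, ‖u j κ‖ ^ 2 := by
  have hL : (0 : ℝ) < L := by exact_mod_cast Nat.pos_of_ne_zero (NeZero.ne L)
  have hW : ∀ i χ, ZMod.dft (fun κ => ∑ j, ∑ l ∈ Finset.range d,
      (P i j).coeff l * u j (κ + (l : ZMod L))) χ =
      ∑ j, (P i j).eval (ZMod.stdAddChar χ : ℂ) * ZMod.dft (u j) χ := by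
    intro i χ
    have e1 : (fun κ => ∑ j, ∑ l ∈ Finset.range d, (P i j).coeff l * u j (κ + (l : ZMod L))) =
        ∑ j, ∑ l ∈ Finset.range d, (P i j).coeff l • (fun κ => u j (κ + (l : ZMod L))) := by
      funext κ
      simp only [Finset.sum_apply, Pi.smul_apply, smul_eq_mul]
    rw [e1, map_sum, Finset.sum_apply]
    refine Finset.sum_congr rfl (fun j _ => ?_)
    rw [map_sum, Finset.sum_apply, Polynomial.eval_eq_sum_range' (hd i j), Finset.sum_mul]
    refine Finset.sum_congr rfl (fun l _ => ?_)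
    rw [map_smul, Pi.smul_apply, vN_shift, smul_eq_mul, mul_assoc]
  have h1 : (L : ℝ) * ∑ i, ∑ κ : ZMod L,
      ‖∑ j, ∑ l ∈ Finset.range d, (P i j).coeff l * u j (κ + (l : ZMod L))‖ ^ 2 ≤
      (L : ℝ) * (M ^ 2 * ∑ j, ∑ κ, ‖u j κ‖ ^ 2) := by
    calc (L : ℝ) * ∑ i, ∑ κ : ZMod L,
        ‖∑ j, ∑ l ∈ Finset.range d, (P i j).coeff l * u j (κ + (l : ZMod L))‖ ^ 2
        = ∑ i, ∑ χ, ‖∑ j, (P i j).eval (ZMod.stdAddChar χ : ℂ) * ZMod.dft (u j) χ‖ ^ 2 := by
          rw [Finset.mul_sum]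
          refine Finset.sum_congr rfl (fun i _ => ?_)
          rw [← vN_parseval]
          exact Finset.sum_congr rfl (fun χ _ => by rw [hW])
      _ = ∑ χ : ZMod L, vN_nsq ((P.map (fun p => p.eval (ZMod.stdAddChar χ : ℂ))).mulVec
          (fun j => ZMod.dft (u j) χ)) := by
          rw [Finset.sum_comm]
          rfl
      _ ≤ ∑ χ : ZMod L, M ^ 2 * vN_nsq (fun j => ZMod.dft (u j) χ) := by
          refine Finset.sum_le_sum (fun χ _ => vN_le (hP _ ?_) _)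
          exact le_of_eq (AddChar.norm_apply _ _)
      _ = (L : ℝ) * (M ^ 2 * ∑ j, ∑ κ, ‖u j κ‖ ^ 2) := by
          rw [← Finset.mul_sum]
          unfold vN_nsq
          rw [Finset.sum_comm, mul_left_comm]
          congr 1
          rw [Finset.mul_sum]
          exact Finset.sum_congr rfl (fun j _ => vN_parseval L (u j))
  exact le_of_mul_le_mul_left h1 hL

/-! ### the defect operator -/

section

open scoped Matrix MatrixOrder ComplexOrder

theorem vN_dot {ι : Type*} [Fintype ι] (v : ι → ℂ) :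
    dotProduct (star v) v = ((vN_nsq v : ℝ) : ℂ) := by
  unfold vN_nsq dotProduct
  rw [Complex.ofReal_sum]
  refine Finset.sum_congr rfl (fun i _ => ?_)
  rw [Pi.star_apply, ← starRingEnd_apply, Complex.conj_mul']
  push_cast
  rfl

theorem vN_defect {n : ℕ} (T : Matrix (Fin n) (Fin n) ℂ) (hT : opn T ≤ 1) :
    ∃ D : Matrix (Fin n) (Fin n) ℂ, ∀ v, vN_nsq (D.mulVec v) = vN_nsq v - vN_nsq (T.mulVec v) := by
  have hq : ∀ A : Matrix (Fin n) (Fin n) ℂ, ∀ v : Fin n → ℂ,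
      dotProduct (star v) ((Aᴴ * A).mulVec v) = ((vN_nsq (A.mulVec v) : ℝ) : ℂ) := by
    intro A v
    rw [← vN_dot, ← Matrix.mulVec_mulVec, Matrix.dotProduct_mulVec, Matrix.star_mulVec]
  have hpos : (1 - Tᴴ * T).PosSemidef := by
    refine Matrix.PosSemidef.of_dotProduct_mulVec_nonneg ?_ (fun v => ?_)
    · exact Matrix.isHermitian_one.sub (Matrix.isHermitian_conjTranspose_mul_self T)
    · rw [Matrix.sub_mulVec, Matrix.one_mulVec, dotProduct_sub, hq, vN_dot, ← Complex.ofReal_sub,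
        Complex.zero_le_real]
      have := vN_le hT v
      rw [one_pow, one_mul] at this
      linarith
  obtain ⟨D, hD⟩ := CStarAlgebra.nonneg_iff_eq_star_mul_self.mp hpos.nonneg
  refine ⟨D, fun v => ?_⟩
  have h1 := hq D v
  have h2 : Dᴴ * D = 1 - Tᴴ * T := hD.symm
  rw [h2, Matrix.sub_mulVec, Matrix.one_mulVec, dotProduct_sub, hq, vN_dot,
    ← Complex.ofReal_sub] at h1
  exact (Complex.ofReal_injective h1).symm

end

/-! ### the energy identity -/

theorem vN_energy {n : ℕ} {T D : Matrix (Fin n) (Fin n) ℂ}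
    (hD : ∀ v, vN_nsq (D.mulVec v) = vN_nsq v - vN_nsq (T.mulVec v)) (v : Fin n → ℂ) (K : ℕ) :
    ∑ k ∈ Finset.range K, vN_nsq ((D * T ^ k).mulVec v) = vN_nsq v - vN_nsq ((T ^ K).mulVec v) := by
  induction K with
  | zero => simp
  | succ K ih =>
    rw [Finset.sum_range_succ, ih, ← Matrix.mulVec_mulVec, hD, Matrix.mulVec_mulVec, pow_succ']
    ring

theorem vN_sum_zmod (L : ℕ) [NeZero L] (f : ZMod L → ℝ) :
    ∑ κ, f κ = ∑ k ∈ Finset.range L, f (k : ZMod L) := by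
  refine Finset.sum_bij' (fun κ _ => κ.val) (fun k _ => (k : ZMod L)) ?_ ?_ ?_ ?_ ?_
  · intro κ _
    exact Finset.mem_range.mpr (ZMod.val_lt κ)
  · intro k _
    exact Finset.mem_univ _
  · intro κ _
    exact ZMod.natCast_zmod_val κ
  · intro k hk
    exact ZMod.val_cast_of_lt (Finset.mem_range.mp hk)
  · intro κ _
    rw [ZMod.natCast_zmod_val]

/-- the components of `P(T) a` -/
noncomputable def vN_y {m n : ℕ} (P : Matrix (Fin m) (Fin m) ℂ[X]) (T : Matrix (Fin n) (Fin n) ℂ)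
    (a : Fin m → Fin n → ℂ) (i : Fin m) : Fin n → ℂ := ∑ j, (aeval T (P i j)).mulVec (a j)

theorem vN_main {m n : ℕ} (P : Matrix (Fin m) (Fin m) ℂ[X]) (M : ℝ)
    (hP : ∀ z : ℂ, ‖z‖ ≤ 1 → opn (P.map (fun p => p.eval z)) ≤ M)
    (T : Matrix (Fin n) (Fin n) ℂ) (hT : opn T ≤ 1) (a : Fin m → Fin n → ℂ) (K : ℕ) :
    ∑ i, (vN_nsq (vN_y P T a i) - vN_nsq ((T ^ K).mulVec (vN_y P T a i))) ≤
      M ^ 2 * ∑ j, vN_nsq (a j) := by
  obtain ⟨D, hD⟩ := vN_defect T hT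
  obtain ⟨d, hd⟩ : ∃ d, ∀ i j, (P i j).natDegree < d := by
    refine ⟨(Finset.univ.sup fun i => Finset.univ.sup fun j => (P i j).natDegree) + 1,
      fun i j => ?_⟩
    rw [Nat.lt_succ_iff]
    exact (Finset.le_sup (f := fun j => (P i j).natDegree) (Finset.mem_univ j)).trans
      (Finset.le_sup (f := fun i => Finset.univ.sup fun j => (P i j).natDegree)
        (Finset.mem_univ i))
  have hL : NeZero (K + d + 1) := ⟨by omega⟩
  -- the periodic sequences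
  have key : ∀ p : Fin n, ∑ i, ∑ k ∈ Finset.range K,
      ‖((D * T ^ k).mulVec (vN_y P T a i)) p‖ ^ 2 ≤
      M ^ 2 * ∑ j, ∑ k ∈ Finset.range (K + d + 1), ‖((D * T ^ k).mulVec (a j)) p‖ ^ 2 := by
    intro p
    have h1 := vN_cyc (K + d + 1) P M hP d hd
      (fun j κ => ((D * T ^ κ.val).mulVec (a j)) p)
    have h2 : ∀ j, ∑ κ : ZMod (K + d + 1), ‖((D * T ^ κ.val).mulVec (a j)) p‖ ^ 2 =
        ∑ k ∈ Finset.range (K + d + 1), ‖((D * T ^ k).mulVec (a j)) p‖ ^ 2 := by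
      intro j
      rw [vN_sum_zmod]
      refine Finset.sum_congr rfl (fun k hk => ?_)
      rw [ZMod.val_cast_of_lt (Finset.mem_range.mp hk)]
    rw [Finset.sum_congr rfl (fun j _ => h2 j)] at h1
    refine le_trans (Finset.sum_le_sum (fun i _ => ?_)) h1
    rw [vN_sum_zmod]
    refine le_trans (le_of_eq (Finset.sum_congr rfl (fun k hk => ?_)))
      (Finset.sum_le_sum_of_subset_of_nonneg
        (Finset.range_mono (by omega : K ≤ K + d + 1)) (fun k _ _ => by positivity))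
    congr 2
    rw [Finset.mem_range] at hk
    have h3 : ∀ l ∈ Finset.range d, ((k : ZMod (K + d + 1)) + (l : ZMod (K + d + 1))).val = k + l := by
      intro l hl
      rw [Finset.mem_range] at hl
      rw [← Nat.cast_add]
      exact ZMod.val_cast_of_lt (by omega)
    unfold vN_y
    rw [Matrix.mulVec_sum, Finset.sum_apply]
    refine Finset.sum_congr rfl (fun j _ => ?_)
    have h4 : aeval T (P i j) = ∑ l ∈ Finset.range d, (P i j).coeff l • T ^ l :=
      Polynomial.aeval_eq_sum_range' (hd i j) T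
    rw [Matrix.mulVec_mulVec, h4, Finset.mul_sum, Matrix.sum_mulVec, Finset.sum_apply]
    refine Finset.sum_congr rfl (fun l hl => ?_)
    rw [h3 l hl, Matrix.mul_smul, Matrix.smul_mulVec, Pi.smul_apply, smul_eq_mul, mul_assoc D,
      ← pow_add]
  calc ∑ i, (vN_nsq (vN_y P T a i) - vN_nsq ((T ^ K).mulVec (vN_y P T a i)))
      = ∑ i, ∑ k ∈ Finset.range K, vN_nsq ((D * T ^ k).mulVec (vN_y P T a i)) :=
        Finset.sum_congr rfl (fun i _ => (vN_energy hD _ K).symm)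
    _ = ∑ p, ∑ i, ∑ k ∈ Finset.range K, ‖((D * T ^ k).mulVec (vN_y P T a i)) p‖ ^ 2 := by
        unfold vN_nsq
        rw [Finset.sum_comm]
        rw [Finset.sum_congr rfl (fun i _ => Finset.sum_comm)]
        rw [Finset.sum_comm]
        refine Finset.sum_congr rfl (fun p _ => ?_)
        rw [Finset.sum_comm]
    _ ≤ ∑ p, M ^ 2 * ∑ j, ∑ k ∈ Finset.range (K + d + 1), ‖((D * T ^ k).mulVec (a j)) p‖ ^ 2 :=
        Finset.sum_le_sum (fun p _ => key p)
    _ = M ^ 2 * ∑ j, ∑ k ∈ Finset.range (K + d + 1), vN_nsq ((D * T ^ k).mulVec (a j)) := by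
        rw [← Finset.mul_sum]
        congr 1
        rw [Finset.sum_comm]
        refine Finset.sum_congr rfl (fun j _ => ?_)
        rw [Finset.sum_comm]
        rfl
    _ ≤ M ^ 2 * ∑ j, vN_nsq (a j) := by
        refine mul_le_mul_of_nonneg_left (Finset.sum_le_sum (fun j _ => ?_)) (sq_nonneg M)
        rw [vN_energy hD]
        have := vN_nsq_nonneg ((T ^ (K + d + 1)).mulVec (a j))
        linarith

theorem vN_pow {n : ℕ} {T : Matrix (Fin n) (Fin n) ℂ} {r : ℝ} (hT : opn T ≤ r)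
    (v : Fin n → ℂ) (K : ℕ) : vN_nsq ((T ^ K).mulVec v) ≤ (r ^ 2) ^ K * vN_nsq v := by
  induction K with
  | zero => simp
  | succ K ih =>
    rw [pow_succ' T, ← Matrix.mulVec_mulVec]
    refine (vN_le hT _).trans ?_
    rw [pow_succ' (r ^ 2), mul_assoc]
    exact mul_le_mul_of_nonneg_left ih (sq_nonneg r)

theorem vN_strict {m n : ℕ} (P : Matrix (Fin m) (Fin m) ℂ[X]) (M : ℝ)
    (hP : ∀ z : ℂ, ‖z‖ ≤ 1 → opn (P.map (fun p => p.eval z)) ≤ M)
    (T : Matrix (Fin n) (Fin n) ℂ) (r : ℝ) (hr0 : 0 ≤ r) (hr : r < 1) (hT : opn T ≤ r)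
    (a : Fin m → Fin n → ℂ) :
    ∑ i, vN_nsq (vN_y P T a i) ≤ M ^ 2 * ∑ j, vN_nsq (a j) := by
  have h1 : ∀ K : ℕ, ∑ i, vN_nsq (vN_y P T a i) ≤
      M ^ 2 * ∑ j, vN_nsq (a j) + (r ^ 2) ^ K * ∑ i, vN_nsq (vN_y P T a i) := by
    intro K
    have h2 := vN_main P M hP T (hT.trans hr.le) a K
    rw [Finset.sum_sub_distrib] at h2
    have h3 : ∑ i, vN_nsq ((T ^ K).mulVec (vN_y P T a i)) ≤
        (r ^ 2) ^ K * ∑ i, vN_nsq (vN_y P T a i) := by
      rw [Finset.mul_sum]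
      exact Finset.sum_le_sum (fun i _ => vN_pow hT _ K)
    linarith
  have h2 : Tendsto (fun K : ℕ => M ^ 2 * ∑ j, vN_nsq (a j) +
      (r ^ 2) ^ K * ∑ i, vN_nsq (vN_y P T a i)) atTop
      (𝓝 (M ^ 2 * ∑ j, vN_nsq (a j) + 0 * ∑ i, vN_nsq (vN_y P T a i))) := by
    refine Tendsto.add tendsto_const_nhds (Tendsto.mul ?_ tendsto_const_nhds)
    exact tendsto_pow_atTop_nhds_zero_of_lt_one (sq_nonneg r) (by nlinarith)
  rw [zero_mul, add_zero] at h2
  exact ge_of_tendsto' h2 h1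

theorem vN_evalMat {m n : ℕ} (P : Matrix (Fin m) (Fin m) ℂ[X]) (T : Matrix (Fin n) (Fin n) ℂ)
    (b : Fin m × Fin n → ℂ) : vN_nsq ((evalMat P T).mulVec b) =
      ∑ i, vN_nsq (vN_y P T (fun j q => b (j, q)) i) := by
  unfold vN_nsq
  rw [Fintype.sum_prod_type]
  refine Finset.sum_congr rfl (fun i _ => Finset.sum_congr rfl (fun p _ => ?_))
  congr 2
  unfold vN_y evalMat Matrix.mulVec dotProduct
  rw [Fintype.sum_prod_type, Finset.sum_apply]

theorem vN_contr {m n : ℕ} (P : Matrix (Fin m) (Fin m) ℂ[X]) (M : ℝ)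
    (hP : ∀ z : ℂ, ‖z‖ ≤ 1 → opn (P.map (fun p => p.eval z)) ≤ M)
    (T : Matrix (Fin n) (Fin n) ℂ) (hT : opn T ≤ 1) (a : Fin m → Fin n → ℂ) :
    ∑ i, vN_nsq (vN_y P T a i) ≤ M ^ 2 * ∑ j, vN_nsq (a j) := by
  have hc : Continuous (fun s : ℝ => ∑ i, vN_nsq (vN_y P ((s : ℂ) • T) a i)) := by
    unfold vN_nsq
    refine continuous_finsetSum _ (fun i _ => continuous_finsetSum _ (fun p _ => ?_))
    refine (Continuous.norm ?_).pow 2
    unfold vN_y
    have h1 : ∀ j, Continuous (fun s : ℝ => (aeval ((s : ℂ) • T) (P i j)).mulVec (a j)) := by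
      intro j
      exact Continuous.matrix_mulVec ((P i j).continuous_aeval.comp
        (Complex.continuous_ofReal.smul continuous_const)) continuous_const
    exact (continuous_apply p).comp (continuous_finsetSum _ (fun j _ => h1 j))
  have h2 : Tendsto (fun s : ℝ => ∑ i, vN_nsq (vN_y P ((s : ℂ) • T) a i)) (𝓝[<] 1)
      (𝓝 (∑ i, vN_nsq (vN_y P (((1 : ℝ) : ℂ) • T) a i))) :=
    (hc.tendsto 1).mono_left nhdsWithin_le_nhds
  rw [Complex.ofReal_one, one_smul] at h2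
  refine le_of_tendsto h2 ?_
  filter_upwards [Ioo_mem_nhdsLT (zero_lt_one' ℝ)] with s hs
  refine vN_strict P M hP _ s hs.1.le hs.2 ?_ a
  unfold opn at hT ⊢
  rw [map_smul, norm_smul, Complex.norm_real, Real.norm_of_nonneg hs.1.le]
  have := mul_le_mul_of_nonneg_left hT hs.1.le
  linarith

theorem t_vN : S_vN := by
  intro m n P M hP hM T hT
  refine vN_ge hM (fun b => ?_)
  rw [vN_evalMat]
  refine (vN_contr P M hP T hT _).trans (le_of_eq ?_)
  unfold vN_nsq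
  rw [Fintype.sum_prod_type]

end Pool.Agent.H270.QD
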